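import Pool.Agent.helper96.Airy.Sol

open Set Filter Topology ComplexConjugate MeasureTheory intervalIntegral

namespace Helper96.Airy

/-- The Gaussian process `X(t) = ∫₀ᵗ exp(-(4/3)(t^{3/2} - u^{3/2})) dB(u)`, integrated by parts. -/
noncomputable def stX (b : ℝ → ℝ) (t : ℝ) : ℝ :=
  b t - ∫ u in (0:ℝ)..t, b u * (2 * Real.sqrt u *
    Real.exp (-(4 / 3) * (t ^ (3 / 2 : ℝ) - u ^ (3 / 2 : ℝ))))

/-- The asymptotic profile of the stochastic Airy function. -/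
noncomputable def profile (β c : ℝ) (b : ℝ → ℝ) (l : ℂ) (t : ℝ) : ℂ :=
  ((1 / Real.sqrt (4 * Real.pi) * t ^ (-(1 / 4) * (1 + 2 / β)) : ℝ) : ℂ) *
    Complex.exp (-(2 / 3) * ((t : ℂ) + l) ^ (3 / 2 : ℂ) - ((∫ u in (0:ℝ)..t, stX b u : ℝ) : ℂ) +
      ((2 * c / β : ℝ) : ℂ))

lemma cpow_three_half (z : ℂ) : z ^ (3 / 2 : ℂ) = csq z ^ 3 := by
  rw [csq, ← Complex.cpow_mul_nat]
  congr 1
  norm_num

lemma log_norm_profile (β c : ℝ) (b : ℝ → ℝ) (l : ℂ) {t : ℝ} (ht : 0 < t) :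
    profile β c b l t ≠ 0 ∧ Real.log ‖profile β c b l t‖ =
      Real.log (1 / Real.sqrt (4 * Real.pi) * t ^ (-(1 / 4) * (1 + 2 / β))) +
      (-(2 / 3) * (csq ((t : ℂ) + l) ^ 3).re - (∫ u in (0:ℝ)..t, stX b u) + 2 * c / β) := by
  have hpos : 0 < 1 / Real.sqrt (4 * Real.pi) * t ^ (-(1 / 4) * (1 + 2 / β)) := by
    have : 0 < Real.sqrt (4 * Real.pi) := Real.sqrt_pos.2 (by positivity)
    have : 0 < t ^ (-(1 / 4) * (1 + 2 / β)) := Real.rpow_pos_of_pos ht _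
    positivity
  constructor
  · rw [profile]
    refine mul_ne_zero ?_ (Complex.exp_ne_zero _)
    rw [Complex.ofReal_ne_zero]
    exact hpos.ne'
  · rw [profile, norm_mul, Complex.norm_real, Complex.norm_exp, Real.norm_eq_abs, abs_of_pos hpos,
      Real.log_mul hpos.ne' (Real.exp_pos _).ne', Real.log_exp]
    congr 1
    rw [cpow_three_half, Complex.add_re, Complex.sub_re, Complex.ofReal_re, Complex.ofReal_re]
    congr 2
    have : (-(2 / 3) : ℂ) = ((-(2 / 3) : ℝ) : ℂ) := by push_cast; rfl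
    rw [this, Complex.re_ofReal_mul]

lemma cube_expand {l : ℂ} {t : ℝ} (ht : 0 < t) (hl : 100 * ‖l‖ ≤ t) :
    |-(2 / 3) * (csq ((t : ℂ) + l) ^ 3).re + 2 / 3 * (t * Real.sqrt t) + l.re * Real.sqrt t| ≤
      2 * ‖l‖ ^ 2 / Real.sqrt t := by
  obtain ⟨a1, a2, _⟩ := geom_far ht hl
  have hsq := csq_sq ((t : ℂ) + l)
  set s := csq ((t : ℂ) + l) with hs
  set X := Real.sqrt t with hX
  have hX0 : 0 < X := Real.sqrt_pos.2 ht
  have hXX : X ^ 2 = t := Real.sq_sqrt ht.le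
  have h1 : -(2 / 3) * (s ^ 3).re + 2 / 3 * (t * X) + l.re * X =
      (-(1 / 3 : ℂ) * (s - X) ^ 2 * (X + 2 * s)).re := by
    have h2 : -(1 / 3 : ℂ) * (s - X) ^ 2 * (X + 2 * s) =
        ((-(2 / 3) : ℝ) : ℂ) * s ^ 3 + ((2 / 3 * (t * X) : ℝ) : ℂ) + (X : ℂ) * l := by
      have h3 : l = s ^ 2 - (X : ℂ) ^ 2 := by
        rw [hsq, ← Complex.ofReal_pow, hXX]; ring
      rw [h3, ← hXX]
      push_cast
      ring
    rw [h2, Complex.add_re, Complex.add_re, Complex.re_ofReal_mul, Complex.re_ofReal_mul,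
      Complex.ofReal_re]
    ring
  rw [h1]
  refine (Complex.abs_re_le_norm _).trans ?_
  have h4 : X ≤ ‖s + X‖ := by
    refine le_trans ?_ (Complex.re_le_norm _)
    rw [Complex.add_re, Complex.ofReal_re]
    linarith
  have h5 : ‖s - X‖ * ‖s + X‖ = ‖l‖ := by
    rw [← norm_mul]
    congr 1
    have h3 : l = s ^ 2 - (X : ℂ) ^ 2 := by
      rw [hsq, ← Complex.ofReal_pow, hXX]; ring
    rw [h3]; ring
  have h6 : ‖s - X‖ ≤ ‖l‖ / X := by
    rw [le_div_iff₀ hX0, ← h5]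
    gcongr
  have h7 : ‖(X : ℂ) + 2 * s‖ ≤ 4 * X := by
    refine (norm_add_le _ _).trans ?_
    rw [norm_mul, Complex.norm_real, Real.norm_eq_abs, abs_of_pos hX0]
    simp only [Complex.norm_ofNat]
    linarith
  calc ‖-(1 / 3 : ℂ) * (s - X) ^ 2 * (X + 2 * s)‖ = 1 / 3 * ‖s - X‖ ^ 2 * ‖(X : ℂ) + 2 * s‖ := by
        rw [norm_mul, norm_mul, norm_pow, norm_neg]
        norm_num
    _ ≤ 1 / 3 * (‖l‖ / X) ^ 2 * (4 * X) := by gcongr
    _ = 4 / 3 * ‖l‖ ^ 2 / X := by field_simp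
    _ ≤ 2 * ‖l‖ ^ 2 / X := by gcongr; norm_num

/-- asymptotics give the limit of `lq`. -/
theorem lq_tendsto {β c : ℝ} {b : ℝ → ℝ} {l : ℂ} {f f0 : ℝ → ℂ}
    (h : Tendsto (fun t => f t / profile β c b l t) atTop (𝓝 1))
    (h0 : Tendsto (fun t => f0 t / profile β c b 0 t) atTop (𝓝 1)) :
    Tendsto (lq l f0 f) atTop (𝓝 0) := by
  have hlog : ∀ {q : ℝ → ℂ}, Tendsto q atTop (𝓝 1) → Tendsto (fun t => Real.log ‖q t‖) atTop (𝓝 0) := by
    intro q hq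
    have h1 : Tendsto (fun t => ‖q t‖) atTop (𝓝 1) := by
      have := hq.norm
      simpa using this
    have h2 := (Real.continuousAt_log (one_ne_zero)).tendsto.comp h1
    rw [Real.log_one] at h2
    exact h2
  have e1 := hlog h
  have e2 := hlog h0
  have hne : ∀ᶠ t in atTop, f t / profile β c b l t ≠ 0 := h.eventually_ne one_ne_zero
  have hne0 : ∀ᶠ t in atTop, f0 t / profile β c b 0 t ≠ 0 := h0.eventually_ne one_ne_zero
  -- the difference of the log-profile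
  have e3 : Tendsto (fun t : ℝ => -(2 / 3) * (csq ((t : ℂ) + l) ^ 3).re + 2 / 3 * (t * Real.sqrt t)
      + l.re * Real.sqrt t) atTop (𝓝 0) := by
    have h3 := tendsto_inv_sqrt (4 * ‖l‖ ^ 2)
    refine squeeze_zero_norm' ?_ h3
    filter_upwards [eventually_gt_atTop 0, eventually_ge_atTop (100 * ‖l‖)] with t ht hl
    rw [Real.norm_eq_abs]
    refine (cube_expand ht hl).trans (le_of_eq ?_)
    have hw : 0 < Real.sqrt t := Real.sqrt_pos.2 ht
    field_simp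
    ring
  have e4 := (e1.sub e2).add e3
  rw [sub_zero, add_zero] at e4
  refine e4.congr' ?_
  filter_upwards [hne, hne0, eventually_gt_atTop 0] with t a1 a2 ht
  obtain ⟨p1, p2⟩ := log_norm_profile β c b l ht
  obtain ⟨p3, p4⟩ := log_norm_profile β c b 0 ht
  have hf : f t ≠ 0 := by
    intro h; apply a1; rw [h, zero_div]
  have hf0 : f0 t ≠ 0 := by
    intro h; apply a2; rw [h, zero_div]
  rw [norm_div, norm_div, Real.log_div (norm_ne_zero_iff.2 hf) (norm_ne_zero_iff.2 p1),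
    Real.log_div (norm_ne_zero_iff.2 hf0) (norm_ne_zero_iff.2 p3), p2, p4, lq]
  have hc0 : (csq ((t : ℂ) + 0) ^ 3).re = t * Real.sqrt t := by
    rw [add_zero]
    have h5 : csq (t : ℂ) = ((Real.sqrt t : ℝ) : ℂ) := by
      have r1 := csq_re (t : ℂ)
      have r2 := csq_im_sq (t : ℂ)
      have hn : ‖(t : ℂ)‖ = t := by rw [Complex.norm_real, Real.norm_eq_abs, abs_of_pos ht]
      rw [hn, Complex.ofReal_re] at r1 r2
      apply Complex.ext
      · rw [r1, Complex.ofReal_re]; congr 1; ring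
      · rw [Complex.ofReal_im]
        have : (csq (t : ℂ)).im ^ 2 = 0 := by rw [r2]; ring
        exact pow_eq_zero_iff (two_ne_zero) |>.1 this
    rw [h5]
    exact sq0_cube_re ht.le
  rw [hc0]
  ring

lemma eventually_ne_of_asym {β c : ℝ} {b : ℝ → ℝ} {l : ℂ} {f : ℝ → ℂ}
    (h : Tendsto (fun t => f t / profile β c b l t) atTop (𝓝 1)) : ∀ t, ∃ u, t ≤ u ∧ f u ≠ 0 := by
  intro t
  have hne : ∀ᶠ t in atTop, f t / profile β c b l t ≠ 0 := h.eventually_ne one_ne_zero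
  obtain ⟨u, hu1, hu2⟩ := (hne.and (eventually_ge_atTop t)).exists
  refine ⟨u, hu2, fun h => hu1 ?_⟩
  rw [h, zero_div]

/-- `f` is the stochastic Airy function with spectral parameter `l` driven by the path `b`. -/
def IsSAi (β c : ℝ) (b : ℝ → ℝ) (l : ℂ) (f : ℝ → ℂ) : Prop :=
  IsSol b l f ∧ (∃ M : ℝ, ∀ t : ℝ, 0 ≤ t → ‖f t‖ ≤ M) ∧
    Tendsto (fun t => f t / profile β c b l t) atTop (𝓝 1)

theorem solFam_of_isSAi {β c : ℝ} {b : ℝ → ℝ} (hb : Continuous b) {Λ : Set ℂ} {F : ℂ → ℝ → ℂ}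
    (hF : ∀ l ∈ Λ, IsSAi β c b l (F l)) (h0 : (0 : ℂ) ∈ Λ) (h1 : (1 : ℂ) ∈ Λ) (hI : Complex.I ∈ Λ) :
    ∃ Ψ : ℂ → ℝ → ℂ, SolFam (gg b) (nn b) Λ F Ψ := by
  have hch : ∀ l : ℂ, ∃ Ψ : ℝ → ℂ, l ∈ Λ → Sys (gg b) (nn b) l (F l) Ψ := by
    intro l
    by_cases hl : l ∈ Λ
    · obtain ⟨Ψ, hΨ⟩ := sys_of_isSol hb (hF l hl).1
      exact ⟨Ψ, fun _ => hΨ⟩
    · exact ⟨0, fun h => absurd h hl⟩
  choose Ψ hΨ using hch
  exact ⟨Ψ, hΨ, fun l hl => (hF l hl).2.1, fun l hl => eventually_ne_of_asym (hF l hl).2.2,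
    fun l hl => lq_tendsto (hF l hl).2.2 (hF 0 h0).2.2, h0, h1, hI⟩

end Helper96.Airy
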