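import Pool.Agent.helper96.Airy.BM
import Pool.Agent.helper96.Airy.Asym

open Set Filter Topology MeasureTheory ProbabilityTheory
open scoped ENNReal NNReal

namespace Helper96.Airy

/-- maximum modulus on the circle of radius `r`. -/
noncomputable def maxMod (f : ℂ → ℂ) (r : ℝ) : ℝ := ⨆ z : Metric.sphere (0 : ℂ) r, ‖f z‖

/-- order of an entire function. -/
noncomputable def entOrder (f : ℂ → ℂ) : EReal :=
  limsup (fun r : ℝ => ((Real.log (Real.log (maxMod f r)) / Real.log r : ℝ) : EReal)) atTop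

lemma maxMod_bounds {f : ℂ → ℂ} {r A : ℝ} (hr : 0 < r)
    (hup : ∀ z : ℂ, ‖z‖ = r → ‖f z‖ ≤ A) :
    ‖f ((r : ℂ) * Complex.I)‖ ≤ maxMod f r ∧ maxMod f r ≤ A := by
  have hmem : (r : ℂ) * Complex.I ∈ Metric.sphere (0 : ℂ) r := by
    rw [mem_sphere_zero_iff_norm, norm_mul, Complex.norm_I, mul_one, Complex.norm_real,
      Real.norm_eq_abs, abs_of_pos hr]
  have hbdd : BddAbove (range fun z : Metric.sphere (0 : ℂ) r => ‖f z‖) := by
    refine ⟨A, ?_⟩
    rintro _ ⟨z, rfl⟩
    exact hup z (mem_sphere_zero_iff_norm.1 z.2)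
  constructor
  · exact le_ciSup hbdd ⟨(r : ℂ) * Complex.I, hmem⟩
  · have : Nonempty (Metric.sphere (0 : ℂ) r) := ⟨⟨_, hmem⟩⟩
    exact ciSup_le fun z => hup z (mem_sphere_zero_iff_norm.1 z.2)

theorem entOrder_eq {f : ℂ → ℂ} {C c R : ℝ} (hc : 0 < c)
    (hup : ∀ z : ℂ, R < ‖z‖ → ‖f z‖ ≤ Real.exp (C * (‖z‖ * Real.sqrt ‖z‖)))
    (hlow : ∀ r : ℝ, R < r → Real.exp (c * (r * Real.sqrt r)) ≤ ‖f ((r : ℂ) * Complex.I)‖) :
    entOrder f = ((3 / 2 : ℝ) : EReal) := by
  have hmain : Tendsto (fun r : ℝ => Real.log (Real.log (maxMod f r)) / Real.log r) atTop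
      (𝓝 (3 / 2)) := by
    have hlog : Tendsto (fun r : ℝ => Real.log r) atTop atTop := Real.tendsto_log_atTop
    have hlow1 : Tendsto (fun r : ℝ => Real.log c / Real.log r + 3 / 2) atTop (𝓝 (0 + 3 / 2)) :=
      (Tendsto.const_div_atTop hlog _).add tendsto_const_nhds
    have hup1 : Tendsto (fun r : ℝ => Real.log (|C| + c) / Real.log r + 3 / 2) atTop (𝓝 (0 + 3 / 2)) :=
      (Tendsto.const_div_atTop hlog _).add tendsto_const_nhds
    rw [zero_add] at hlow1 hup1
    have hall : ∀ᶠ r : ℝ in atTop, Real.log c / Real.log r + 3 / 2 ≤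
        Real.log (Real.log (maxMod f r)) / Real.log r ∧
        Real.log (Real.log (maxMod f r)) / Real.log r ≤ Real.log (|C| + c) / Real.log r + 3 / 2 := by
      filter_upwards [eventually_gt_atTop R, eventually_gt_atTop 1] with r hr hr1
      have hr0 : 0 < r := by linarith
      have hs : 0 < Real.sqrt r := Real.sqrt_pos.2 hr0
      have hlr : 0 < Real.log r := Real.log_pos hr1
      obtain ⟨a1, a2⟩ := maxMod_bounds hr0 (A := Real.exp (C * (r * Real.sqrt r)))
        (fun z hz => by have := hup z (by rw [hz]; exact hr); rwa [hz] at this)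
      have a3 := (hlow r hr).trans a1
      have hMpos : 0 < maxMod f r := (Real.exp_pos _).trans_le a3
      have b1 : c * (r * Real.sqrt r) ≤ Real.log (maxMod f r) := by
        rwa [Real.le_log_iff_exp_le hMpos]
      have b2 : Real.log (maxMod f r) ≤ C * (r * Real.sqrt r) := by
        rwa [Real.log_le_iff_le_exp hMpos]
      have hpos1 : 0 < c * (r * Real.sqrt r) := by positivity
      have b2' : Real.log (maxMod f r) ≤ (|C| + c) * (r * Real.sqrt r) := by
        refine b2.trans ?_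
        have : C ≤ |C| + c := by have := le_abs_self C; linarith
        gcongr
      have hlogr : Real.log (r * Real.sqrt r) = 3 / 2 * Real.log r := by
        rw [Real.log_mul hr0.ne' hs.ne', Real.log_sqrt hr0.le]; ring
      have hCc : 0 < |C| + c := by positivity
      have d1 : Real.log c + 3 / 2 * Real.log r ≤ Real.log (Real.log (maxMod f r)) := by
        rw [← hlogr, ← Real.log_mul hc.ne' (by positivity)]
        exact Real.log_le_log hpos1 b1
      have d2 : Real.log (Real.log (maxMod f r)) ≤ Real.log (|C| + c) + 3 / 2 * Real.log r := by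
        rw [← hlogr, ← Real.log_mul hCc.ne' (by positivity)]
        exact Real.log_le_log (hpos1.trans_le b1) b2'
      constructor
      · rw [le_div_iff₀ hlr, add_mul, div_mul_cancel₀ _ hlr.ne']; exact d1
      · rw [div_le_iff₀ hlr, add_mul, div_mul_cancel₀ _ hlr.ne']; exact d2
    exact tendsto_of_tendsto_of_tendsto_of_le_of_le' hlow1 hup1
      (hall.mono fun r h => h.1) (hall.mono fun r h => h.2)
  have h2 : Tendsto (fun r : ℝ => ((Real.log (Real.log (maxMod f r)) / Real.log r : ℝ) : EReal)) atTop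
      (𝓝 ((3 / 2 : ℝ) : EReal)) := (continuous_coe_real_ereal.tendsto _).comp hmain
  exact h2.limsup_eq

/-- the countable dense set of Gaussian rationals. -/
def gRat : Set ℂ := range (fun p : ℚ × ℚ => (p.1 : ℂ) + (p.2 : ℂ) * Complex.I)

lemma gRat_dense : Dense gRat := by
  have h1 : DenseRange (fun p : ℚ × ℚ => ((p.1 : ℝ), (p.2 : ℝ))) :=
    DenseRange.prodMap Rat.denseRange_cast Rat.denseRange_cast
  have h2 : DenseRange (Complex.equivRealProdCLM.symm ∘ (fun p : ℚ × ℚ => ((p.1 : ℝ), (p.2 : ℝ)))) :=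
    (Complex.equivRealProdCLM.symm.surjective.denseRange).comp h1
      Complex.equivRealProdCLM.symm.continuous
  have h3 : gRat = range (Complex.equivRealProdCLM.symm ∘ (fun p : ℚ × ℚ => ((p.1 : ℝ), (p.2 : ℝ)))) := by
    rw [gRat]
    congr 1
    funext p
    apply Complex.ext <;> simp
  rw [h3]
  exact h2

/-- Deterministic statement. -/
theorem order_of_path {β c : ℝ} {b : ℝ → ℝ} (hb : Continuous b) (hosc : SmallOsc b)
    {F : ℂ → ℝ → ℂ} (hF : ∀ l ∈ gRat, IsSAi β c b l (F l)) {t : ℝ}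
    (hc : Continuous (fun l => F l t)) :
    entOrder (fun l => F l t) = ((3 / 2 : ℝ) : EReal) := by
  have h0 : (0 : ℂ) ∈ gRat := ⟨(0, 0), by simp⟩
  have h1 : (1 : ℂ) ∈ gRat := ⟨(1, 0), by simp⟩
  have hI : Complex.I ∈ gRat := ⟨(0, 1), by simp⟩
  obtain ⟨Ψ, hfam⟩ := solFam_of_isSAi hb hF h0 h1 hI
  have hP := pathData_of_smallOsc hb hosc
  obtain ⟨R1, hR1⟩ := upper_bound hP hfam t
  obtain ⟨R2, hR2⟩ := lower_bound hP hfam t
  refine entOrder_eq (C := 10 ^ 10) (c := 1 / 20) (R := max R1 R2) (by norm_num) ?_ ?_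
  · intro z hz
    have hclosed : IsClosed {z : ℂ | ‖F z t‖ ≤ Real.exp (10 ^ 10 * (‖z‖ * Real.sqrt ‖z‖))} := by
      apply isClosed_le
      · exact hc.norm
      · fun_prop
    have hopen : IsOpen {z : ℂ | R1 < ‖z‖} := isOpen_lt continuous_const continuous_norm
    have h3 : {z : ℂ | R1 < ‖z‖} ⊆ closure ({z : ℂ | R1 < ‖z‖} ∩ gRat) :=
      gRat_dense.open_subset_closure_inter hopen
    have h4 : closure ({z : ℂ | R1 < ‖z‖} ∩ gRat) ⊆
        {z : ℂ | ‖F z t‖ ≤ Real.exp (10 ^ 10 * (‖z‖ * Real.sqrt ‖z‖))} := by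
      apply closure_minimal _ hclosed
      rintro w ⟨hw1, hw2⟩
      exact hR1 w hw2 (le_of_lt hw1)
    exact h4 (h3 (lt_of_le_of_lt (le_max_left _ _) hz))
  · intro r hr
    have hclosed : IsClosed {r : ℝ | Real.exp (1 / 20 * (r * Real.sqrt r)) ≤
        ‖F ((r : ℂ) * Complex.I) t‖} := by
      apply isClosed_le
      · fun_prop
      · have : Continuous (fun r : ℝ => (r : ℂ) * Complex.I) := by fun_prop
        exact (hc.comp this).norm
    have hopen : IsOpen {r : ℝ | R2 < r} := isOpen_lt continuous_const continuous_id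
    have h3 : {r : ℝ | R2 < r} ⊆ closure ({r : ℝ | R2 < r} ∩ range ((↑) : ℚ → ℝ)) :=
      Dense.open_subset_closure_inter Rat.denseRange_cast hopen
    have h4 : closure ({r : ℝ | R2 < r} ∩ range ((↑) : ℚ → ℝ)) ⊆
        {r : ℝ | Real.exp (1 / 20 * (r * Real.sqrt r)) ≤ ‖F ((r : ℂ) * Complex.I) t‖} := by
      apply closure_minimal _ hclosed
      rintro _ ⟨hw1, ⟨q, rfl⟩⟩
      refine hR2 _ (le_of_lt hw1) ⟨(0, q), ?_⟩
      simp
    exact h4 (h3 (lt_of_le_of_lt (le_max_right _ _) hr))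

/-- Deterministic statement, all spectral parameters simultaneously. -/
theorem order_of_path' {β c : ℝ} {b : ℝ → ℝ} (hb : Continuous b) (hosc : SmallOsc b)
    {F : ℂ → ℝ → ℂ} (hF : ∀ l, IsSAi β c b l (F l)) (t : ℝ) :
    entOrder (fun l => F l t) = ((3 / 2 : ℝ) : EReal) := by
  obtain ⟨Ψ, hfam⟩ := solFam_of_isSAi (Λ := univ) hb (fun l _ => hF l) (mem_univ _) (mem_univ _)
    (mem_univ _)
  have hP := pathData_of_smallOsc hb hosc
  obtain ⟨R1, hR1⟩ := upper_bound hP hfam t
  obtain ⟨R2, hR2⟩ := lower_bound hP hfam t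
  refine entOrder_eq (C := 10 ^ 10) (c := 1 / 20) (R := max R1 R2) (by norm_num) ?_ ?_
  · intro z hz
    exact hR1 z (mem_univ _) ((le_max_left _ _).trans hz.le)
  · intro r hr
    exact hR2 r ((le_max_right _ _).trans hr.le) (mem_univ _)

end Helper96.Airy
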