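import Pool.Agent.helper96.Airy.Chain

open Set Filter Topology MeasureTheory ProbabilityTheory
open scoped ENNReal NNReal

namespace Helper96.Airy

variable {Ω : Type*} [MeasurableSpace Ω]

/-- Two-sided Brownian motion with variance `(4/β) |t|`. -/
structure IsBM (β : ℝ) (B : ℝ → Ω → ℝ) (P : Measure Ω) : Prop where
  gaussian : IsGaussianProcess B P
  mean : ∀ t, ∫ ω, B t ω ∂P = 0
  cov : ∀ s t, cov[B s, B t; P] = 4 / β * ((|s| + |t| - |t - s|) / 2)
  zero : ∀ᵐ ω ∂P, B 0 ω = 0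
  cont : ∀ᵐ ω ∂P, Continuous (fun t => B t ω)

variable {P : Measure Ω} {β : ℝ} {B : ℝ → Ω → ℝ}

lemma IsBM.var_sub (hB : IsBM β B P) (s t : ℝ) : Var[B t - B s; P] = 4 / β * |t - s| := by
  have := hB.gaussian.isProbabilityMeasure
  have h1 : MemLp (B t) 2 P := (hB.gaussian.hasGaussianLaw_eval t).memLp_two
  have h2 : MemLp (B s) 2 P := (hB.gaussian.hasGaussianLaw_eval s).memLp_two
  rw [← covariance_self (h1.sub h2).aemeasurable, covariance_sub_sub h1 h2 h1 h2,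
    hB.cov, hB.cov, hB.cov, hB.cov, abs_sub_comm s t]
  simp only [sub_self, abs_zero]
  ring

lemma IsBM.mean_sub (hB : IsBM β B P) (s t : ℝ) : ∫ ω, (B t - B s) ω ∂P = 0 := by
  have := hB.gaussian.isProbabilityMeasure
  have h1 : Integrable (B t) P := (hB.gaussian.hasGaussianLaw_eval t).integrable
  have h2 : Integrable (B s) P := (hB.gaussian.hasGaussianLaw_eval s).integrable
  simp only [Pi.sub_apply]
  rw [integral_sub h1 h2, hB.mean, hB.mean, sub_zero]

lemma IsBM.subG (hβ : 0 < β) (hB : IsBM β B P) (s t : ℝ) :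
    HasSubgaussianMGF (B t - B s) (4 / β * |t - s|).toNNReal P := by
  have hlaw := (hB.gaussian.hasGaussianLaw_sub (s := t) (t := s)).map_eq_gaussianReal
  rw [hB.var_sub, show (P[B t - B s] : ℝ) = 0 from hB.mean_sub s t] at hlaw
  constructor
  · intro r
    by_contra hcon
    have h1 := mgf_undef (X := B t - B s) (t := r) hcon
    rw [mgf_gaussianReal hlaw] at h1
    exact (Real.exp_pos _).ne' h1
  · intro r
    rw [mgf_gaussianReal hlaw]
    apply le_of_eq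
    congr 1
    ring

lemma exp_neg_le {y : ℝ} (hy : 0 < y) : Real.exp (-y) ≤ 2 / y ^ 2 := by
  have h1 := Real.quadratic_le_exp_of_nonneg hy.le
  rw [Real.exp_neg, inv_eq_one_div, div_le_div_iff₀ (Real.exp_pos _) (by positivity)]
  linarith

/-- tail bound for increments -/
lemma IsBM.tail (hβ : 0 < β) (hB : IsBM β B P) {s t x : ℝ} (hst : s ≠ t) (hx : 0 < x) :
    P {ω | x ≤ |B t ω - B s ω|} ≤ ENNReal.ofReal (16 * (4 / β * |t - s|) ^ 2 / x ^ 4) := by
  have := hB.gaussian.isProbabilityMeasure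
  have hv : 0 < 4 / β * |t - s| := by
    have : 0 < |t - s| := abs_pos.2 (sub_ne_zero.2 hst.symm)
    positivity
  set v := 4 / β * |t - s| with hvdef
  have h1 := hB.subG hβ s t
  rw [← hvdef] at h1
  have h2 := h1.measure_ge_le hx.le
  have h3 := h1.neg.measure_ge_le hx.le
  rw [Real.coe_toNNReal _ hv.le] at h2 h3
  have h4 : Real.exp (-x ^ 2 / (2 * v)) ≤ 8 * v ^ 2 / x ^ 4 := by
    have h5 := exp_neg_le (y := x ^ 2 / (2 * v)) (by positivity)
    rw [neg_div]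
    refine h5.trans (le_of_eq ?_)
    field_simp
    norm_num
  have hsub : {ω | x ≤ |B t ω - B s ω|} ⊆ {ω | x ≤ (B t - B s) ω} ∪ {ω | x ≤ (-(B t - B s)) ω} := by
    intro ω hω
    have hω' : x ≤ |B t ω - B s ω| := hω
    rcases le_abs.1 hω' with h | h
    · left; exact h
    · right; exact h
  refine (measure_mono hsub).trans ((measure_union_le _ _).trans ?_)
  rw [← ofReal_measureReal, ← ofReal_measureReal, ← ENNReal.ofReal_add (by positivity) (by positivity)]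
  apply ENNReal.ofReal_le_ofReal
  have h6 : 16 * v ^ 2 / x ^ 4 = 8 * v ^ 2 / x ^ 4 + 8 * v ^ 2 / x ^ 4 := by ring
  rw [h6]
  linarith

/-- the bad event in block `n` for the threshold `ε` -/
def bad (B : ℝ → Ω → ℝ) (ε : ℝ) (n : ℕ) : Set Ω :=
  ⋃ m : ℕ, ⋃ j ∈ Finset.range (2 ^ m),
    {ω | ε * (9 / 10) ^ m * Real.sqrt n ≤ |B ((n : ℝ) + ((j : ℝ) + 1) / 2 ^ m) ω - B ((n : ℝ) + (j : ℝ) / 2 ^ m) ω|}

lemma IsBM.bad_le (hβ : 0 < β) (hB : IsBM β B P) {ε : ℝ} (hε : 0 < ε) {n : ℕ} (hn : 0 < n) :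
    P (bad B ε n) ≤ ENNReal.ofReal (16 * (4 / β) ^ 2 / ε ^ 4 * 5 * (1 / (n : ℝ) ^ 2)) := by
  have hn0 : (0:ℝ) < n := by exact_mod_cast hn
  have hsn : 0 < Real.sqrt n := Real.sqrt_pos.2 hn0
  set C := 16 * (4 / β) ^ 2 / ε ^ 4 * (1 / (n : ℝ) ^ 2) with hC
  have hC0 : 0 < C := by positivity
  have hterm : ∀ m : ℕ, P (⋃ j ∈ Finset.range (2 ^ m),
      {ω | ε * (9 / 10) ^ m * Real.sqrt n ≤ |B ((n : ℝ) + ((j : ℝ) + 1) / 2 ^ m) ω - B ((n : ℝ) + (j : ℝ) / 2 ^ m) ω|})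
      ≤ ENNReal.ofReal (C * (4 / 5) ^ m) := by
    intro m
    refine (measure_biUnion_finset_le _ _).trans ?_
    have h1 : ∀ j ∈ Finset.range (2 ^ m), P {ω | ε * (9 / 10) ^ m * Real.sqrt n ≤
        |B ((n : ℝ) + ((j : ℝ) + 1) / 2 ^ m) ω - B ((n : ℝ) + (j : ℝ) / 2 ^ m) ω|} ≤
        ENNReal.ofReal (C * (1 / 4) ^ m / (6561 / 10000) ^ m) := by
      intro j _
      have hne : (n : ℝ) + (j : ℝ) / 2 ^ m ≠ (n : ℝ) + ((j : ℝ) + 1) / 2 ^ m := by
        intro h
        have h2 : (j : ℝ) / 2 ^ m = ((j : ℝ) + 1) / 2 ^ m := by linarith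
        field_simp at h2
        linarith
      refine (hB.tail hβ hne (by positivity)).trans (ENNReal.ofReal_le_ofReal (le_of_eq ?_))
      have h3 : |(n : ℝ) + ((j : ℝ) + 1) / 2 ^ m - ((n : ℝ) + (j : ℝ) / 2 ^ m)| = 1 / 2 ^ m := by
        have : (n : ℝ) + ((j : ℝ) + 1) / 2 ^ m - ((n : ℝ) + (j : ℝ) / 2 ^ m) = 1 / 2 ^ m := by ring
        rw [this, abs_of_pos (by positivity)]
      rw [h3, hC]
      have h4 : (ε * (9 / 10) ^ m * Real.sqrt n) ^ 4 = ε ^ 4 * (6561 / 10000) ^ m * (n : ℝ) ^ 2 := by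
        have h5 : Real.sqrt n ^ 4 = (n : ℝ) ^ 2 := by
          rw [show (4 : ℕ) = 2 * 2 by norm_num, pow_mul, Real.sq_sqrt hn0.le]
        have h6 : (((9:ℝ) / 10) ^ m) ^ 4 = (6561 / 10000) ^ m := by
          rw [← pow_mul, mul_comm m 4, pow_mul]; norm_num
        rw [mul_pow, mul_pow, h5, h6]
      rw [h4]
      have h7 : ((1:ℝ) / 2 ^ m) ^ 2 = (1 / 4) ^ m := by
        rw [← one_div_pow, ← pow_mul, mul_comm m 2, pow_mul]; norm_num
      rw [mul_pow, h7]
      field_simp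
    refine (Finset.sum_le_sum h1).trans ?_
    rw [Finset.sum_const, Finset.card_range, nsmul_eq_mul]
    rw [show ((2 ^ m : ℕ) : ℝ≥0∞) = ENNReal.ofReal (2 ^ m) by
      rw [← ENNReal.ofReal_natCast]; push_cast; rfl, ← ENNReal.ofReal_mul (by positivity)]
    apply ENNReal.ofReal_le_ofReal
    have h8 : (2:ℝ) ^ m * (C * (1 / 4) ^ m / (6561 / 10000) ^ m) = C * (2 * (1 / 4) / (6561 / 10000)) ^ m := by
      rw [div_pow (2 * (1 / 4)) (6561 / 10000 : ℝ) m, mul_pow]; ring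
    rw [h8]
    apply mul_le_mul_of_nonneg_left _ hC0.le
    exact pow_le_pow_left₀ (by norm_num) (by norm_num) m
  refine (measure_iUnion_le _).trans ((ENNReal.tsum_le_tsum hterm).trans ?_)
  rw [← ENNReal.ofReal_tsum_of_nonneg (fun m => by positivity)
    ((summable_geometric_of_lt_one (by norm_num) (by norm_num)).mul_left C), tsum_mul_left,
    tsum_geometric_of_lt_one (by norm_num) (by norm_num)]
  apply ENNReal.ofReal_le_ofReal
  rw [hC]
  apply le_of_eq
  norm_num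
  ring

/-- almost sure smallness of the oscillation. -/
theorem IsBM.smallOsc (hβ : 0 < β) (hB : IsBM β B P) : ∀ᵐ ω ∂P, SmallOsc (fun t => B t ω) := by
  have h1 : ∀ k : ℕ, ∀ᵐ ω ∂P, ∀ᶠ n : ℕ in atTop, ω ∉ bad B (1 / (10 * ((k : ℝ) + 1))) n := by
    intro k
    apply ae_eventually_notMem
    have hε : 0 < 1 / (10 * ((k : ℝ) + 1)) := by positivity
    set ε := 1 / (10 * ((k : ℝ) + 1))
    set D := 16 * (4 / β) ^ 2 / ε ^ 4 * 5 with hD
    have hD0 : 0 < D := by positivity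
    have h2 : ∀ n : ℕ, P (bad B ε (n + 1)) ≤ ENNReal.ofReal (D * (1 / ((n + 1 : ℕ) : ℝ) ^ 2)) :=
      fun n => hB.bad_le hβ hε (Nat.succ_pos n)
    have hs : Summable (fun n : ℕ => D * (1 / ((n + 1 : ℕ) : ℝ) ^ 2)) := by
      apply Summable.mul_left
      exact (summable_nat_add_iff 1).2 (Real.summable_one_div_nat_pow.2 (by norm_num))
    have h3 : ∑' n : ℕ, P (bad B ε (n + 1)) ≠ ∞ := by
      refine ne_top_of_le_ne_top ?_ (ENNReal.tsum_le_tsum h2)
      rw [← ENNReal.ofReal_tsum_of_nonneg (fun n => by positivity) hs]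
      exact ENNReal.ofReal_ne_top
    have hp := hB.gaussian.isProbabilityMeasure
    rw [tsum_eq_zero_add' ENNReal.summable]
    exact ENNReal.add_ne_top.2 ⟨measure_ne_top _ _, h3⟩
  rw [← ae_all_iff] at h1
  filter_upwards [h1, hB.cont] with ω hω hc
  apply smallOsc_of_blocks
  intro k
  filter_upwards [hω k] with n hn s hs
  have hf : Continuous (fun s => B ((n : ℝ) + s) ω) := hc.comp (continuous_const.add continuous_id)
  have hK : 0 ≤ 1 / (10 * ((k : ℝ) + 1)) * Real.sqrt n := by positivity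
  have h4 := chaining (f := fun s => B ((n : ℝ) + s) ω) hf hK (fun m j hj => ?_) hs
  · simp only [add_zero] at h4
    refine h4.trans (le_of_eq ?_)
    field_simp
  · by_contra hcon
    push Not at hcon
    apply hn
    rw [bad, mem_iUnion]
    refine ⟨m, ?_⟩
    rw [mem_iUnion₂]
    refine ⟨j, Finset.mem_range.2 hj, ?_⟩
    refine le_of_lt (lt_of_eq_of_lt ?_ hcon)
    ring

end Helper96.Airy
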