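import Mathlib

open Set Filter Topology ComplexConjugate

namespace Helper96.Airy

/-- Derivative of the squared modulus of a complex-valued function of a real variable. -/
lemma hasDerivAt_nsq {f : ℝ → ℂ} {f' : ℂ} {t : ℝ} (h : HasDerivAt f f' t) :
    HasDerivAt (fun t => ‖f t‖ ^ 2) (2 * (conj (f t) * f').re) t := by
  have := h.norm_sq
  refine this.congr_deriv ?_
  rw [Complex.inner, mul_comm f']

lemma mono_of_deriv {f f' : ℝ → ℝ} {a : ℝ} (h : ∀ t, a ≤ t → HasDerivAt f (f' t) t)
    (h0 : ∀ t, a ≤ t → 0 ≤ f' t) {s t : ℝ} (hs : a ≤ s) (hst : s ≤ t) : f s ≤ f t := by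
  have hm : MonotoneOn f (Ici a) := by
    apply monotoneOn_of_deriv_nonneg (convex_Ici a)
    · intro x hx
      exact (h x hx).continuousAt.continuousWithinAt
    · intro x hx
      have hx' : a ≤ x := interior_subset hx
      exact (h x hx').differentiableAt.differentiableWithinAt
    · intro x hx
      have hx' : a ≤ x := interior_subset hx
      rw [(h x hx').deriv]
      exact h0 x hx'
  exact hm hs (le_trans hs hst) hst

lemma mono_of_deriv_Icc {f f' : ℝ → ℝ} {a b : ℝ} (h : ∀ t, a ≤ t → t ≤ b → HasDerivAt f (f' t) t)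
    (h0 : ∀ t, a ≤ t → t ≤ b → 0 ≤ f' t) (hab : a ≤ b) : f a ≤ f b := by
  have hm : MonotoneOn f (Icc a b) := by
    apply monotoneOn_of_deriv_nonneg (convex_Icc a b)
    · intro x hx
      exact (h x hx.1 hx.2).continuousAt.continuousWithinAt
    · intro x hx
      have hx' : x ∈ Icc a b := interior_subset hx
      exact (h x hx'.1 hx'.2).differentiableAt.differentiableWithinAt
    · intro x hx
      have hx' : x ∈ Icc a b := interior_subset hx
      rw [(h x hx'.1 hx'.2).deriv]
      exact h0 x hx'.1 hx'.2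
  exact hm ⟨le_rfl, hab⟩ ⟨hab, le_rfl⟩ hab

/-- If `f' ≥ c f` on `[a, ∞)` then `f t ≥ f a * exp (c (t - a))`. -/
lemma growth {f f' : ℝ → ℝ} {a c : ℝ} (h : ∀ t, a ≤ t → HasDerivAt f (f' t) t)
    (h0 : ∀ t, a ≤ t → c * f t ≤ f' t) {t : ℝ} (ht : a ≤ t) :
    f a * Real.exp (c * (t - a)) ≤ f t := by
  have hE : ∀ s, HasDerivAt (fun s => Real.exp (-(c * (s - a)))) (Real.exp (-(c * (s - a))) * (-c)) s := by
    intro s
    have : HasDerivAt (fun s => -(c * (s - a))) (-c) s := by
      have := (((hasDerivAt_id s).sub_const a).const_mul (-c))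
      refine (this.congr_deriv (by ring)).congr_of_eventuallyEq ?_
      filter_upwards with x
      simp only [id]; ring
    exact this.exp
  have h1 : ∀ s, a ≤ s → HasDerivAt (fun s => f s * Real.exp (-(c * (s - a))))
      (Real.exp (-(c * (s - a))) * (f' s - c * f s)) s := by
    intro s hs
    refine ((h s hs).mul (hE s)).congr_deriv ?_
    ring
  have h2 := mono_of_deriv h1 (fun s hs => mul_nonneg (Real.exp_pos _).le (by linarith [h0 s hs]))
    le_rfl ht
  simp only [sub_self, mul_zero, neg_zero, Real.exp_zero, mul_one] at h2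
  have h3 : f t = f t * Real.exp (-(c * (t - a))) * Real.exp (c * (t - a)) := by
    rw [mul_assoc, ← Real.exp_add]; simp
  rw [h3]
  exact mul_le_mul_of_nonneg_right h2 (Real.exp_pos _).le

/-- a function which dominates an exponential is not polynomially bounded -/
lemma no_poly_bound {f : ℝ → ℝ} {a c e : ℝ} (hc : 0 < c) (he : 0 < e)
    (h : ∀ t, a ≤ t → e * Real.exp (c * (t - a)) ≤ f t) (C : ℝ) :
    ¬ ∀ t, a ≤ t → f t ≤ C * (1 + |t|) := by
  intro hb
  have h1 : Tendsto (fun t : ℝ => e * Real.exp (c * (t - a)) / (1 + |t|)) atTop atTop := by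
    have h2 : Tendsto (fun x : ℝ => Real.exp x / x ^ 1) atTop atTop :=
      Real.tendsto_exp_div_pow_atTop 1
    have h3 : Tendsto (fun t : ℝ => c * (t - a)) atTop atTop :=
      (tendsto_atTop_add_const_right _ (-a) tendsto_id).const_mul_atTop hc
    have h4 := h2.comp h3
    -- eventually (1+|t|) ≤ (2/c) * (c*(t-a)) ... 
    have h5 : ∀ᶠ t : ℝ in atTop, (e * c / 2) * (Real.exp (c * (t - a)) / (c * (t - a)) ^ 1)
        ≤ e * Real.exp (c * (t - a)) / (1 + |t|) := by
      filter_upwards [eventually_ge_atTop (max (2 * |a| + 1) 1 + 1)] with t ht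
      have ht1 : 2 * |a| + 1 + 1 ≤ t := le_trans (by gcongr; exact le_max_left _ _) ht
      have ht2 : 1 + 1 ≤ t := le_trans (by gcongr; exact le_max_right _ _) ht
      have hta : 0 < t - a := by
        have := le_abs_self a
        have := abs_nonneg a
        linarith
      have hct : 0 < c * (t - a) := mul_pos hc hta
      have habs : |t| = t := abs_of_nonneg (by linarith)
      rw [habs, pow_one]
      have hpos : 0 < Real.exp (c * (t - a)) := Real.exp_pos _
      rw [div_eq_mul_inv, div_eq_mul_inv, div_eq_mul_inv]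
      rw [show e * c * 2⁻¹ * (Real.exp (c * (t - a)) * (c * (t - a))⁻¹)
        = (e * Real.exp (c * (t - a))) * ((c * 2⁻¹) * (c * (t - a))⁻¹) by ring]
      apply mul_le_mul_of_nonneg_left _ (by positivity)
      rw [mul_inv, ← mul_assoc, show c * 2⁻¹ * c⁻¹ = 2⁻¹ by field_simp, ← mul_inv]
      apply inv_anti₀ (by linarith)
      have := le_abs_self a
      linarith
    refine tendsto_atTop_mono' _ h5 ?_
    exact h4.const_mul_atTop (by positivity)
  have h6 := (h1.eventually_gt_atTop C).and (eventually_ge_atTop a)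
  obtain ⟨t, ht1, ht2⟩ := h6.exists
  have hp : (0:ℝ) < 1 + |t| := by positivity
  rw [lt_div_iff₀ hp] at ht1
  have := hb t ht2
  have := h t ht2
  linarith

end Helper96.Airy
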