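import Pool.Agent.helper96.Airy.Sol

open Set Filter Topology MeasureTheory

namespace Helper96.Airy

/-- dyadic chaining -/
theorem chaining {f : ℝ → ℝ} (hf : Continuous f) {K : ℝ} (hK : 0 ≤ K)
    (h : ∀ m : ℕ, ∀ j : ℕ, j < 2 ^ m →
      |f (((j : ℝ) + 1) / 2 ^ m) - f ((j : ℝ) / 2 ^ m)| ≤ K * (9 / 10) ^ m)
    {s : ℝ} (hs : s ∈ Icc (0:ℝ) 1) : |f s - f 0| ≤ 10 * K := by
  rcases eq_or_lt_of_le hs.2 with h1 | h1
  · have := h 0 0 (by norm_num)
    simp only [CharP.cast_eq_zero, zero_add, pow_zero, div_one, mul_one] at this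
    rw [h1]
    linarith
  · -- dyadic approximations
    have hstep : ∀ m : ℕ, |f ((⌊s * 2 ^ m⌋₊ : ℝ) / 2 ^ m) - f 0| ≤ 10 * K * (1 - (9 / 10) ^ (m + 1)) := by
      intro m
      induction m with
      | zero =>
        have : ⌊s * 2 ^ 0⌋₊ = 0 := by
          rw [pow_zero, mul_one, Nat.floor_eq_zero]; exact h1
        rw [this]
        simp
        nlinarith
      | succ m ih =>
        have hs0 : 0 ≤ s * 2 ^ m := mul_nonneg hs.1 (by positivity)
        have hs0' : 0 ≤ s * 2 ^ (m + 1) := mul_nonneg hs.1 (by positivity)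
        set N := ⌊s * 2 ^ m⌋₊ with hN
        set N' := ⌊s * 2 ^ (m + 1)⌋₊ with hN'
        have a1 : (N : ℝ) ≤ s * 2 ^ m := Nat.floor_le hs0
        have a2 : s * 2 ^ m < (N : ℝ) + 1 := Nat.lt_floor_add_one _
        have b1 : (N' : ℝ) ≤ s * 2 ^ (m + 1) := Nat.floor_le hs0'
        have b2 : s * 2 ^ (m + 1) < (N' : ℝ) + 1 := Nat.lt_floor_add_one _
        have hp : s * 2 ^ (m + 1) = 2 * (s * 2 ^ m) := by rw [pow_succ]; ring
        rw [hp] at b1 b2
        have c1 : 2 * N ≤ N' := by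
          have : (2 * N : ℝ) < (N' : ℝ) + 1 := by linarith
          have : ((2 * N : ℕ) : ℝ) < ((N' + 1 : ℕ) : ℝ) := by push_cast; exact this
          have := Nat.cast_lt.1 this
          omega
        have c2 : N' ≤ 2 * N + 1 := by
          have : (N' : ℝ) < 2 * (N : ℝ) + 2 := by linarith
          have : ((N' : ℕ) : ℝ) < ((2 * N + 2 : ℕ) : ℝ) := by push_cast; exact this
          have := Nat.cast_lt.1 this
          omega
        have hNlt : N < 2 ^ m := by
          have : (N : ℝ) < 2 ^ m := by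
            have : s * 2 ^ m < 1 * 2 ^ m := by gcongr
            linarith
          exact_mod_cast this
        have hq : (0:ℝ) < (9 / 10) ^ (m + 1) := by positivity
        have hdiff : |f ((N' : ℝ) / 2 ^ (m + 1)) - f ((N : ℝ) / 2 ^ m)| ≤ K * (9 / 10) ^ (m + 1) := by
          have e1 : (N : ℝ) / 2 ^ m = ((2 * N : ℕ) : ℝ) / 2 ^ (m + 1) := by
            push_cast; rw [pow_succ]; field_simp
          rcases Nat.lt_or_ge N' (2 * N + 1) with hlt | hge
          · have : N' = 2 * N := by omega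
            rw [this, e1, sub_self, abs_zero]
            positivity
          · have : N' = 2 * N + 1 := by omega
            rw [this, e1]
            have := h (m + 1) (2 * N) (by rw [pow_succ]; omega)
            push_cast at this ⊢
            exact this
        have : f ((N' : ℝ) / 2 ^ (m + 1)) - f 0 =
          (f ((N' : ℝ) / 2 ^ (m + 1)) - f ((N : ℝ) / 2 ^ m)) + (f ((N : ℝ) / 2 ^ m) - f 0) := by ring
        rw [this]
        refine (abs_add_le _ _).trans ?_
        have hpow : (9 / 10 : ℝ) ^ (m + 1 + 1) = 9 / 10 * (9 / 10) ^ (m + 1) := by rw [pow_succ]; ring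
        rw [hpow]
        linarith
    have hlim : Tendsto (fun m : ℕ => f ((⌊s * 2 ^ m⌋₊ : ℝ) / 2 ^ m)) atTop (𝓝 (f s)) := by
      have h2 : Tendsto (fun m : ℕ => (2 : ℝ) ^ m) atTop atTop :=
        tendsto_pow_atTop_atTop_of_one_lt (by norm_num)
      have h3 := (tendsto_nat_floor_mul_div_atTop hs.1).comp h2
      exact (hf.tendsto s).comp h3
    have hlim2 : Tendsto (fun m : ℕ => |f ((⌊s * 2 ^ m⌋₊ : ℝ) / 2 ^ m) - f 0|) atTop (𝓝 |f s - f 0|) :=
      (hlim.sub_const _).abs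
    refine le_of_tendsto' hlim2 (fun m => (hstep m).trans ?_)
    have hq : (0:ℝ) < (9 / 10) ^ (m + 1) := by positivity
    nlinarith

/-- from integer blocks to all times -/
theorem smallOsc_of_blocks {b : ℝ → ℝ} 
    (h : ∀ k : ℕ, ∀ᶠ n : ℕ in atTop, ∀ s ∈ Icc (0:ℝ) 1,
      |b ((n : ℝ) + s) - b n| ≤ 1 / ((k : ℝ) + 1) * Real.sqrt n) : SmallOsc b := by
  intro ε hε
  obtain ⟨k, hk⟩ := exists_nat_gt (6 / ε)
  obtain ⟨N, hN⟩ := eventually_atTop.1 (h k)
  have hk0 : (0:ℝ) < (k : ℝ) + 1 := by positivity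
  have hkε : 6 / ((k : ℝ) + 1) ≤ ε := by
    rw [div_le_iff₀ hk0]
    rw [div_lt_iff₀ hε] at hk
    nlinarith
  refine ⟨max N 1, fun t ht s hs => ?_⟩
  have ht1 : 1 ≤ t := (le_max_right _ _).trans ht
  have htN : (N : ℝ) ≤ t := (le_max_left _ _).trans ht
  have ht0 : 0 ≤ t := by linarith
  set n := ⌊t⌋₊ with hn
  have a1 : (n : ℝ) ≤ t := Nat.floor_le ht0
  have a2 : t < (n : ℝ) + 1 := Nat.lt_floor_add_one _
  have hNn : N ≤ n := Nat.le_floor htN
  obtain ⟨x, hx⟩ : ∃ x, x = t - n := ⟨_, rfl⟩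
  have hx0 : 0 ≤ x := by rw [hx]; linarith
  have hx1 : x ≤ 1 := by rw [hx]; linarith
  have htx : t = n + x := by rw [hx]; ring
  have hsn : Real.sqrt n ≤ Real.sqrt t := Real.sqrt_le_sqrt a1
  have hsn0 : 0 ≤ Real.sqrt n := Real.sqrt_nonneg _
  have hst0 : 0 ≤ Real.sqrt t := Real.sqrt_nonneg _
  have hsn1 : Real.sqrt ((n + 1 : ℕ) : ℝ) ≤ 2 * Real.sqrt t := by
    rw [Real.sqrt_le_left (by positivity), mul_pow, Real.sq_sqrt ht0]
    push_cast
    linarith
  have hinv : 0 < 1 / ((k : ℝ) + 1) := by positivity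
  have B1 := hN n hNn
  have B2 := hN (n + 1) (by omega)
  have c1 := B1 x ⟨hx0, hx1⟩
  rw [← htx] at c1
  have e0 : 1 / ((k : ℝ) + 1) * Real.sqrt n ≤ 1 / ((k : ℝ) + 1) * Real.sqrt t := by gcongr
  have efin : 6 / ((k : ℝ) + 1) * Real.sqrt t ≤ ε * Real.sqrt t := by gcongr
  have e6 : 6 / ((k : ℝ) + 1) * Real.sqrt t = 6 * (1 / ((k : ℝ) + 1) * Real.sqrt t) := by ring
  have hpos : 0 ≤ 1 / ((k : ℝ) + 1) * Real.sqrt t := by positivity
  rcases le_total (x + s) 1 with hxs | hxs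
  · have c2 := B1 (x + s) ⟨by linarith [hs.1], hxs⟩
    rw [← add_assoc, ← htx] at c2
    have : b (t + s) - b t = (b (t + s) - b n) - (b t - b n) := by ring
    rw [this]
    refine (abs_sub _ _).trans ?_
    linarith
  · have c2 := B2 (x + s - 1) ⟨by linarith, by linarith [hs.2]⟩
    have c3 := B1 1 ⟨zero_le_one, le_rfl⟩
    have h4 : ((n + 1 : ℕ) : ℝ) + (x + s - 1) = t + s := by push_cast; linarith
    rw [h4] at c2
    push_cast at c2
    have : b (t + s) - b t = (b (t + s) - b ((n : ℝ) + 1)) + (b ((n : ℝ) + 1) - b n) - (b t - b n) := by ring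
    rw [this]
    refine (abs_sub _ _).trans ?_
    have h5 := abs_add_le (b (t + s) - b ((n : ℝ) + 1)) (b ((n : ℝ) + 1) - b n)
    have h6 : 1 / ((k : ℝ) + 1) * Real.sqrt ((n : ℝ) + 1) ≤ 1 / ((k : ℝ) + 1) * (2 * Real.sqrt t) := by
      push_cast at hsn1
      gcongr
    linarith

end Helper96.Airy
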