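import Pool.Agent.helper96.Airy.Basic

open Set Filter Topology ComplexConjugate

namespace Helper96.Airy

/-- First order system equivalent to the stochastic Airy equation. -/
structure Sys (g n : ℝ → ℝ) (l : ℂ) (φ Ψ : ℝ → ℂ) : Prop where
  d1 : ∀ t : ℝ, HasDerivAt φ ((g t : ℂ) * φ t + Ψ t) t
  d2 : ∀ t : ℝ, HasDerivAt Ψ (((t : ℂ) + l + (n t : ℂ) - (g t : ℂ) ^ 2) * φ t - (g t : ℂ) * Ψ t) t

/-- `s` is a good square root of `t + l`, and the noise is small at `t`. -/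
structure Good (δ : ℝ) (g n : ℝ → ℝ) (l : ℂ) (s : ℝ → ℂ) (t : ℝ) : Prop where
  sq : s t ^ 2 = (t : ℂ) + l
  ds : HasDerivAt s (1 / (2 * s t)) t
  re : ‖s t‖ ≤ 2 * (s t).re
  hg : |g t| ≤ δ * ‖s t‖
  hn : |n t| ≤ δ * ‖s t‖ ^ 2
  h1 : 1 ≤ δ * ‖s t‖ ^ 3

lemma Good.pos {δ : ℝ} {g n : ℝ → ℝ} {l : ℂ} {s : ℝ → ℂ} {t : ℝ} (h : Good δ g n l s t) :
    0 < ‖s t‖ := by
  rcases (norm_nonneg (s t)).eq_or_lt with h0 | h0
  · have := h.h1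
    rw [← h0] at this
    norm_num at this
  · exact h0

lemma Good.ne {δ : ℝ} {g n : ℝ → ℝ} {l : ℂ} {s : ℝ → ℂ} {t : ℝ} (h : Good δ g n l s t) :
    s t ≠ 0 := norm_pos_iff.1 h.pos

lemma Good.one_le {δ : ℝ} {g n : ℝ → ℝ} {l : ℂ} {s : ℝ → ℂ} {t : ℝ} (h : Good δ g n l s t)
    (hδ : δ ≤ 1 / 1000) : 1 ≤ ‖s t‖ := by
  by_contra hlt
  push Not at hlt
  have h1 := h.h1
  have hp := h.pos
  have h3 : ‖s t‖ ^ 3 ≤ 1 := pow_le_one₀ hp.le hlt.le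
  have h4 : 0 < ‖s t‖ ^ 3 := by positivity
  nlinarith

section cone

variable {δ : ℝ} {g n : ℝ → ℝ} {l : ℂ} {s φ Ψ : ℝ → ℂ}

/-- the derivative of `a = Ψ - s φ` -/
lemma deriv_a (hS : Sys g n l φ Ψ) {t : ℝ} (hG : Good δ g n l s t) (hδ0 : 0 < δ) (hδ : δ ≤ 1 / 1000) :
    ∃ e : ℂ, ‖e‖ ≤ 2 * δ * ‖s t‖ * (‖Ψ t - s t * φ t‖ + ‖Ψ t + s t * φ t‖) ∧
      HasDerivAt (fun t => Ψ t - s t * φ t) (-(s t) * (Ψ t - s t * φ t) + e) t := by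
  have hne := hG.ne
  have hp := hG.pos
  set a := Ψ t - s t * φ t with ha
  set d := Ψ t + s t * φ t with hd
  refine ⟨((n t : ℂ) - (g t : ℂ) ^ 2 - 1 / (2 * s t)) * φ t - (g t : ℂ) * d, ?_, ?_⟩
  · have hφ : φ t = (d - a) / (2 * s t) := by
      rw [ha, hd]; field_simp; ring
    have h1 : ‖(n t : ℂ) - (g t : ℂ) ^ 2 - 1 / (2 * s t)‖ ≤ 2 * δ * ‖s t‖ ^ 2 := by
      calc ‖(n t : ℂ) - (g t : ℂ) ^ 2 - 1 / (2 * s t)‖
          ≤ ‖(n t : ℂ)‖ + ‖(g t : ℂ) ^ 2‖ + ‖1 / (2 * s t)‖ := by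
            refine (norm_sub_le _ _).trans ?_
            gcongr
            exact norm_sub_le _ _
        _ = |n t| + |g t| ^ 2 + 1 / (2 * ‖s t‖) := by
            simp [norm_pow]
        _ ≤ δ * ‖s t‖ ^ 2 + (δ * ‖s t‖) ^ 2 + δ * ‖s t‖ ^ 2 / 2 := by
            have h2 : 1 / (2 * ‖s t‖) ≤ δ * ‖s t‖ ^ 2 / 2 := by
              rw [div_le_div_iff₀ (by positivity) (by norm_num)]
              have := hG.h1
              nlinarith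
            have := hG.hn
            have := hG.hg
            gcongr
        _ ≤ 2 * δ * ‖s t‖ ^ 2 := by
            have : 0 < ‖s t‖ ^ 2 := by positivity
            have h3 : (δ * ‖s t‖) ^ 2 = δ * δ * ‖s t‖ ^ 2 := by ring
            rw [h3]
            have h4 : δ * δ * ‖s t‖ ^ 2 ≤ δ * (1 / 1000) * ‖s t‖ ^ 2 := by gcongr
            nlinarith
    calc ‖((n t : ℂ) - (g t : ℂ) ^ 2 - 1 / (2 * s t)) * φ t - (g t : ℂ) * d‖
        ≤ ‖(n t : ℂ) - (g t : ℂ) ^ 2 - 1 / (2 * s t)‖ * ‖φ t‖ + |g t| * ‖d‖ := by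
          refine (norm_sub_le _ _).trans ?_
          rw [norm_mul, norm_mul]; simp
      _ ≤ 2 * δ * ‖s t‖ ^ 2 * ((‖d‖ + ‖a‖) / (2 * ‖s t‖)) + δ * ‖s t‖ * ‖d‖ := by
          have h5 : ‖φ t‖ ≤ (‖d‖ + ‖a‖) / (2 * ‖s t‖) := by
            rw [hφ, norm_div, norm_mul]
            simp only [Complex.norm_ofNat]
            gcongr
            exact norm_sub_le _ _
          have := hG.hg
          gcongr
      _ = δ * ‖s t‖ * (‖a‖ + 2 * ‖d‖) := by field_simp; ring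
      _ ≤ 2 * δ * ‖s t‖ * (‖a‖ + ‖d‖) := by
          have := norm_nonneg a
          have := norm_nonneg d
          have : 0 < δ * ‖s t‖ := by positivity
          nlinarith
  · refine ((hS.d2 t).sub (hG.ds.mul (hS.d1 t))).congr_deriv ?_
    have h2 := hG.sq
    rw [show ((t : ℂ) + l + (n t : ℂ) - (g t : ℂ) ^ 2) = s t ^ 2 + (n t : ℂ) - (g t : ℂ) ^ 2 by
      rw [h2]]
    rw [ha, hd]
    ring

/-- the derivative of `d = Ψ + s φ` -/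
lemma deriv_d (hS : Sys g n l φ Ψ) {t : ℝ} (hG : Good δ g n l s t) (hδ0 : 0 < δ) (hδ : δ ≤ 1 / 1000) :
    ∃ e : ℂ, ‖e‖ ≤ 2 * δ * ‖s t‖ * (‖Ψ t - s t * φ t‖ + ‖Ψ t + s t * φ t‖) ∧
      HasDerivAt (fun t => Ψ t + s t * φ t) ((s t) * (Ψ t + s t * φ t) + e) t := by
  have hne := hG.ne
  have hp := hG.pos
  set a := Ψ t - s t * φ t with ha
  set d := Ψ t + s t * φ t with hd
  refine ⟨((n t : ℂ) - (g t : ℂ) ^ 2 + 1 / (2 * s t)) * φ t - (g t : ℂ) * a, ?_, ?_⟩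
  · have hφ : φ t = (d - a) / (2 * s t) := by
      rw [ha, hd]; field_simp; ring
    have h1 : ‖(n t : ℂ) - (g t : ℂ) ^ 2 + 1 / (2 * s t)‖ ≤ 2 * δ * ‖s t‖ ^ 2 := by
      calc ‖(n t : ℂ) - (g t : ℂ) ^ 2 + 1 / (2 * s t)‖
          ≤ ‖(n t : ℂ)‖ + ‖(g t : ℂ) ^ 2‖ + ‖1 / (2 * s t)‖ := by
            refine (norm_add_le _ _).trans ?_
            gcongr
            exact norm_sub_le _ _
        _ = |n t| + |g t| ^ 2 + 1 / (2 * ‖s t‖) := by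
            simp [norm_pow]
        _ ≤ δ * ‖s t‖ ^ 2 + (δ * ‖s t‖) ^ 2 + δ * ‖s t‖ ^ 2 / 2 := by
            have h2 : 1 / (2 * ‖s t‖) ≤ δ * ‖s t‖ ^ 2 / 2 := by
              rw [div_le_div_iff₀ (by positivity) (by norm_num)]
              have := hG.h1
              nlinarith
            have := hG.hn
            have := hG.hg
            gcongr
        _ ≤ 2 * δ * ‖s t‖ ^ 2 := by
            have : 0 < ‖s t‖ ^ 2 := by positivity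
            have h3 : (δ * ‖s t‖) ^ 2 = δ * δ * ‖s t‖ ^ 2 := by ring
            rw [h3]
            have h4 : δ * δ * ‖s t‖ ^ 2 ≤ δ * (1 / 1000) * ‖s t‖ ^ 2 := by gcongr
            nlinarith
    calc ‖((n t : ℂ) - (g t : ℂ) ^ 2 + 1 / (2 * s t)) * φ t - (g t : ℂ) * a‖
        ≤ ‖(n t : ℂ) - (g t : ℂ) ^ 2 + 1 / (2 * s t)‖ * ‖φ t‖ + |g t| * ‖a‖ := by
          refine (norm_sub_le _ _).trans ?_
          rw [norm_mul, norm_mul]; simp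
      _ ≤ 2 * δ * ‖s t‖ ^ 2 * ((‖d‖ + ‖a‖) / (2 * ‖s t‖)) + δ * ‖s t‖ * ‖a‖ := by
          have h5 : ‖φ t‖ ≤ (‖d‖ + ‖a‖) / (2 * ‖s t‖) := by
            rw [hφ, norm_div, norm_mul]
            simp only [Complex.norm_ofNat]
            gcongr
            exact norm_sub_le _ _
          have := hG.hg
          gcongr
      _ = δ * ‖s t‖ * (2 * ‖a‖ + ‖d‖) := by field_simp; ring
      _ ≤ 2 * δ * ‖s t‖ * (‖a‖ + ‖d‖) := by
          have := norm_nonneg a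
          have := norm_nonneg d
          have : 0 < δ * ‖s t‖ := by positivity
          nlinarith
  · refine ((hS.d2 t).add (hG.ds.mul (hS.d1 t))).congr_deriv ?_
    have h2 := hG.sq
    rw [show ((t : ℂ) + l + (n t : ℂ) - (g t : ℂ) ^ 2) = s t ^ 2 + (n t : ℂ) - (g t : ℂ) ^ 2 by
      rw [h2]]
    rw [ha, hd]
    ring

/-- derivative bounds of the squared modulus of `a` -/
lemma deriv_A (hS : Sys g n l φ Ψ) {t : ℝ} (hG : Good δ g n l s t) (hδ0 : 0 < δ) (hδ : δ ≤ 1 / 1000) :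
    ∃ A' : ℝ, HasDerivAt (fun t => ‖Ψ t - s t * φ t‖ ^ 2) A' t ∧
      A' ≤ -(2 * (s t).re) * ‖Ψ t - s t * φ t‖ ^ 2 + 4 * δ * ‖s t‖ * ‖Ψ t - s t * φ t‖ *
        (‖Ψ t - s t * φ t‖ + ‖Ψ t + s t * φ t‖) := by
  obtain ⟨e, he, hd⟩ := deriv_a hS hG hδ0 hδ
  refine ⟨_, hasDerivAt_nsq hd, ?_⟩
  set a := Ψ t - s t * φ t with ha
  set d := Ψ t + s t * φ t
  have h1 : (conj a * (-(s t) * a + e)).re = -(s t).re * ‖a‖ ^ 2 + (conj a * e).re := by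
    have : conj a * (-(s t) * a + e) = -(s t) * (a * conj a) + conj a * e := by ring
    rw [this, Complex.add_re, Complex.mul_conj, Complex.normSq_eq_norm_sq]
    simp only [Complex.mul_re, Complex.neg_re, Complex.ofReal_re, Complex.neg_im, Complex.ofReal_im,
      mul_zero, sub_zero]
  rw [h1]
  have h2 : (conj a * e).re ≤ ‖a‖ * ‖e‖ := by
    refine (Complex.re_le_norm _).trans ?_
    rw [norm_mul, Complex.norm_conj]
  have h3 : ‖a‖ * ‖e‖ ≤ ‖a‖ * (2 * δ * ‖s t‖ * (‖a‖ + ‖d‖)) := by gcongr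
  nlinarith

/-- derivative bounds of the squared modulus of `d` -/
lemma deriv_D (hS : Sys g n l φ Ψ) {t : ℝ} (hG : Good δ g n l s t) (hδ0 : 0 < δ) (hδ : δ ≤ 1 / 1000) :
    ∃ D' : ℝ, HasDerivAt (fun t => ‖Ψ t + s t * φ t‖ ^ 2) D' t ∧
      (2 * (s t).re) * ‖Ψ t + s t * φ t‖ ^ 2 - 4 * δ * ‖s t‖ * ‖Ψ t + s t * φ t‖ *
        (‖Ψ t - s t * φ t‖ + ‖Ψ t + s t * φ t‖) ≤ D' := by
  obtain ⟨e, he, hd⟩ := deriv_d hS hG hδ0 hδ
  refine ⟨_, hasDerivAt_nsq hd, ?_⟩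
  set a := Ψ t - s t * φ t with ha
  set d := Ψ t + s t * φ t
  have h1 : (conj d * ((s t) * d + e)).re = (s t).re * ‖d‖ ^ 2 + (conj d * e).re := by
    have : conj d * ((s t) * d + e) = (s t) * (d * conj d) + conj d * e := by ring
    rw [this, Complex.add_re, Complex.mul_conj, Complex.normSq_eq_norm_sq]
    simp only [Complex.mul_re, Complex.ofReal_re, Complex.ofReal_im,
      mul_zero, sub_zero]
  rw [h1]
  have h2 : -(‖d‖ * ‖e‖) ≤ (conj d * e).re := by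
    have := Complex.abs_re_le_norm (conj d * e)
    rw [norm_mul, Complex.norm_conj] at this
    exact (abs_le.1 this).1
  have h3 : ‖d‖ * ‖e‖ ≤ ‖d‖ * (2 * δ * ‖s t‖ * (‖a‖ + ‖d‖)) := by gcongr
  nlinarith

/-- differential inequality for `E = |d|² - k |a|²` -/
lemma deriv_E (hS : Sys g n l φ Ψ) {t : ℝ} (hG : Good δ g n l s t) (hδ0 : 0 < δ) (hδ : δ ≤ 1 / 1000)
    {κ : ℝ} (hκ1 : 16 * δ ≤ κ) (hκ2 : κ ≤ 2) :
    ∃ E' : ℝ, HasDerivAt (fun t => ‖Ψ t + s t * φ t‖ ^ 2 - κ ^ 2 * ‖Ψ t - s t * φ t‖ ^ 2) E' t ∧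
      ‖s t‖ / 4 * (‖Ψ t + s t * φ t‖ ^ 2 + κ ^ 2 * ‖Ψ t - s t * φ t‖ ^ 2) ≤ E' := by
  obtain ⟨A', hA, hA'⟩ := deriv_A hS hG hδ0 hδ
  obtain ⟨D', hD, hD'⟩ := deriv_D hS hG hδ0 hδ
  refine ⟨D' - κ ^ 2 * A', hD.sub (hA.const_mul _), ?_⟩
  have hκ0 : 0 < κ := by linarith
  have hp := hG.pos
  have hre := hG.re
  set x := ‖Ψ t - s t * φ t‖ with hx
  set y := ‖Ψ t + s t * φ t‖ with hy
  have hx0 : 0 ≤ x := norm_nonneg _
  have hy0 : 0 ≤ y := norm_nonneg _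
  set σ := ‖s t‖
  set ρ := (s t).re
  have h1 : κ ^ 2 * A' ≤ κ ^ 2 * (-(2 * ρ) * x ^ 2 + 4 * δ * σ * x * (x + y)) := by gcongr
  -- main algebra
  have h2 : σ * (y ^ 2 + κ ^ 2 * x ^ 2) ≤ 2 * ρ * (y ^ 2 + κ ^ 2 * x ^ 2) := by gcongr
  have h3 : 4 * δ * (y * (x + y) + κ ^ 2 * x * (x + y)) ≤ 3 / 4 * (y ^ 2 + κ ^ 2 * x ^ 2) := by
    -- x y ≤ (y² + κ² x²)/(2κ); 
    have h4 : 2 * κ * (x * y) ≤ y ^ 2 + κ ^ 2 * x ^ 2 := by nlinarith [sq_nonneg (y - κ * x)]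
    have h5 : 4 * δ * (x * y) ≤ 1 / 8 * (y ^ 2 + κ ^ 2 * x ^ 2) := by
      have : 0 ≤ x * y := by positivity
      nlinarith
    have h6 : κ ^ 2 * (4 * δ * (x * y)) ≤ 1 / 2 * (y ^ 2 + κ ^ 2 * x ^ 2) := by
      have h7 : κ ^ 2 * (4 * δ * (x * y)) = (2 * δ * κ) * (2 * κ * (x * y)) := by ring
      rw [h7]
      have h8 : 2 * δ * κ ≤ 1 / 250 := by nlinarith
      have h9 : 0 ≤ y ^ 2 + κ ^ 2 * x ^ 2 := by positivity
      have h10 : 0 ≤ 2 * κ * (x * y) := by positivity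
      calc (2 * δ * κ) * (2 * κ * (x * y)) ≤ 1 / 250 * (y ^ 2 + κ ^ 2 * x ^ 2) := by gcongr
        _ ≤ _ := by nlinarith
    have h11 : 4 * δ * (y ^ 2 + κ ^ 2 * x ^ 2) ≤ 1 / 250 * (y ^ 2 + κ ^ 2 * x ^ 2) := by
      have h9 : 0 ≤ y ^ 2 + κ ^ 2 * x ^ 2 := by positivity
      have : 4 * δ ≤ 1 / 250 := by linarith
      gcongr
    have h9 : 0 ≤ y ^ 2 + κ ^ 2 * x ^ 2 := by positivity
    nlinarith
  have h4 : σ * (4 * δ * (y * (x + y) + κ ^ 2 * x * (x + y))) ≤ σ * (3 / 4 * (y ^ 2 + κ ^ 2 * x ^ 2)) := by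
    gcongr
  nlinarith

end cone

end Helper96.Airy
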