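import Pool.Agent.helper96.Airy.Cone

open Set Filter Topology ComplexConjugate

namespace Helper96.Airy

variable {δ : ℝ} {g n : ℝ → ℝ} {l : ℂ} {s φ Ψ : ℝ → ℂ}

/-- growth of `E = |d|² - κ² |a|²` once positive -/
lemma E_growth (hS : Sys g n l φ Ψ) {t1 : ℝ} (hG : ∀ t, t1 ≤ t → Good δ g n l s t) (hδ0 : 0 < δ)
    (hδ : δ ≤ 1 / 1000) {κ : ℝ} (hκ1 : 16 * δ ≤ κ) (hκ2 : κ ≤ 2) {t2 t : ℝ} (h2 : t1 ≤ t2)
    (ht : t2 ≤ t) :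
    (‖Ψ t2 + s t2 * φ t2‖ ^ 2 - κ ^ 2 * ‖Ψ t2 - s t2 * φ t2‖ ^ 2) * Real.exp (1 / 4 * (t - t2)) ≤
      ‖Ψ t + s t * φ t‖ ^ 2 - κ ^ 2 * ‖Ψ t - s t * φ t‖ ^ 2 := by
  have hch : ∀ t : ℝ, ∃ E' : ℝ, t1 ≤ t → (HasDerivAt
      (fun t => ‖Ψ t + s t * φ t‖ ^ 2 - κ ^ 2 * ‖Ψ t - s t * φ t‖ ^ 2) E' t ∧
      ‖s t‖ / 4 * (‖Ψ t + s t * φ t‖ ^ 2 + κ ^ 2 * ‖Ψ t - s t * φ t‖ ^ 2) ≤ E') := by
    intro t
    by_cases h : t1 ≤ t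
    · obtain ⟨E', h1, h2⟩ := deriv_E hS (hG t h) hδ0 hδ hκ1 hκ2
      exact ⟨E', fun _ => ⟨h1, h2⟩⟩
    · exact ⟨0, fun h' => absurd h' h⟩
  choose E' hE' using hch
  refine growth (f := fun t => ‖Ψ t + s t * φ t‖ ^ 2 - κ ^ 2 * ‖Ψ t - s t * φ t‖ ^ 2) (f' := E')
    (fun t ht => (hE' t (h2.trans ht)).1) (fun t ht => ?_) ht
  refine le_trans ?_ (hE' t (h2.trans ht)).2
  have h1 := (hG t (h2.trans ht)).one_le hδ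
  have hA : 0 ≤ ‖Ψ t - s t * φ t‖ ^ 2 := by positivity
  have hD : 0 ≤ ‖Ψ t + s t * φ t‖ ^ 2 := by positivity
  have hk : 0 ≤ κ ^ 2 * ‖Ψ t - s t * φ t‖ ^ 2 := by positivity
  nlinarith

/-- second growth statement -/
lemma E2_growth (hS : Sys g n l φ Ψ) {t1 : ℝ} (hG : ∀ t, t1 ≤ t → Good δ g n l s t) (hδ0 : 0 < δ)
    (hδ : δ ≤ 1 / 1000) {t2 e : ℝ} (h2 : t1 ≤ t2) (he : ∀ t, t2 ≤ t → e ≤ ‖Ψ t + s t * φ t‖ ^ 2)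
    {t : ℝ} (ht : t2 ≤ t) :
    ‖Ψ t2 + s t2 * φ t2‖ ^ 2 - 2 ^ 2 * ‖Ψ t2 - s t2 * φ t2‖ ^ 2 + e / 4 * (t - t2) ≤
      ‖Ψ t + s t * φ t‖ ^ 2 - 2 ^ 2 * ‖Ψ t - s t * φ t‖ ^ 2 := by
  have hch : ∀ t : ℝ, ∃ E' : ℝ, t1 ≤ t → (HasDerivAt
      (fun t => ‖Ψ t + s t * φ t‖ ^ 2 - 2 ^ 2 * ‖Ψ t - s t * φ t‖ ^ 2) E' t ∧
      ‖s t‖ / 4 * (‖Ψ t + s t * φ t‖ ^ 2 + 2 ^ 2 * ‖Ψ t - s t * φ t‖ ^ 2) ≤ E') := by
    intro t
    by_cases h : t1 ≤ t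
    · obtain ⟨E', h1, h2⟩ := deriv_E hS (hG t h) hδ0 hδ (κ := 2) (by linarith) (by norm_num)
      exact ⟨E', fun _ => ⟨h1, h2⟩⟩
    · exact ⟨0, fun h' => absurd h' h⟩
  choose E' hE' using hch
  have hd : ∀ t, t2 ≤ t → HasDerivAt (fun t => (‖Ψ t + s t * φ t‖ ^ 2 -
      2 ^ 2 * ‖Ψ t - s t * φ t‖ ^ 2) - e / 4 * (t - t2)) (E' t - e / 4) t := by
    intro t ht
    refine ((hE' t (h2.trans ht)).1.sub (((hasDerivAt_id t).sub_const t2).const_mul (e / 4))).congr_deriv ?_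
    ring
  have := mono_of_deriv hd (fun t ht => ?_) le_rfl ht
  · simp only [sub_self, mul_zero, sub_zero] at this
    linarith
  · have h3 := (hE' t (h2.trans ht)).2
    have h1 := (hG t (h2.trans ht)).one_le hδ
    have hA : 0 ≤ ‖Ψ t - s t * φ t‖ ^ 2 := by positivity
    have hD : 0 ≤ ‖Ψ t + s t * φ t‖ ^ 2 := by positivity
    have he' := he t ht
    nlinarith

/-- A bounded solution lies in the stable cone. -/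
theorem cone_of_bounded (hS : Sys g n l φ Ψ) {t1 : ℝ} (hG : ∀ t, t1 ≤ t → Good δ g n l s t)
    (hδ0 : 0 < δ) (hδ : δ ≤ 1 / 1000) {M : ℝ} (hM : ∀ t, t1 ≤ t → ‖φ t‖ ≤ M) {t : ℝ}
    (ht : t1 ≤ t) : ‖Ψ t + s t * φ t‖ ≤ 16 * δ * ‖Ψ t - s t * φ t‖ := by
  by_contra hcon
  push Not at hcon
  set e := ‖Ψ t + s t * φ t‖ ^ 2 - (16 * δ) ^ 2 * ‖Ψ t - s t * φ t‖ ^ 2 with he
  have he0 : 0 < e := by
    have h1 : 0 ≤ 16 * δ * ‖Ψ t - s t * φ t‖ := by positivity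
    have h2 : (16 * δ * ‖Ψ t - s t * φ t‖) ^ 2 < ‖Ψ t + s t * φ t‖ ^ 2 := by gcongr
    rw [he]; rw [mul_pow] at h2; linarith
  have hE : ∀ u, t ≤ u → e ≤ ‖Ψ u + s u * φ u‖ ^ 2 := by
    intro u hu
    have h1 := E_growth hS hG hδ0 hδ (κ := 16 * δ) le_rfl (by linarith) ht hu
    have h2 : (1:ℝ) ≤ Real.exp (1 / 4 * (u - t)) := Real.one_le_exp (by nlinarith)
    have h3 : e ≤ e * Real.exp (1 / 4 * (u - t)) := by nlinarith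
    have h4 : 0 ≤ (16 * δ) ^ 2 * ‖Ψ u - s u * φ u‖ ^ 2 := by positivity
    rw [← he] at h1
    linarith
  -- there is a time where E₂ > 0
  set e2 := ‖Ψ t + s t * φ t‖ ^ 2 - 2 ^ 2 * ‖Ψ t - s t * φ t‖ ^ 2 with he2
  obtain ⟨t3, ht3, hpos⟩ : ∃ t3, t ≤ t3 ∧
      0 < ‖Ψ t3 + s t3 * φ t3‖ ^ 2 - 2 ^ 2 * ‖Ψ t3 - s t3 * φ t3‖ ^ 2 := by
    refine ⟨t + (|e2| + 1) * (4 / e), ?_, ?_⟩
    · have : 0 ≤ (|e2| + 1) * (4 / e) := by positivity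
      linarith
    · have hle : t ≤ t + (|e2| + 1) * (4 / e) := by
        have : 0 ≤ (|e2| + 1) * (4 / e) := by positivity
        linarith
      have h1 := E2_growth hS hG hδ0 hδ ht hE hle
      refine lt_of_lt_of_le ?_ h1
      rw [← he2]
      have h2 : e / 4 * (t + (|e2| + 1) * (4 / e) - t) = |e2| + 1 := by
        field_simp; ring
      rw [h2]
      have := neg_abs_le e2
      linarith
  set e3 := ‖Ψ t3 + s t3 * φ t3‖ ^ 2 - 2 ^ 2 * ‖Ψ t3 - s t3 * φ t3‖ ^ 2 with he3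
  have ht13 : t1 ≤ t3 := ht.trans ht3
  have hgr : ∀ u, t3 ≤ u → e3 * Real.exp (1 / 4 * (u - t3)) ≤
      ‖Ψ u + s u * φ u‖ ^ 2 - 2 ^ 2 * ‖Ψ u - s u * φ u‖ ^ 2 := by
    intro u hu
    exact E_growth hS hG hδ0 hδ (κ := 2) (by linarith) le_rfl ht13 hu
  refine no_poly_bound (c := 1 / 4) (by norm_num) hpos hgr (16 * M ^ 2 * (1 + ‖l‖)) ?_
  intro u hu
  have hGu := hG u (ht13.trans hu)
  have h1 : 0 ≤ ‖Ψ u + s u * φ u‖ ^ 2 - 2 ^ 2 * ‖Ψ u - s u * φ u‖ ^ 2 :=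
    le_trans (by positivity) (hgr u hu)
  have hx0 : 0 ≤ ‖Ψ u - s u * φ u‖ := norm_nonneg _
  have hy0 : 0 ≤ ‖Ψ u + s u * φ u‖ := norm_nonneg _
  have h2 : 2 * ‖Ψ u - s u * φ u‖ ≤ ‖Ψ u + s u * φ u‖ := by
    apply le_of_sq_le_sq _ hy0
    rw [mul_pow]; linarith
  have h3 : ‖Ψ u + s u * φ u‖ - ‖Ψ u - s u * φ u‖ ≤ 2 * ‖s u‖ * ‖φ u‖ := by
    have h4 := norm_sub_norm_le (Ψ u + s u * φ u) (Ψ u - s u * φ u)
    have h5 : (Ψ u + s u * φ u) - (Ψ u - s u * φ u) = 2 * s u * φ u := by ring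
    rw [h5, norm_mul, norm_mul] at h4
    simpa using h4
  have h4 : ‖Ψ u + s u * φ u‖ ≤ 4 * ‖s u‖ * M := by
    have h5 := hM u (ht13.trans hu |>.trans' le_rfl)
    have h6 : 2 * ‖s u‖ * ‖φ u‖ ≤ 2 * ‖s u‖ * M := by gcongr
    linarith
  have h5 : ‖s u‖ ^ 2 ≤ (1 + ‖l‖) * (1 + |u|) := by
    rw [← norm_pow, hGu.sq]
    have h6 : ‖(u : ℂ) + l‖ ≤ |u| + ‖l‖ := by
      refine (norm_add_le _ _).trans ?_
      simp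
    have := norm_nonneg l
    have := abs_nonneg u
    nlinarith
  calc ‖Ψ u + s u * φ u‖ ^ 2 - 2 ^ 2 * ‖Ψ u - s u * φ u‖ ^ 2 ≤ ‖Ψ u + s u * φ u‖ ^ 2 := by
        have : 0 ≤ (2:ℝ) ^ 2 * ‖Ψ u - s u * φ u‖ ^ 2 := by positivity
        linarith
    _ ≤ (4 * ‖s u‖ * M) ^ 2 := by gcongr
    _ = 16 * M ^ 2 * ‖s u‖ ^ 2 := by ring
    _ ≤ 16 * M ^ 2 * ((1 + ‖l‖) * (1 + |u|)) := by gcongr
    _ = _ := by ring

/-- decay of `A = |a|²` inside the cone, hence `φ` never vanishes. -/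
theorem phi_ne_zero (hS : Sys g n l φ Ψ) {t1 : ℝ} (hG : ∀ t, t1 ≤ t → Good δ g n l s t)
    (hδ0 : 0 < δ) (hδ : δ ≤ 1 / 1000)
    (hC : ∀ t, t1 ≤ t → ‖Ψ t + s t * φ t‖ ≤ 16 * δ * ‖Ψ t - s t * φ t‖)
    (hne : ∀ t, ∃ u, t ≤ u ∧ φ u ≠ 0) {t : ℝ} (ht : t1 ≤ t) : φ t ≠ 0 := by
  intro h0
  have hGt := hG t ht
  -- at time t : d = a = Ψ
  have ha0 : ‖Ψ t - s t * φ t‖ = 0 := by
    have h1 := hC t ht
    rw [h0, mul_zero, add_zero, sub_zero] at h1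
    rw [h0, mul_zero, sub_zero]
    have := norm_nonneg (Ψ t)
    nlinarith
  have hch : ∀ t : ℝ, ∃ A' : ℝ, t1 ≤ t → (HasDerivAt (fun t => ‖Ψ t - s t * φ t‖ ^ 2) A' t ∧
      A' ≤ -(2 * (s t).re) * ‖Ψ t - s t * φ t‖ ^ 2 + 4 * δ * ‖s t‖ * ‖Ψ t - s t * φ t‖ *
        (‖Ψ t - s t * φ t‖ + ‖Ψ t + s t * φ t‖)) := by
    intro t
    by_cases h : t1 ≤ t
    · obtain ⟨E', h1, h2⟩ := deriv_A hS (hG t h) hδ0 hδ
      exact ⟨E', fun _ => ⟨h1, h2⟩⟩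
    · exact ⟨0, fun h' => absurd h' h⟩
  choose A' hA' using hch
  have hmono : ∀ u, t ≤ u → ‖Ψ u - s u * φ u‖ ^ 2 ≤ 0 := by
    intro u hu
    have := mono_of_deriv (f := fun t => - ‖Ψ t - s t * φ t‖ ^ 2) (f' := fun t => - A' t) (a := t)
      (fun v hv => (hA' v (ht.trans hv)).1.neg) (fun v hv => ?_) le_rfl hu
    · simp only [ha0] at this
      linarith
    · have h1 := (hA' v (ht.trans hv)).2
      have hGv := hG v (ht.trans hv)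
      have hre := hGv.re
      have h2 := hC v (ht.trans hv)
      have hp := hGv.pos
      set x := ‖Ψ v - s v * φ v‖
      set y := ‖Ψ v + s v * φ v‖
      have hx0 : 0 ≤ x := norm_nonneg _
      have h3 : x * (x + y) ≤ 2 * x ^ 2 := by
        have : y ≤ x := by nlinarith
        nlinarith
      have h4 : 4 * δ * ‖s v‖ * (x * (x + y)) ≤ 4 * δ * ‖s v‖ * (2 * x ^ 2) := by gcongr
      have h5 : ‖s v‖ * x ^ 2 ≤ 2 * (s v).re * x ^ 2 := by gcongr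
      have h6 : 0 ≤ ‖s v‖ * x ^ 2 := by positivity
      have h7 : 4 * δ * ‖s v‖ * (2 * x ^ 2) ≤ ‖s v‖ * x ^ 2 := by nlinarith
      nlinarith
  obtain ⟨u, hu, hφu⟩ := hne t
  have h1 : ‖Ψ u - s u * φ u‖ = 0 := by
    have := hmono u hu
    have h2 : 0 ≤ ‖Ψ u - s u * φ u‖ ^ 2 := by positivity
    have h3 : ‖Ψ u - s u * φ u‖ ^ 2 = 0 := le_antisymm this h2
    exact pow_eq_zero_iff (two_ne_zero) |>.1 h3
  have h2 : ‖Ψ u + s u * φ u‖ = 0 := by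
    have h3 := hC u (ht.trans hu)
    rw [h1, mul_zero] at h3
    exact le_antisymm h3 (norm_nonneg _)
  rw [norm_eq_zero] at h1 h2
  have h3 : 2 * s u * φ u = 0 := by
    have : 2 * s u * φ u = (Ψ u + s u * φ u) - (Ψ u - s u * φ u) := by ring
    rw [this, h1, h2, sub_zero]
  have h4 := (hG u (ht.trans hu)).ne
  simp [h4, hφu] at h3

/-- the logarithmic slope of a bounded solution is close to `-s`. -/
theorem slope_bound {t : ℝ} (hδ0 : 0 < δ) (hδ : δ ≤ 1 / 1000) (_ : φ t ≠ 0)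
    (hC : ‖Ψ t + s t * φ t‖ ≤ 16 * δ * ‖Ψ t - s t * φ t‖) :
    ‖Ψ t + s t * φ t‖ ≤ 48 * δ * ‖s t‖ * ‖φ t‖ := by
  have h1 : ‖Ψ t - s t * φ t‖ ≤ ‖Ψ t + s t * φ t‖ + 2 * ‖s t‖ * ‖φ t‖ := by
    have h2 : Ψ t - s t * φ t = (Ψ t + s t * φ t) - 2 * s t * φ t := by ring
    rw [h2]
    refine (norm_sub_le _ _).trans ?_
    rw [norm_mul, norm_mul]; simp
  have hy0 : 0 ≤ ‖Ψ t + s t * φ t‖ := norm_nonneg _
  have h3 : 0 ≤ ‖s t‖ * ‖φ t‖ := by positivity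
  have h4 : ‖Ψ t + s t * φ t‖ ≤ 16 * δ * (‖Ψ t + s t * φ t‖ + 2 * ‖s t‖ * ‖φ t‖) :=
    hC.trans (by gcongr)
  have h5 : 16 * δ * ‖Ψ t + s t * φ t‖ ≤ 1 / 3 * ‖Ψ t + s t * φ t‖ := by
    have : 16 * δ ≤ 1 / 3 := by linarith
    gcongr
  nlinarith

end Helper96.Airy
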