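import Pool.Agent.helper96.Airy.LogMod

open Set Filter Topology ComplexConjugate

namespace Helper96.Airy

/-- Damping lemma (backward stability). -/
theorem damp {f P h : ℝ → ℂ} {t1 c H : ℝ} (hc : 0 < c)
    (hd : ∀ t, t1 ≤ t → HasDerivAt f (P t * f t + h t) t)
    (hP : ∀ t, t1 ≤ t → c ≤ (P t).re) (hh : ∀ t, t1 ≤ t → ‖h t‖ ≤ H)
    (hpoly : ∃ C : ℝ, ∀ t, t1 ≤ t → ‖f t‖ ^ 2 ≤ C * (1 + |t|)) : ‖f t1‖ ≤ H / c := by
  have hH : 0 ≤ H := (norm_nonneg _).trans (hh t1 le_rfl)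
  by_contra hcon
  push Not at hcon
  obtain ⟨C, hC⟩ := hpoly
  have hY : 0 < ‖f t1‖ ^ 2 - (H / c) ^ 2 := by
    have : (H / c) ^ 2 < ‖f t1‖ ^ 2 := by
      have : 0 ≤ H / c := by positivity
      gcongr
    linarith
  have hgr : ∀ t, t1 ≤ t → (‖f t1‖ ^ 2 - (H / c) ^ 2) * Real.exp (c * (t - t1)) ≤
      ‖f t‖ ^ 2 - (H / c) ^ 2 := by
    intro t ht
    refine growth (f := fun t => ‖f t‖ ^ 2 - (H / c) ^ 2)
      (fun t ht => (hasDerivAt_nsq (hd t ht)).sub_const _) (fun t ht => ?_) ht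
    have h1 : (conj (f t) * (P t * f t + h t)).re = (P t).re * ‖f t‖ ^ 2 + (conj (f t) * h t).re := by
      have : conj (f t) * (P t * f t + h t) = P t * (f t * conj (f t)) + conj (f t) * h t := by ring
      rw [this, Complex.add_re, Complex.mul_conj, Complex.normSq_eq_norm_sq]
      simp only [Complex.mul_re, Complex.ofReal_re, Complex.ofReal_im, mul_zero, sub_zero]
    rw [h1]
    have h2 : -(‖f t‖ * H) ≤ (conj (f t) * h t).re := by
      have h3 := Complex.abs_re_le_norm (conj (f t) * h t)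
      rw [norm_mul, Complex.norm_conj] at h3
      have h4 : ‖f t‖ * ‖h t‖ ≤ ‖f t‖ * H := by
        have := hh t ht
        gcongr
      have := (abs_le.1 h3).1
      linarith
    have h5 : 2 * (‖f t‖ * H) ≤ c * ‖f t‖ ^ 2 + H ^ 2 / c := by
      have h6 : 0 ≤ (c * ‖f t‖ - H) ^ 2 / c := by positivity
      have h7 : (c * ‖f t‖ - H) ^ 2 / c = c * ‖f t‖ ^ 2 - 2 * (‖f t‖ * H) + H ^ 2 / c := by
        field_simp
        ring
      linarith
    have h8 : c * (‖f t‖ ^ 2 - (H / c) ^ 2) = c * ‖f t‖ ^ 2 - H ^ 2 / c := by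
      field_simp
    rw [h8]
    have h9 : c * ‖f t‖ ^ 2 ≤ (P t).re * ‖f t‖ ^ 2 := by
      have := hP t ht
      gcongr
    nlinarith
  refine no_poly_bound hc hY hgr C ?_
  intro t ht
  have := hC t ht
  have : 0 ≤ (H / c) ^ 2 := by positivity
  linarith

section rel

variable {δ : ℝ} {g n : ℝ → ℝ} {l : ℂ} {s φ Ψ : ℝ → ℂ}

/-- Riccati equation for the slope. -/
lemma Tame.riccati {t1 : ℝ} (h : Tame δ g n l s φ Ψ t1) {t : ℝ} (ht : t1 ≤ t) :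
    HasDerivAt (fun t => Ψ t / φ t) ((t : ℂ) + l + (n t : ℂ) - (g t : ℂ) ^ 2
      - 2 * (g t : ℂ) * (Ψ t / φ t) - (Ψ t / φ t) ^ 2) t := by
  have h0 := h.ne t ht
  refine ((h.sys.d2 t).div (h.sys.d1 t) h0).congr_deriv ?_
  field_simp
  ring

/-- Square-root of time as a complex function. -/
noncomputable def sq0 : ℝ → ℂ := fun t => ((Real.sqrt t : ℝ) : ℂ)

lemma norm_sq0 (t : ℝ) : ‖sq0 t‖ = Real.sqrt t := by
  simp [sq0, abs_of_nonneg (Real.sqrt_nonneg t)]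

/-- geometric condition on `s` relative to `√t` -/
structure Near (s : ℝ → ℂ) (t1 : ℝ) : Prop where
  pos : 0 < t1
  re : ∀ t, t1 ≤ t → 9 / 10 * Real.sqrt t ≤ (s t).re
  norm : ∀ t, t1 ≤ t → ‖s t‖ ≤ 11 / 10 * Real.sqrt t

lemma Near.mono {s : ℝ → ℂ} {t1 t2 : ℝ} (h : Near s t1) (h12 : t1 ≤ t2) : Near s t2 :=
  ⟨h.pos.trans_le h12, fun t ht => h.re t (h12.trans ht), fun t ht => h.norm t (h12.trans ht)⟩

variable {u Ψu : ℝ → ℂ}

/-- the difference of slopes -/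
lemma rel_deriv {t1 : ℝ} (hu : Tame δ g n 0 sq0 u Ψu t1) (hv : Tame δ g n l s φ Ψ t1) {t : ℝ}
    (ht : t1 ≤ t) : HasDerivAt (fun t => Ψ t / φ t - Ψu t / u t)
      (-(2 * (g t : ℂ) + Ψu t / u t + Ψ t / φ t) * (Ψ t / φ t - Ψu t / u t) + l) t := by
  refine ((hv.riccati ht).sub (hu.riccati ht)).congr_deriv ?_
  ring

lemma rel_poly {t1 : ℝ} (hδ : δ ≤ 1 / 1000) (hu : Tame δ g n 0 sq0 u Ψu t1)
    (hv : Tame δ g n l s φ Ψ t1) (hN : Near s t1) {t : ℝ} (ht : t1 ≤ t) :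
    ‖Ψ t / φ t - Ψu t / u t‖ ≤ 3 * Real.sqrt t := by
  have h1 := hv.slope_div ht
  have h2 := hu.slope_div ht
  rw [norm_sq0] at h2
  have h3 := hN.norm t ht
  have h4 : Ψ t / φ t - Ψu t / u t = (Ψ t / φ t + s t) - (Ψu t / u t + sq0 t) - s t + sq0 t := by ring
  rw [h4]
  have hw : 0 ≤ Real.sqrt t := Real.sqrt_nonneg t
  have hs : 0 ≤ ‖s t‖ := norm_nonneg _
  calc ‖(Ψ t / φ t + s t) - (Ψu t / u t + sq0 t) - s t + sq0 t‖
      ≤ ‖Ψ t / φ t + s t‖ + ‖Ψu t / u t + sq0 t‖ + ‖s t‖ + ‖sq0 t‖ := by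
        refine (norm_add_le _ _).trans ?_
        gcongr
        refine (norm_sub_le _ _).trans ?_
        gcongr
        exact norm_sub_le _ _
    _ ≤ 48 * δ * ‖s t‖ + 48 * δ * Real.sqrt t + ‖s t‖ + Real.sqrt t := by
        rw [norm_sq0]; gcongr
    _ ≤ 48 * (1 / 1000) * ‖s t‖ + 48 * (1 / 1000) * Real.sqrt t + ‖s t‖ + Real.sqrt t := by
        gcongr
    _ ≤ 3 * Real.sqrt t := by nlinarith

lemma rel_re {t1 : ℝ} (hδ0 : 0 < δ) (hδ : δ ≤ 1 / 1000) (hu : Tame δ g n 0 sq0 u Ψu t1)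
    (hv : Tame δ g n l s φ Ψ t1) (hN : Near s t1) {t : ℝ} (ht : t1 ≤ t) :
    3 / 2 * Real.sqrt t ≤ (-(2 * (g t : ℂ) + Ψu t / u t + Ψ t / φ t)).re := by
  have h1 := hv.slope_div ht
  have h2 := hu.slope_div ht
  rw [norm_sq0] at h2
  have h3 := hN.norm t ht
  have h4 := hN.re t ht
  have h5 := (hu.good t ht).hg
  rw [norm_sq0] at h5
  have h6 := (abs_le.1 ((Complex.abs_re_le_norm _).trans h1)).2
  have h7 := (abs_le.1 ((Complex.abs_re_le_norm _).trans h2)).2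
  have h8 := (abs_le.1 h5).2
  rw [Complex.add_re] at h6 h7
  have h9 : (sq0 t).re = Real.sqrt t := by simp [sq0]
  rw [h9] at h7
  have h10 : (-(2 * (g t : ℂ) + Ψu t / u t + Ψ t / φ t)).re =
      -(2 * g t + (Ψu t / u t).re + (Ψ t / φ t).re) := by
    rw [Complex.neg_re, Complex.add_re, Complex.add_re]
    have : (2 * (g t : ℂ)).re = 2 * g t := by
      rw [show (2 : ℂ) * (g t : ℂ) = ((2 * g t : ℝ) : ℂ) by push_cast; ring, Complex.ofReal_re]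
    rw [this]
  rw [h10]
  have hw : 0 ≤ Real.sqrt t := Real.sqrt_nonneg t
  have hs : 0 ≤ ‖s t‖ := norm_nonneg _
  have h11 : 48 * δ * ‖s t‖ ≤ 48 * (1 / 1000) * (11 / 10 * Real.sqrt t) := by gcongr
  have h12 : 48 * δ * Real.sqrt t ≤ 48 * (1 / 1000) * Real.sqrt t := by gcongr
  have h13 : δ * Real.sqrt t ≤ (1 / 1000) * Real.sqrt t := by gcongr
  linarith

/-- Lemma D : first order bound on the relative slope. -/
theorem rel_bound {t1 : ℝ} (hδ0 : 0 < δ) (hδ : δ ≤ 1 / 1000) (hu : Tame δ g n 0 sq0 u Ψu t1)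
    (hv : Tame δ g n l s φ Ψ t1) (hN : Near s t1) {t : ℝ} (ht : t1 ≤ t) :
    ‖Ψ t / φ t - Ψu t / u t‖ ≤ 2 / 3 * ‖l‖ / Real.sqrt t := by
  have ht0 : 0 < t := hN.pos.trans_le ht
  have hw : 0 < Real.sqrt t := Real.sqrt_pos.2 ht0
  have h1 := damp (f := fun t => Ψ t / φ t - Ψu t / u t)
    (P := fun t => -(2 * (g t : ℂ) + Ψu t / u t + Ψ t / φ t)) (h := fun _ => l) (t1 := t)
    (c := 3 / 2 * Real.sqrt t) (H := ‖l‖) (by positivity)
    (fun t' ht' => rel_deriv hu hv (ht.trans ht'))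
    (fun t' ht' => le_trans (by gcongr) (rel_re hδ0 hδ hu hv hN (ht.trans ht')))
    (fun t' _ => le_rfl)
    ⟨9, fun t' ht' => by
      have h2 := rel_poly hδ hu hv hN (ht.trans ht')
      have ht'0 : 0 < t' := ht0.trans_le ht'
      calc ‖Ψ t' / φ t' - Ψu t' / u t'‖ ^ 2 ≤ (3 * Real.sqrt t') ^ 2 := by gcongr
        _ = 9 * t' := by rw [mul_pow, Real.sq_sqrt ht'0.le]; norm_num
        _ ≤ 9 * (1 + |t'|) := by
          rw [abs_of_pos ht'0]; linarith⟩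
  refine h1.trans (le_of_eq ?_)
  field_simp

end rel

end Helper96.Airy
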