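import Pool.Agent.helper96.Airy.Root

open Set Filter Topology ComplexConjugate

namespace Helper96.Airy

structure PathData (g n : ℝ → ℝ) : Prop where
  small : ∀ ε : ℝ, 0 < ε → ∃ T : ℝ, ∀ t, T ≤ t → |g t| ≤ ε * Real.sqrt t ∧ |n t| ≤ ε * Real.sqrt t
  bdd : ∀ a b : ℝ, ∃ M : ℝ, ∀ t ∈ Icc a b, |g t| ≤ M ∧ |n t| ≤ M

structure SolFam (g n : ℝ → ℝ) (Λ : Set ℂ) (F Ψ : ℂ → ℝ → ℂ) : Prop where
  sys : ∀ l ∈ Λ, Sys g n l (F l) (Ψ l)
  bdd : ∀ l ∈ Λ, ∃ M : ℝ, ∀ t, 0 ≤ t → ‖F l t‖ ≤ M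
  ne : ∀ l ∈ Λ, ∀ t, ∃ u, t ≤ u ∧ F l u ≠ 0
  lim : ∀ l ∈ Λ, Tendsto (lq l (F 0) (F l)) atTop (𝓝 0)
  mem0 : (0 : ℂ) ∈ Λ
  mem1 : (1 : ℂ) ∈ Λ
  memI : Complex.I ∈ Λ

structure Base (δ : ℝ) (g n : ℝ → ℝ) (T : ℝ) : Prop where
  T100 : 100 ≤ T
  hg : ∀ t, T ≤ t → |g t| ≤ δ / 2 * Real.sqrt t
  hn : ∀ t, T ≤ t → |n t| ≤ δ / 2 * t
  hn' : ∀ t, T ≤ t → |n t| ≤ δ / 2 * Real.sqrt t
  h1 : ∀ t, T ≤ t → 1 ≤ δ / 2 * (t * Real.sqrt t)
  h2 : 1 ≤ δ * T

variable {δ : ℝ} {g n : ℝ → ℝ} {Λ : Set ℂ} {F Ψ : ℂ → ℝ → ℂ}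

lemma exists_base (hP : PathData g n) (hδ : 0 < δ) : ∃ T, Base δ g n T := by
  obtain ⟨T0, hT0⟩ := hP.small (δ / 2) (by positivity)
  refine ⟨max T0 (max 100 (2 / δ)), ⟨?_, ?_, ?_, ?_, ?_, ?_⟩⟩
  · exact (le_max_left _ _).trans (le_max_right _ _)
  · intro t ht
    exact (hT0 t ((le_max_left _ _).trans ht)).1
  · intro t ht
    refine (hT0 t ((le_max_left _ _).trans ht)).2.trans ?_
    have : 100 ≤ t := ((le_max_left _ _).trans (le_max_right _ _)).trans ht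
    have h3 : Real.sqrt t ≤ t := by
      rw [Real.sqrt_le_left (by linarith)]
      nlinarith
    gcongr
  · intro t ht
    exact (hT0 t ((le_max_left _ _).trans ht)).2
  · intro t ht
    have h3 : 100 ≤ t := ((le_max_left _ _).trans (le_max_right _ _)).trans ht
    have h4 : 2 / δ ≤ t := ((le_max_right _ _).trans (le_max_right _ _)).trans ht
    rw [div_le_iff₀ hδ] at h4
    have h5 : 1 ≤ Real.sqrt t := by rw [Real.one_le_sqrt]; linarith
    have h6 : 1 * 1 ≤ (t * δ / 2) * Real.sqrt t := by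
      gcongr; linarith
    linarith
  · have h4 : 2 / δ ≤ max T0 (max 100 (2 / δ)) := (le_max_right _ _).trans (le_max_right _ _)
    rw [div_le_iff₀ hδ] at h4
    linarith

lemma SolFam.bdd_from (hF : SolFam g n Λ F Ψ) {l : ℂ} (hl : l ∈ Λ) (τ : ℝ) :
    ∃ M : ℝ, ∀ t, τ ≤ t → ‖F l t‖ ≤ M := by
  obtain ⟨M, hM⟩ := hF.bdd l hl
  have hc : Continuous (F l) := continuous_iff_continuousAt.2
    fun t => ((hF.sys l hl).d1 t).continuousAt
  obtain ⟨M', hM'⟩ := (isCompact_Icc (a := τ) (b := 0)).exists_bound_of_continuousOn hc.continuousOn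
  refine ⟨max M M', fun t ht => ?_⟩
  rcases le_total 0 t with h | h
  · exact (hM t h).trans (le_max_left _ _)
  · exact (hM' t ⟨ht, h⟩).trans (le_max_right _ _)

lemma tame_far (hF : SolFam g n Λ F Ψ) {T : ℝ} (hB : Base δ g n T) (hδ0 : 0 < δ)
    (hδ : δ ≤ 1 / 1000) {l : ℂ} (hl : l ∈ Λ) {t1 : ℝ} (h1 : T ≤ t1) (h2 : 100 * ‖l‖ ≤ t1) :
    Tame δ g n l (fun t => csq ((t : ℂ) + l)) (F l) (Ψ l) t1 := by
  obtain ⟨M, hM⟩ := hF.bdd_from hl t1
  refine Tame.of_bounded (hF.sys l hl) (fun t ht => ?_) hδ0 hδ hM (hF.ne l hl)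
  have hT := hB.T100
  exact good_far hδ0 (by linarith) (h2.trans ht) (hB.hg t (h1.trans ht)) (hB.hn t (h1.trans ht))
    (hB.h1 t (h1.trans ht))

lemma tame_zero (hF : SolFam g n Λ F Ψ) {T : ℝ} (hB : Base δ g n T) (hδ0 : 0 < δ)
    (hδ : δ ≤ 1 / 1000) : Tame δ g n 0 sq0 (F 0) (Ψ 0) T := by
  obtain ⟨M, hM⟩ := hF.bdd_from hF.mem0 T
  refine Tame.of_bounded (hF.sys 0 hF.mem0) (fun t ht => ?_) hδ0 hδ hM (hF.ne 0 hF.mem0)
  have hT := hB.T100
  have ht0 : 0 < t := by linarith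
  have hw : 0 < Real.sqrt t := Real.sqrt_pos.2 ht0
  refine good_zero ht0 ((hB.hg t ht).trans ?_) ((hB.hn t ht).trans ?_) ((hB.h1 t ht).trans ?_)
  · gcongr; linarith
  · gcongr; linarith
  · gcongr; linarith

/-- estimate of `log |Q|` in the family. -/
lemma fam_lq (hF : SolFam g n Λ F Ψ) {T : ℝ} (hB : Base δ g n T) (hδ0 : 0 < δ)
    (hδ : δ ≤ 1 / 1000) : ∃ C : ℝ, 0 ≤ C ∧ ∀ l ∈ Λ, 1 ≤ ‖l‖ → ∀ t, T ≤ t → 100 * ‖l‖ ≤ t →
      |lq l (F 0) (F l) t| ≤ 2 * ‖l‖ ^ 2 / Real.sqrt t + ‖l‖ * (C + 160 * δ * Real.sqrt t) := by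
  have hT := hB.T100
  refine ⟨|lq 1 (F 0) (F 1) T| + |lq Complex.I (F 0) (F Complex.I) T|, by positivity, ?_⟩
  intro l hl hl1 t ht hlt
  have n1 : 100 * ‖(1 : ℂ)‖ ≤ T := by simpa using hT
  have n2 : 100 * ‖Complex.I‖ ≤ T := by simpa using hT
  exact lq_bound hδ0 hδ (tame_zero hF hB hδ0 hδ)
    (tame_far hF hB hδ0 hδ hF.mem1 le_rfl n1) (near_far (by linarith) n1)
    (tame_far hF hB hδ0 hδ hF.memI le_rfl n2) (near_far (by linarith) n2) hB.h2 ht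
    (tame_far hF hB hδ0 hδ hl ht hlt) (near_far (by linarith) hlt) hl1
    (hF.lim l hl) (hF.lim 1 hF.mem1) (hF.lim Complex.I hF.memI) le_rfl

lemma sq0_cube_re {t : ℝ} (ht : 0 ≤ t) : (sq0 t ^ 3).re = t * Real.sqrt t := by
  rw [sq0, ← Complex.ofReal_pow, Complex.ofReal_re, pow_succ, Real.sq_sqrt ht]

/-- two-sided control of the base solution `F 0`. -/
lemma base_log (hF : SolFam g n Λ F Ψ) {T : ℝ} (hB : Base δ g n T) (hδ0 : 0 < δ)
    (hδ : δ ≤ 1 / 1000) {t : ℝ} (ht : T ≤ t) :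
    Real.log ‖F 0 t‖ ≤ Real.log ‖F 0 T‖ ∧
    Real.log ‖F 0 T‖ - 2 / 3 * (1 + 98 * δ) * (t * Real.sqrt t) ≤ Real.log ‖F 0 t‖ := by
  have hT := hB.T100
  have h := (tame_zero hF hB hδ0 hδ).log_bounds hδ0 le_rfl ht
  rw [sq0_cube_re (by linarith), sq0_cube_re (by linarith)] at h
  have ht0 : 0 ≤ t := by linarith
  have h1 : T * Real.sqrt T ≤ t * Real.sqrt t := by
    gcongr
  have h2 : 0 ≤ T * Real.sqrt T := by positivity
  have h3 : 98 * δ * (2 / 3 * (t * Real.sqrt t) - 2 / 3 * (T * Real.sqrt T)) ≤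
      98 / 1000 * (2 / 3 * (t * Real.sqrt t) - 2 / 3 * (T * Real.sqrt T)) := by
    have : 98 * δ ≤ 98 / 1000 := by linarith
    gcongr
    linarith
  have h4 : 0 ≤ 98 * δ * (2 / 3 * (T * Real.sqrt T)) := by positivity
  constructor
  · linarith [h.1]
  · linarith [h.2]

/-- the solution on the imaginary axis is tame on `[τ, ∞)` for large `r`. -/
lemma tame_im (hP : PathData g n) (hF : SolFam g n Λ F Ψ) {T : ℝ} (hB : Base δ g n T) (hδ0 : 0 < δ)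
    (hδ : δ ≤ 1 / 1000) (τ : ℝ) : ∃ R : ℝ, ∀ r : ℝ, R ≤ r → (r : ℂ) * Complex.I ∈ Λ →
      Tame δ g n ((r : ℂ) * Complex.I) (fun t => csq ((t : ℂ) + (r : ℂ) * Complex.I))
        (F ((r : ℂ) * Complex.I)) (Ψ ((r : ℂ) * Complex.I)) τ := by
  obtain ⟨M, hM⟩ := hP.bdd τ T
  refine ⟨max (max 1 (1 / δ)) (max (2 * |τ|) (max ((M / δ) ^ 2) (M / δ))), ?_⟩
  intro r hr hmem
  have r1 : 1 ≤ r := ((le_max_left _ _).trans (le_max_left _ _)).trans hr
  have r2 : 1 / δ ≤ r := ((le_max_right _ _).trans (le_max_left _ _)).trans hr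
  have r3 : 2 * |τ| ≤ r := ((le_max_left _ _).trans (le_max_right _ _)).trans hr
  have r4 : (M / δ) ^ 2 ≤ r :=
    (((le_max_left _ _).trans (le_max_right _ _)).trans (le_max_right _ _)).trans hr
  have r5 : M / δ ≤ r :=
    (((le_max_right _ _).trans (le_max_right _ _)).trans (le_max_right _ _)).trans hr
  obtain ⟨M', hM'⟩ := hF.bdd_from hmem τ
  refine Tame.of_bounded (hF.sys _ hmem) (fun t ht => ?_) hδ0 hδ hM' (hF.ne _ hmem)
  have hT := hB.T100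
  refine good_im r1 ?_ ?_ ?_ ?_
  · rw [div_le_iff₀ hδ0] at r2; linarith
  · have := neg_abs_le τ
    linarith
  · rcases le_total t T with h | h
    · left
      refine (hM t ⟨ht, h⟩).1.trans ?_
      have : M / δ ≤ Real.sqrt r := Real.le_sqrt_of_sq_le r4
      rw [div_le_iff₀ hδ0] at this
      linarith
    · right
      refine ⟨by linarith, (hB.hg t h).trans ?_⟩
      gcongr; linarith
  · rcases le_total t T with h | h
    · left
      refine (hM t ⟨ht, h⟩).2.trans ?_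
      rw [div_le_iff₀ hδ0] at r5
      linarith
    · right
      refine (hB.hn t h).trans ?_
      have : t ≤ |t| := le_abs_self t
      have h4 : 0 ≤ t := by linarith
      calc δ / 2 * t ≤ δ * t := by gcongr; linarith
        _ ≤ δ * |t| := by gcongr

/-- Lower bound along the imaginary axis. -/
theorem lower_bound (hP : PathData g n) (hF : SolFam g n Λ F Ψ) (τ : ℝ) :
    ∃ R : ℝ, ∀ r : ℝ, R ≤ r → (r : ℂ) * Complex.I ∈ Λ →
      Real.exp (1 / 20 * (r * Real.sqrt r)) ≤ ‖F ((r : ℂ) * Complex.I) τ‖ := by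
  obtain ⟨δ, hδdef⟩ : ∃ δ : ℝ, δ = 1 / 10 ^ 10 := ⟨_, rfl⟩
  have hδ0 : 0 < δ := by rw [hδdef]; positivity
  have hδ : δ ≤ 1 / 1000 := by rw [hδdef]; norm_num
  obtain ⟨T0, hB⟩ := exists_base hP hδ0
  obtain ⟨R0, hR0⟩ := tame_im hP hF hB hδ0 hδ τ
  obtain ⟨C, hC0, hC⟩ := fam_lq hF hB hδ0 hδ
  have hT100 := hB.T100
  set L := |Real.log ‖F 0 T0‖| with hL
  refine ⟨max R0 (max (max 1 T0) (max (4 * |τ|) ((20 * (C + L)) ^ 2))), ?_⟩
  intro r hr hmem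
  have r0 : R0 ≤ r := (le_max_left _ _).trans hr
  have r1 : 1 ≤ r := (((le_max_left _ _).trans (le_max_left _ _)).trans (le_max_right _ _)).trans hr
  have r2 : T0 ≤ r := (((le_max_right _ _).trans (le_max_left _ _)).trans (le_max_right _ _)).trans hr
  have r3 : 4 * |τ| ≤ r :=
    (((le_max_left _ _).trans (le_max_right _ _)).trans (le_max_right _ _)).trans hr
  have r4 : (20 * (C + L)) ^ 2 ≤ r :=
    (((le_max_right _ _).trans (le_max_right _ _)).trans (le_max_right _ _)).trans hr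
  have hr0 : 0 < r := by linarith
  have hL0 : 0 ≤ L := abs_nonneg _
  set w := Real.sqrt r with hw
  have hw0 : 0 < w := Real.sqrt_pos.2 hr0
  have hww : w * w = r := Real.mul_self_sqrt hr0.le
  have hw1 : 1 ≤ w := by rw [hw, Real.one_le_sqrt]; exact r1
  have hwC : 20 * (C + L) ≤ w := Real.le_sqrt_of_sq_le r4
  set T := 10 ^ 4 * r with hTdef
  have hTr : r ≤ T := by rw [hTdef]; linarith
  have hsT : Real.sqrt T = 100 * w := by
    rw [hTdef, Real.sqrt_mul (by norm_num)]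
    congr 1
    rw [show (10:ℝ) ^ 4 = 100 ^ 2 by norm_num, Real.sqrt_sq (by norm_num)]
  have hτT : τ ≤ T := by
    have := le_abs_self τ
    have := abs_nonneg τ
    linarith
  have ht := hR0 r r0 hmem
  have hnorm : ‖(r : ℂ) * Complex.I‖ = r := by
    rw [norm_mul, Complex.norm_I, mul_one, Complex.norm_real, Real.norm_eq_abs, abs_of_pos hr0]
  have q1 := hC _ hmem (by rw [hnorm]; exact r1) T (r2.trans hTr) (by rw [hnorm, hTdef]; linarith)
  rw [hnorm, hsT] at q1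
  have q2 := (abs_le.1 q1).1
  have hlq : lq ((r : ℂ) * Complex.I) (F 0) (F ((r : ℂ) * Complex.I)) T =
      Real.log ‖F ((r : ℂ) * Complex.I) T‖ - Real.log ‖F 0 T‖ := by
    rw [lq]; simp
  rw [hlq] at q2
  have q3 := (base_log hF hB hδ0 hδ (r2.trans hTr)).2
  rw [hsT] at q3
  have q4 := (ht.log_bounds hδ0 le_rfl hτT).1
  have q5 := cube_far hr0 hTr
  rw [hsT] at q5
  have q6 := cube_near hr0 r3
  rw [← hw] at q6
  have hLb := neg_abs_le (Real.log ‖F 0 T0‖)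
  rw [← hL] at hLb
  set ST := (csq ((T : ℂ) + (r : ℂ) * Complex.I) ^ 3).re with hST
  set Sτ := (csq ((τ : ℂ) + (r : ℂ) * Complex.I) ^ 3).re with hSτ
  set A := Real.log ‖F ((r : ℂ) * Complex.I) T‖ with hA
  set A' := Real.log ‖F ((r : ℂ) * Complex.I) τ‖ with hA'
  -- everything in terms of X = r w
  set X := r * w with hX
  have hX0 : 0 < X := by positivity
  have e1 : 2 * r ^ 2 / (100 * w) = X / 50 := by
    rw [hX]
    have : r ^ 2 = r * (w * w) := by rw [hww]; ring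
    rw [this]; field_simp; norm_num
  have e2 : T * (100 * w) = 10 ^ 6 * X := by rw [hTdef, hX]; ring
  have e3 : r ^ 2 / (2 * (100 * w)) = X / 200 := by
    rw [hX]
    have : r ^ 2 = r * (w * w) := by rw [hww]; ring
    rw [this]; field_simp; norm_num
  rw [e1] at q2
  rw [e2] at q3 q5
  rw [e3] at q5
  have e4 : r * (C + 160 * δ * (100 * w)) = r * C + 16000 * δ * X := by rw [hX]; ring
  rw [e4] at q2
  have e5 : r * C + L ≤ X / 20 := by
    have h1 : r * (20 * (C + L)) ≤ r * w := by gcongr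
    have h2 : L ≤ r * L := by nlinarith
    rw [hX]; linarith
  have e6 : δ * X = X / 10 ^ 10 := by rw [hδdef]; ring
  have e7 : 16000 * δ * X = 16000 * (X / 10 ^ 10) := by rw [← e6]; ring
  have e8 : 2 / 3 * (1 + 98 * δ) * (10 ^ 6 * X) = 2 / 3 * (10 ^ 6 * X) + 2 / 3 * 98 * 10 ^ 6 * (X / 10 ^ 10) := by
    rw [← e6]; ring
  rw [e7] at q2
  rw [e8] at q3
  -- (1 - 98 δ)(ST - Sτ) lower bound
  have q7 : (1 - 98 * δ) * (2 / 3 * (10 ^ 6 * X - X / 200 + X / 4)) ≤ (1 - 98 * δ) * (2 / 3 * ST - 2 / 3 * Sτ) := by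
    have : 0 ≤ 1 - 98 * δ := by linarith
    apply mul_le_mul_of_nonneg_left _ this
    linarith
  have q8 : (1 - 98 * δ) * (2 / 3 * (10 ^ 6 * X - X / 200 + X / 4)) =
      2 / 3 * (10 ^ 6 * X - X / 200 + X / 4) - 98 * (2 / 3) * (10 ^ 6 - 1 / 200 + 1 / 4) * (X / 10 ^ 10) := by
    rw [← e6]; ring
  rw [q8] at q7
  have q9 : X / 20 ≤ A' := by
    have q4' : A + 2 / 3 * ST ≤ A' + 2 / 3 * Sτ + 98 * δ * (2 / 3 * ST - 2 / 3 * Sτ) := q4
    have e9 : A + (1 - 98 * δ) * (2 / 3 * ST - 2 / 3 * Sτ) ≤ A' := by linarith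
    linarith
  have hpos : 0 < ‖F ((r : ℂ) * Complex.I) τ‖ := norm_pos_iff.2 (ht.ne τ le_rfl)
  rw [← Real.le_log_iff_exp_le hpos]
  linarith

end Helper96.Airy
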