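import Pool.Agent.helper96.Airy.Cone2

open Set Filter Topology ComplexConjugate

namespace Helper96.Airy

variable {δ : ℝ} {g n : ℝ → ℝ} {l : ℂ} {s φ Ψ : ℝ → ℂ}

/-- A bounded nonzero solution on a good half line, together with its slope bound. -/
structure Tame (δ : ℝ) (g n : ℝ → ℝ) (l : ℂ) (s φ Ψ : ℝ → ℂ) (t1 : ℝ) : Prop where
  sys : Sys g n l φ Ψ
  good : ∀ t, t1 ≤ t → Good δ g n l s t
  ne : ∀ t, t1 ≤ t → φ t ≠ 0
  slope : ∀ t, t1 ≤ t → ‖Ψ t + s t * φ t‖ ≤ 48 * δ * ‖s t‖ * ‖φ t‖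

theorem Tame.of_bounded (hS : Sys g n l φ Ψ) {t1 : ℝ} (hG : ∀ t, t1 ≤ t → Good δ g n l s t)
    (hδ0 : 0 < δ) (hδ : δ ≤ 1 / 1000) {M : ℝ} (hM : ∀ t, t1 ≤ t → ‖φ t‖ ≤ M)
    (hne : ∀ t, ∃ u, t ≤ u ∧ φ u ≠ 0) : Tame δ g n l s φ Ψ t1 := by
  have hC : ∀ t, t1 ≤ t → ‖Ψ t + s t * φ t‖ ≤ 16 * δ * ‖Ψ t - s t * φ t‖ :=
    fun t ht => cone_of_bounded hS hG hδ0 hδ hM ht
  have hn : ∀ t, t1 ≤ t → φ t ≠ 0 := fun t ht => phi_ne_zero hS hG hδ0 hδ hC hne ht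
  exact ⟨hS, hG, hn, fun t ht => slope_bound hδ0 hδ (hn t ht) (hC t ht)⟩

lemma Tame.mono {t1 t2 : ℝ} (h : Tame δ g n l s φ Ψ t1) (h12 : t1 ≤ t2) :
    Tame δ g n l s φ Ψ t2 :=
  ⟨h.sys, fun t ht => h.good t (h12.trans ht), fun t ht => h.ne t (h12.trans ht),
    fun t ht => h.slope t (h12.trans ht)⟩

lemma hasDerivAt_log_norm {f : ℝ → ℂ} {f' : ℂ} {t : ℝ} (h : HasDerivAt f f' t) (h0 : f t ≠ 0) :
    HasDerivAt (fun t => Real.log ‖f t‖) (f' / f t).re t := by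
  have hp : 0 < ‖f t‖ := norm_pos_iff.2 h0
  have h1 := (hasDerivAt_nsq h).log (by positivity)
  have h2 := h1.const_mul (1 / 2)
  have h3 : (fun t => Real.log ‖f t‖) = fun t => 1 / 2 * Real.log (‖f t‖ ^ 2) := by
    funext t
    rw [Real.log_pow]; push_cast; ring
  rw [h3]
  refine h2.congr_deriv ?_
  have h4 : f' / f t = (conj (f t) * f') / ((‖f t‖ ^ 2 : ℝ) : ℂ) := by
    rw [← Complex.normSq_eq_norm_sq, Complex.normSq_eq_conj_mul_self]
    have : conj (f t) ≠ 0 := by simpa using h0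
    field_simp
  rw [h4, Complex.div_ofReal_re]
  ring

/-- the slope `Ψ/φ` -/
lemma Tame.slope_div {t1 : ℝ} (h : Tame δ g n l s φ Ψ t1) {t : ℝ} (ht : t1 ≤ t) :
    ‖Ψ t / φ t + s t‖ ≤ 48 * δ * ‖s t‖ := by
  have h0 := h.ne t ht
  have hp : 0 < ‖φ t‖ := norm_pos_iff.2 h0
  have h1 : Ψ t / φ t + s t = (Ψ t + s t * φ t) / φ t := by field_simp
  rw [h1, norm_div, div_le_iff₀ hp]
  exact h.slope t ht

lemma hasDerivAt_s3 {t : ℝ} (hG : Good δ g n l s t) :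
    HasDerivAt (fun t => 2 / 3 * (s t ^ 3).re) (s t).re t := by
  have hne := hG.ne
  have h1 : HasDerivAt (fun t => s t ^ 3) (3 * s t ^ 2 * (1 / (2 * s t))) t := by
    have := hG.ds.pow 3
    refine this.congr_deriv ?_
    push_cast; ring
  have h2 : HasDerivAt (fun t => (s t ^ 3).re) (3 * s t ^ 2 * (1 / (2 * s t))).re t :=
    (Complex.reCLM.hasFDerivAt.comp_hasDerivAt t h1)
  have h3 := h2.const_mul (2 / 3)
  refine h3.congr_deriv ?_
  have h4 : 3 * s t ^ 2 * (1 / (2 * s t)) = ((3 / 2 : ℝ) : ℂ) * s t := by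
    push_cast; field_simp
  rw [h4, Complex.re_ofReal_mul]
  ring

/-- Control of `log |φ|` by `(2/3) Re s³`. -/
theorem Tame.log_bounds {t1 : ℝ} (h : Tame δ g n l s φ Ψ t1) (hδ0 : 0 < δ) {t' t : ℝ}
    (ht' : t1 ≤ t') (ht : t' ≤ t) :
    Real.log ‖φ t‖ + 2 / 3 * (s t ^ 3).re ≤ Real.log ‖φ t'‖ + 2 / 3 * (s t' ^ 3).re +
      98 * δ * (2 / 3 * (s t ^ 3).re - 2 / 3 * (s t' ^ 3).re) ∧
    Real.log ‖φ t'‖ + 2 / 3 * (s t' ^ 3).re -
      98 * δ * (2 / 3 * (s t ^ 3).re - 2 / 3 * (s t' ^ 3).re) ≤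
      Real.log ‖φ t‖ + 2 / 3 * (s t ^ 3).re := by
  have hL : ∀ u, t1 ≤ u → HasDerivAt (fun u => Real.log ‖φ u‖) (g u + (Ψ u / φ u).re) u := by
    intro u hu
    refine (hasDerivAt_log_norm (h.sys.d1 u) (h.ne u hu)).congr_deriv ?_
    have h0 := h.ne u hu
    have : ((g u : ℂ) * φ u + Ψ u) / φ u = (g u : ℂ) + Ψ u / φ u := by field_simp
    rw [this, Complex.add_re, Complex.ofReal_re]
  have hbound : ∀ u, t1 ≤ u → |g u + (Ψ u / φ u).re + (s u).re| ≤ 98 * δ * (s u).re := by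
    intro u hu
    have h1 := h.slope_div hu
    have h2 := (h.good u hu).hg
    have h3 := (h.good u hu).re
    have h4 : |(Ψ u / φ u + s u).re| ≤ 48 * δ * ‖s u‖ := (Complex.abs_re_le_norm _).trans h1
    rw [Complex.add_re] at h4
    calc |g u + (Ψ u / φ u).re + (s u).re| = |g u + ((Ψ u / φ u).re + (s u).re)| := by
          rw [add_assoc]
      _ ≤ |g u| + |(Ψ u / φ u).re + (s u).re| := abs_add_le _ _
      _ ≤ δ * ‖s u‖ + 48 * δ * ‖s u‖ := by gcongr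
      _ = 49 * δ * ‖s u‖ := by ring
      _ ≤ 49 * δ * (2 * (s u).re) := by gcongr
      _ = _ := by ring
  constructor
  · have := mono_of_deriv (f := fun u => 98 * δ * (2 / 3 * (s u ^ 3).re) -
      (Real.log ‖φ u‖ + 2 / 3 * (s u ^ 3).re)) (a := t')
      (fun u hu => ((hasDerivAt_s3 (h.good u (ht'.trans hu))).const_mul (98 * δ)).sub
        ((hL u (ht'.trans hu)).add (hasDerivAt_s3 (h.good u (ht'.trans hu)))))
      (fun u hu => ?_) le_rfl ht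
    · linarith
    · have h1 := (abs_le.1 (hbound u (ht'.trans hu))).2
      linarith
  · have := mono_of_deriv (f := fun u => 98 * δ * (2 / 3 * (s u ^ 3).re) +
      (Real.log ‖φ u‖ + 2 / 3 * (s u ^ 3).re)) (a := t')
      (fun u hu => ((hasDerivAt_s3 (h.good u (ht'.trans hu))).const_mul (98 * δ)).add
        ((hL u (ht'.trans hu)).add (hasDerivAt_s3 (h.good u (ht'.trans hu)))))
      (fun u hu => ?_) le_rfl ht
    · linarith
    · have h1 := (abs_le.1 (hbound u (ht'.trans hu))).1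
      linarith

end Helper96.Airy
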