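import Pool.Agent.helper96.Airy.Rel

open Set Filter Topology ComplexConjugate

namespace Helper96.Airy

variable {δ : ℝ} {g n : ℝ → ℝ} {l : ℂ} {s φ Ψ u Ψu s1 φ1 Ψ1 s2 φ2 Ψ2 : ℝ → ℂ}

lemma Tame.log_deriv {t1 : ℝ} (h : Tame δ g n l s φ Ψ t1) {t : ℝ} (ht : t1 ≤ t) :
    HasDerivAt (fun t => Real.log ‖φ t‖) (g t + (Ψ t / φ t).re) t := by
  refine (hasDerivAt_log_norm (h.sys.d1 t) (h.ne t ht)).congr_deriv ?_
  have h0 := h.ne t ht
  have : ((g t : ℂ) * φ t + Ψ t) / φ t = (g t : ℂ) + Ψ t / φ t := by field_simp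
  rw [this, Complex.add_re, Complex.ofReal_re]

/-- `log |Q_l|` -/
noncomputable def lq (l : ℂ) (u φ : ℝ → ℂ) (t : ℝ) : ℝ :=
  Real.log ‖φ t‖ - Real.log ‖u t‖ + l.re * Real.sqrt t

lemma lq_deriv {t1 : ℝ} (hu : Tame δ g n 0 sq0 u Ψu t1) (hv : Tame δ g n l s φ Ψ t1)
    {t : ℝ} (ht0 : 0 < t) (ht : t1 ≤ t) :
    HasDerivAt (lq l u φ) ((Ψ t / φ t - Ψu t / u t).re + l.re * (1 / (2 * Real.sqrt t))) t := by
  have h1 := ((hv.log_deriv ht).sub (hu.log_deriv ht)).add ((hasDerivAt_sqrt' ht0).const_mul l.re)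
  refine h1.congr_deriv ?_
  rw [Complex.sub_re]; ring

/-- derivative zero limit principle -/
lemma abs_le_of_deriv_le {f f' G G' : ℝ → ℝ} {t1 : ℝ} (hf : ∀ t, t1 ≤ t → HasDerivAt f (f' t) t)
    (hG : ∀ t, t1 ≤ t → HasDerivAt G (G' t) t) (hb : ∀ t, t1 ≤ t → |f' t| ≤ G' t)
    (hf0 : Tendsto f atTop (𝓝 0)) (hG0 : Tendsto G atTop (𝓝 0)) {t : ℝ} (ht : t1 ≤ t) :
    |f t| ≤ - G t := by
  rw [abs_le]
  constructor
  · -- G - f is nondecreasing with limit 0, so G t - f t ≤ 0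
    have h1 : ∀ᶠ S in atTop, (fun _ : ℝ => G t - f t) S ≤ (fun S => G S - f S) S := by
      filter_upwards [eventually_ge_atTop t] with S hS
      exact mono_of_deriv (f := fun t => G t - f t) (f' := fun t => G' t - f' t)
        (fun v hv => (hG v hv).sub (hf v hv))
        (fun v hv => by have := (abs_le.1 (hb v hv)).2; linarith) ht hS
    have h2 : Tendsto (fun S => G S - f S) atTop (𝓝 (0 - 0)) := hG0.sub hf0
    have h3 := le_of_tendsto_of_tendsto tendsto_const_nhds h2 h1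
    linarith
  · have h1 : ∀ᶠ S in atTop, (fun _ : ℝ => G t + f t) S ≤ (fun S => G S + f S) S := by
      filter_upwards [eventually_ge_atTop t] with S hS
      exact mono_of_deriv (f := fun t => G t + f t) (f' := fun t => G' t + f' t)
        (fun v hv => (hG v hv).add (hf v hv))
        (fun v hv => by have := (abs_le.1 (hb v hv)).1; linarith) ht hS
    have h2 : Tendsto (fun S => G S + f S) atTop (𝓝 (0 + 0)) := hG0.add hf0
    have h3 := le_of_tendsto_of_tendsto tendsto_const_nhds h2 h1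
    linarith

lemma tendsto_inv_sqrt (C : ℝ) : Tendsto (fun t => C * (1 / (2 * Real.sqrt t))) atTop (𝓝 0) := by
  have h1 : Tendsto (fun t : ℝ => 2 * Real.sqrt t) atTop atTop :=
    Real.tendsto_sqrt_atTop.const_mul_atTop (by norm_num)
  have h2 := (tendsto_inv_atTop_zero.comp h1).const_mul C
  rw [mul_zero] at h2
  refine h2.congr (fun t => ?_)
  simp

/-- Statement E' -/
theorem lq_bound2 {t1 : ℝ} (hδ0 : 0 < δ) (hδ : δ ≤ 1 / 1000) (hu : Tame δ g n 0 sq0 u Ψu t1)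
    (hv : Tame δ g n l s φ Ψ t1) (hN : Near s t1)
    (hv1 : Tame δ g n 1 s1 φ1 Ψ1 t1) (hN1 : Near s1 t1)
    (hv2 : Tame δ g n Complex.I s2 φ2 Ψ2 t1) (hN2 : Near s2 t1) (hl : 1 ≤ ‖l‖)
    (lim : Tendsto (lq l u φ) atTop (𝓝 0)) (lim1 : Tendsto (lq 1 u φ1) atTop (𝓝 0))
    (lim2 : Tendsto (lq Complex.I u φ2) atTop (𝓝 0))
    {t : ℝ} (ht : t1 ≤ t) :
    |lq l u φ t - l.re * lq 1 u φ1 t - l.im * lq Complex.I u φ2 t| ≤ 2 * ‖l‖ ^ 2 / Real.sqrt t := by
  have h1 := abs_le_of_deriv_le (t1 := t1)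
    (f := fun t => lq l u φ t - l.re * lq 1 u φ1 t - l.im * lq Complex.I u φ2 t)
    (G := fun t => -(4 * ‖l‖ ^ 2) * (1 / (2 * Real.sqrt t)))
    (fun t ht => ((lq_deriv hu hv (hN.pos.trans_le ht) ht).sub
      ((lq_deriv hu hv1 (hN.pos.trans_le ht) ht).const_mul l.re)).sub
      ((lq_deriv hu hv2 (hN.pos.trans_le ht) ht).const_mul l.im))
    (fun t ht => (hasDerivAt_inv_sqrt (hN.pos.trans_le ht)).const_mul (-(4 * ‖l‖ ^ 2)))
    (fun t ht => ?_) ?_ ?_ ht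
  · refine h1.trans (le_of_eq ?_)
    have ht0 : 0 < t := hN.pos.trans_le ht
    have hw : 0 < Real.sqrt t := Real.sqrt_pos.2 ht0
    field_simp
    norm_num
  · have ht0 : 0 < t := hN.pos.trans_le ht
    have hw : 0 < Real.sqrt t := Real.sqrt_pos.2 ht0
    have h2 := rel_bound2 hδ0 hδ hu hv hN hv1 hN1 hv2 hN2 hl ht
    have h3 := (Complex.abs_re_le_norm _).trans h2
    rw [Complex.sub_re, Complex.sub_re, Complex.re_ofReal_mul, Complex.re_ofReal_mul] at h3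
    rw [Complex.one_re, Complex.I_re, zero_mul, add_zero]
    have h4 : (Ψ t / φ t - Ψu t / u t).re + l.re * (1 / (2 * Real.sqrt t)) -
        l.re * ((Ψ1 t / φ1 t - Ψu t / u t).re + 1 * (1 / (2 * Real.sqrt t))) -
        l.im * (Ψ2 t / φ2 t - Ψu t / u t).re =
        (Ψ t / φ t - Ψu t / u t).re - l.re * (Ψ1 t / φ1 t - Ψu t / u t).re -
        l.im * (Ψ2 t / φ2 t - Ψu t / u t).re := by ring
    rw [h4]
    refine h3.trans (le_of_eq ?_)
    field_simp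
  · have := (lim.sub (lim1.const_mul l.re)).sub (lim2.const_mul l.im)
    simpa using this
  · exact tendsto_inv_sqrt _

/-- Statement F' -/
theorem lq_bound3 {t1 : ℝ} (hδ0 : 0 < δ) (hδ : δ ≤ 1 / 1000) (hu : Tame δ g n 0 sq0 u Ψu t1)
    (hv : Tame δ g n l s φ Ψ t1) (hN : Near s t1) (hl : ‖l‖ = 1) (h1t : 1 ≤ δ * t1)
    {t : ℝ} (ht : t1 ≤ t) :
    |lq l u φ t| ≤ |lq l u φ t1| + 80 * δ * Real.sqrt t := by
  have key : ∀ v, t1 ≤ v → |(Ψ v / φ v - Ψu v / u v).re + l.re * (1 / (2 * Real.sqrt v))| ≤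
      80 * δ * (1 / (2 * Real.sqrt v)) := by
    intro v hv'
    have ht0 : 0 < v := hN.pos.trans_le hv'
    have hw : 0 < Real.sqrt v := Real.sqrt_pos.2 ht0
    have h2 := (Complex.abs_re_le_norm _).trans (rel_bound3 hδ0 hδ hu hv hN hl h1t hv')
    rw [Complex.add_re, mul_comm l, Complex.re_ofReal_mul, mul_comm (1 / (2 * Real.sqrt v))] at h2
    refine h2.trans (le_of_eq ?_)
    field_simp; norm_num
  have hs1 : 0 ≤ Real.sqrt t1 := Real.sqrt_nonneg _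
  have e1 : lq l u φ t ≤ lq l u φ t1 + 80 * δ * Real.sqrt t := by
    have := mono_of_deriv (f := fun v => 80 * δ * Real.sqrt v - lq l u φ v) (a := t1)
      (fun v hv' => ((hasDerivAt_sqrt' (hN.pos.trans_le hv')).const_mul (80 * δ)).sub
        (lq_deriv hu hv (hN.pos.trans_le hv') hv'))
      (fun v hv' => by have := (abs_le.1 (key v hv')).2; linarith) le_rfl ht
    have : 0 ≤ 80 * δ * Real.sqrt t1 := by positivity
    linarith
  have e2 : lq l u φ t1 ≤ lq l u φ t + 80 * δ * Real.sqrt t := by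
    have := mono_of_deriv (f := fun v => 80 * δ * Real.sqrt v + lq l u φ v) (a := t1)
      (fun v hv' => ((hasDerivAt_sqrt' (hN.pos.trans_le hv')).const_mul (80 * δ)).add
        (lq_deriv hu hv (hN.pos.trans_le hv') hv'))
      (fun v hv' => by have := (abs_le.1 (key v hv')).1; linarith) le_rfl ht
    have : 0 ≤ 80 * δ * Real.sqrt t1 := by positivity
    linarith
  rw [abs_le]
  have h1 := le_abs_self (lq l u φ t1)
  have h2 := neg_abs_le (lq l u φ t1)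
  constructor <;> linarith

/-- combined estimate of `log |Q_l|` -/
theorem lq_bound {t0 t1 : ℝ} (hδ0 : 0 < δ) (hδ : δ ≤ 1 / 1000) (hu : Tame δ g n 0 sq0 u Ψu t0)
    (hv1 : Tame δ g n 1 s1 φ1 Ψ1 t0) (hN1 : Near s1 t0)
    (hv2 : Tame δ g n Complex.I s2 φ2 Ψ2 t0) (hN2 : Near s2 t0) (h1t : 1 ≤ δ * t0)
    (h01 : t0 ≤ t1) (hv : Tame δ g n l s φ Ψ t1) (hN : Near s t1) (hl : 1 ≤ ‖l‖)
    (lim : Tendsto (lq l u φ) atTop (𝓝 0)) (lim1 : Tendsto (lq 1 u φ1) atTop (𝓝 0))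
    (lim2 : Tendsto (lq Complex.I u φ2) atTop (𝓝 0))
    {t : ℝ} (ht : t1 ≤ t) :
    |lq l u φ t| ≤ 2 * ‖l‖ ^ 2 / Real.sqrt t + ‖l‖ * (|lq 1 u φ1 t0| + |lq Complex.I u φ2 t0| +
      160 * δ * Real.sqrt t) := by
  have a1 := lq_bound2 hδ0 hδ (hu.mono h01) hv hN (hv1.mono h01) (hN1.mono h01) (hv2.mono h01)
    (hN2.mono h01) hl lim lim1 lim2 ht
  have a2 := lq_bound3 hδ0 hδ hu hv1 hN1 (by simp) h1t (h01.trans ht)
  have a3 := lq_bound3 hδ0 hδ hu hv2 hN2 (by simp) h1t (h01.trans ht)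
  have hlre : |l.re| ≤ ‖l‖ := Complex.abs_re_le_norm l
  have hlim : |l.im| ≤ ‖l‖ := Complex.abs_im_le_norm l
  have hw : 0 ≤ Real.sqrt t := Real.sqrt_nonneg t
  calc |lq l u φ t| = |(lq l u φ t - l.re * lq 1 u φ1 t - l.im * lq Complex.I u φ2 t) +
        l.re * lq 1 u φ1 t + l.im * lq Complex.I u φ2 t| := by congr 1; ring
    _ ≤ |lq l u φ t - l.re * lq 1 u φ1 t - l.im * lq Complex.I u φ2 t| +
        |l.re| * |lq 1 u φ1 t| + |l.im| * |lq Complex.I u φ2 t| := by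
          refine (abs_add_le _ _).trans ?_
          rw [abs_mul]
          gcongr
          refine (abs_add_le _ _).trans ?_
          rw [abs_mul]
    _ ≤ 2 * ‖l‖ ^ 2 / Real.sqrt t + ‖l‖ * (|lq 1 u φ1 t0| + 80 * δ * Real.sqrt t) +
        ‖l‖ * (|lq Complex.I u φ2 t0| + 80 * δ * Real.sqrt t) := by gcongr
    _ = _ := by ring

end Helper96.Airy
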