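import Pool.Agent.helper96.Airy.Damp

open Set Filter Topology ComplexConjugate

namespace Helper96.Airy

variable {δ : ℝ} {g n : ℝ → ℝ} {l : ℂ} {s φ Ψ u Ψu s1 φ1 Ψ1 s2 φ2 Ψ2 : ℝ → ℂ}

/-- Lemma E : second order bound on the relative slope, `l = a + b i`. -/
theorem rel_bound2 {t1 : ℝ} (hδ0 : 0 < δ) (hδ : δ ≤ 1 / 1000) (hu : Tame δ g n 0 sq0 u Ψu t1)
    (hv : Tame δ g n l s φ Ψ t1) (hN : Near s t1)
    (hv1 : Tame δ g n 1 s1 φ1 Ψ1 t1) (hN1 : Near s1 t1)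
    (hv2 : Tame δ g n Complex.I s2 φ2 Ψ2 t1) (hN2 : Near s2 t1) (hl : 1 ≤ ‖l‖)
    {t : ℝ} (ht : t1 ≤ t) :
    ‖(Ψ t / φ t - Ψu t / u t) - (l.re : ℂ) * (Ψ1 t / φ1 t - Ψu t / u t)
      - (l.im : ℂ) * (Ψ2 t / φ2 t - Ψu t / u t)‖ ≤ ‖l‖ ^ 2 / (t * Real.sqrt t) := by
  have ht0 : 0 < t := hN.pos.trans_le ht
  have hw : 0 < Real.sqrt t := Real.sqrt_pos.2 ht0
  have hlre : |l.re| ≤ ‖l‖ := Complex.abs_re_le_norm l
  have hlim : |l.im| ≤ ‖l‖ := Complex.abs_im_le_norm l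
  have h1 := damp (f := fun t => (Ψ t / φ t - Ψu t / u t) - (l.re : ℂ) * (Ψ1 t / φ1 t - Ψu t / u t)
      - (l.im : ℂ) * (Ψ2 t / φ2 t - Ψu t / u t))
    (P := fun t => -(2 * (g t : ℂ) + 2 * (Ψu t / u t)))
    (h := fun t => -(Ψ t / φ t - Ψu t / u t) ^ 2 + (l.re : ℂ) * (Ψ1 t / φ1 t - Ψu t / u t) ^ 2
      + (l.im : ℂ) * (Ψ2 t / φ2 t - Ψu t / u t) ^ 2) (t1 := t)
    (c := 4 / 3 * Real.sqrt t) (H := 4 / 3 * ‖l‖ ^ 2 / t) (by positivity)
    (fun t' ht' => by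
      refine (((rel_deriv hu hv (ht.trans ht')).sub
        ((rel_deriv hu hv1 (ht.trans ht')).const_mul (l.re : ℂ))).sub
        ((rel_deriv hu hv2 (ht.trans ht')).const_mul (l.im : ℂ))).congr_deriv ?_
      have hl' := Complex.re_add_im l
      rw [show -(2 * (g t' : ℂ) + Ψu t' / u t' + Ψ t' / φ t') * (Ψ t' / φ t' - Ψu t' / u t') + l
        = -(2 * (g t' : ℂ) + Ψu t' / u t' + Ψ t' / φ t') * (Ψ t' / φ t' - Ψu t' / u t')
          + ((l.re : ℂ) + (l.im : ℂ) * Complex.I) by rw [hl']]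
      ring)
    (fun t' ht' => ?_)
    (fun t' ht' => ?_)
    ⟨9 * (1 + 2 * ‖l‖) ^ 2, fun t' ht' => ?_⟩
  · refine h1.trans (le_of_eq ?_)
    field_simp
  · have h2 := hu.slope_div (ht.trans ht')
    rw [norm_sq0] at h2
    have h5 := (hu.good t' (ht.trans ht')).hg
    rw [norm_sq0] at h5
    have h7 := (abs_le.1 ((Complex.abs_re_le_norm _).trans h2)).2
    have h8 := (abs_le.1 h5).2
    rw [Complex.add_re] at h7
    have h9 : (sq0 t').re = Real.sqrt t' := by simp [sq0]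
    rw [h9] at h7
    have h10 : (-(2 * (g t' : ℂ) + 2 * (Ψu t' / u t'))).re = -(2 * g t' + 2 * (Ψu t' / u t').re) := by
      rw [show (2 : ℂ) * (g t' : ℂ) + 2 * (Ψu t' / u t') = ((2 : ℝ) : ℂ) * ((g t' : ℂ) + (Ψu t' / u t')) by
        push_cast; ring]
      rw [Complex.neg_re, Complex.re_ofReal_mul, Complex.add_re, Complex.ofReal_re]
      ring
    rw [h10]
    have hw' : Real.sqrt t ≤ Real.sqrt t' := Real.sqrt_le_sqrt ht'
    have h12 : 48 * δ * Real.sqrt t' ≤ 48 * (1 / 1000) * Real.sqrt t' := by gcongr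
    have h13 : δ * Real.sqrt t' ≤ (1 / 1000) * Real.sqrt t' := by gcongr
    linarith
  · have ht'0 : 0 < t' := ht0.trans_le ht'
    have hw' : 0 < Real.sqrt t' := Real.sqrt_pos.2 ht'0
    have hb := rel_bound hδ0 hδ hu hv hN (ht.trans ht')
    have hb1 := rel_bound hδ0 hδ hu hv1 hN1 (ht.trans ht')
    have hb2 := rel_bound hδ0 hδ hu hv2 hN2 (ht.trans ht')
    rw [norm_one, mul_one] at hb1
    rw [Complex.norm_I, mul_one] at hb2
    have e0 : ‖Ψ t' / φ t' - Ψu t' / u t'‖ ^ 2 ≤ 4 / 9 * ‖l‖ ^ 2 / t' := by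
      calc ‖Ψ t' / φ t' - Ψu t' / u t'‖ ^ 2 ≤ (2 / 3 * ‖l‖ / Real.sqrt t') ^ 2 := by gcongr
        _ = 4 / 9 * ‖l‖ ^ 2 / t' := by
          rw [div_pow, Real.sq_sqrt ht'0.le]; ring
    have e1 : ‖Ψ1 t' / φ1 t' - Ψu t' / u t'‖ ^ 2 ≤ 4 / 9 / t' := by
      calc ‖Ψ1 t' / φ1 t' - Ψu t' / u t'‖ ^ 2 ≤ (2 / 3 / Real.sqrt t') ^ 2 := by gcongr
        _ = 4 / 9 / t' := by
          rw [div_pow, Real.sq_sqrt ht'0.le]; ring
    have e2 : ‖Ψ2 t' / φ2 t' - Ψu t' / u t'‖ ^ 2 ≤ 4 / 9 / t' := by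
      calc ‖Ψ2 t' / φ2 t' - Ψu t' / u t'‖ ^ 2 ≤ (2 / 3 / Real.sqrt t') ^ 2 := by gcongr
        _ = 4 / 9 / t' := by
          rw [div_pow, Real.sq_sqrt ht'0.le]; ring
    calc ‖-(Ψ t' / φ t' - Ψu t' / u t') ^ 2 + (l.re : ℂ) * (Ψ1 t' / φ1 t' - Ψu t' / u t') ^ 2
      + (l.im : ℂ) * (Ψ2 t' / φ2 t' - Ψu t' / u t') ^ 2‖
        ≤ ‖Ψ t' / φ t' - Ψu t' / u t'‖ ^ 2 + |l.re| * ‖Ψ1 t' / φ1 t' - Ψu t' / u t'‖ ^ 2
          + |l.im| * ‖Ψ2 t' / φ2 t' - Ψu t' / u t'‖ ^ 2 := by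
          refine (norm_add_le _ _).trans ?_
          rw [norm_mul, norm_pow, Complex.norm_real, Real.norm_eq_abs]
          gcongr
          refine (norm_add_le _ _).trans ?_
          rw [norm_mul, norm_neg, norm_pow, norm_pow, Complex.norm_real, Real.norm_eq_abs]
      _ ≤ 4 / 9 * ‖l‖ ^ 2 / t' + ‖l‖ * (4 / 9 / t') + ‖l‖ * (4 / 9 / t') := by gcongr
      _ ≤ 4 / 9 * ‖l‖ ^ 2 / t' + ‖l‖ ^ 2 * (4 / 9 / t') + ‖l‖ ^ 2 * (4 / 9 / t') := by
          have : ‖l‖ ≤ ‖l‖ ^ 2 := by nlinarith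
          gcongr
      _ = 4 / 3 * ‖l‖ ^ 2 / t' := by ring
      _ ≤ 4 / 3 * ‖l‖ ^ 2 / t := by gcongr
  · have ht'0 : 0 < t' := ht0.trans_le ht'
    have hb := rel_poly hδ hu hv hN (ht.trans ht')
    have hb1 := rel_poly hδ hu hv1 hN1 (ht.trans ht')
    have hb2 := rel_poly hδ hu hv2 hN2 (ht.trans ht')
    have hw' : 0 < Real.sqrt t' := Real.sqrt_pos.2 ht'0
    have e0 : ‖(Ψ t' / φ t' - Ψu t' / u t') - (l.re : ℂ) * (Ψ1 t' / φ1 t' - Ψu t' / u t')
      - (l.im : ℂ) * (Ψ2 t' / φ2 t' - Ψu t' / u t')‖ ≤ 3 * Real.sqrt t' * (1 + 2 * ‖l‖) := by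
      calc _ ≤ ‖Ψ t' / φ t' - Ψu t' / u t'‖ + |l.re| * ‖Ψ1 t' / φ1 t' - Ψu t' / u t'‖
          + |l.im| * ‖Ψ2 t' / φ2 t' - Ψu t' / u t'‖ := by
            refine (norm_sub_le _ _).trans ?_
            rw [norm_mul, Complex.norm_real, Real.norm_eq_abs]
            gcongr
            refine (norm_sub_le _ _).trans ?_
            rw [norm_mul, Complex.norm_real, Real.norm_eq_abs]
        _ ≤ 3 * Real.sqrt t' + ‖l‖ * (3 * Real.sqrt t') + ‖l‖ * (3 * Real.sqrt t') := by gcongr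
        _ = _ := by ring
    calc _ ≤ (3 * Real.sqrt t' * (1 + 2 * ‖l‖)) ^ 2 := by gcongr
      _ = 9 * (1 + 2 * ‖l‖) ^ 2 * t' := by
        rw [mul_pow, mul_pow, Real.sq_sqrt ht'0.le]; ring
      _ ≤ 9 * (1 + 2 * ‖l‖) ^ 2 * (1 + |t'|) := by
        gcongr
        rw [abs_of_pos ht'0]; linarith

lemma hasDerivAt_sqrt' {t : ℝ} (ht : 0 < t) : HasDerivAt Real.sqrt (1 / (2 * Real.sqrt t)) t :=
  Real.hasDerivAt_sqrt ht.ne'

lemma hasDerivAt_inv_sqrt {t : ℝ} (ht : 0 < t) :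
    HasDerivAt (fun t => 1 / (2 * Real.sqrt t)) (-(1 / (4 * (t * Real.sqrt t)))) t := by
  have hw : 0 < Real.sqrt t := Real.sqrt_pos.2 ht
  have h1 := ((hasDerivAt_sqrt' ht).const_mul 2).inv (by positivity)
  have h2 : (fun t => 1 / (2 * Real.sqrt t)) = (fun t => 2 * Real.sqrt t)⁻¹ := by
    funext x; simp
  rw [h2]
  refine h1.congr_deriv ?_
  have h3 : t = Real.sqrt t ^ 2 := (Real.sq_sqrt ht.le).symm
  rw [show (4 * (t * Real.sqrt t)) = 4 * (Real.sqrt t ^ 2 * Real.sqrt t) by rw [← h3]]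
  field_simp
  norm_num

/-- Lemma F : for a fixed `l` of modulus one, the relative slope is `-l/(2√t)` up to `O(δ)/√t`. -/
theorem rel_bound3 {t1 : ℝ} (hδ0 : 0 < δ) (hδ : δ ≤ 1 / 1000) (hu : Tame δ g n 0 sq0 u Ψu t1)
    (hv : Tame δ g n l s φ Ψ t1) (hN : Near s t1) (hl : ‖l‖ = 1) (h1t : 1 ≤ δ * t1)
    {t : ℝ} (ht : t1 ≤ t) :
    ‖(Ψ t / φ t - Ψu t / u t) + l * ((1 / (2 * Real.sqrt t) : ℝ) : ℂ)‖ ≤ 40 * δ / Real.sqrt t := by
  have ht0 : 0 < t := hN.pos.trans_le ht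
  have hw : 0 < Real.sqrt t := Real.sqrt_pos.2 ht0
  have h1 := damp (f := fun t => (Ψ t / φ t - Ψu t / u t) + l * ((1 / (2 * Real.sqrt t) : ℝ) : ℂ))
    (P := fun t => -(2 * (g t : ℂ) + Ψu t / u t + Ψ t / φ t))
    (h := fun t => l * (1 - (-(2 * (g t : ℂ) + Ψu t / u t + Ψ t / φ t)) * ((1 / (2 * Real.sqrt t) : ℝ) : ℂ)
      - ((1 / (4 * (t * Real.sqrt t)) : ℝ) : ℂ))) (t1 := t)
    (c := 3 / 2 * Real.sqrt t) (H := 60 * δ) (by positivity)
    (fun t' ht' => by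
      have ht'0 : 0 < t' := ht0.trans_le ht'
      refine ((rel_deriv hu hv (ht.trans ht')).add
        ((hasDerivAt_inv_sqrt ht'0).ofReal_comp.const_mul l)).congr_deriv ?_
      push_cast
      ring)
    (fun t' ht' => le_trans (by gcongr) (rel_re hδ0 hδ hu hv hN (ht.trans ht')))
    (fun t' ht' => ?_)
    ⟨16, fun t' ht' => ?_⟩
  · refine h1.trans (le_of_eq ?_)
    field_simp
    norm_num
  · have ht'0 : 0 < t' := ht0.trans_le ht'
    have hw' : 0 < Real.sqrt t' := Real.sqrt_pos.2 ht'0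
    rw [norm_mul, hl, one_mul]
    have hG := hv.good t' (ht.trans ht')
    have hGu := hu.good t' (ht.trans ht')
    have a1 := hv.slope_div (ht.trans ht')
    have a2 := hu.slope_div (ht.trans ht')
    rw [norm_sq0] at a2
    have a3 := hN.norm t' (ht.trans ht')
    have a4 := hN.re t' (ht.trans ht')
    have a5 := hGu.hg
    rw [norm_sq0] at a5
    -- |s - √t| ≤ 1/√t ≤ δ √t
    have a6 : ‖s t' - sq0 t'‖ ≤ δ * Real.sqrt t' := by
      have b1 : (s t' - sq0 t') * (s t' + sq0 t') = l := by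
        have : (s t' - sq0 t') * (s t' + sq0 t') = s t' ^ 2 - sq0 t' ^ 2 := by ring
        rw [this, hG.sq, hGu.sq]; ring
      have b2 : ‖s t' - sq0 t'‖ * ‖s t' + sq0 t'‖ = 1 := by rw [← norm_mul, b1, hl]
      have b3 : Real.sqrt t' ≤ ‖s t' + sq0 t'‖ := by
        refine le_trans ?_ (Complex.re_le_norm _)
        rw [Complex.add_re]
        have h9 : (sq0 t').re = Real.sqrt t' := by simp [sq0]
        rw [h9]; linarith
      have b4 : ‖s t' - sq0 t'‖ * Real.sqrt t' ≤ 1 := by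
        rw [← b2]; gcongr
      have b5 : 1 ≤ δ * Real.sqrt t' * Real.sqrt t' := by
        rw [mul_assoc, Real.mul_self_sqrt ht'0.le]
        refine h1t.trans ?_
        have := ht.trans ht'
        gcongr
      by_contra hcon
      push Not at hcon
      nlinarith
    have a7 : (1 : ℂ) - (-(2 * (g t' : ℂ) + Ψu t' / u t' + Ψ t' / φ t')) *
        ((1 / (2 * Real.sqrt t') : ℝ) : ℂ) - ((1 / (4 * (t' * Real.sqrt t')) : ℝ) : ℂ)
        = (2 * (g t' : ℂ) + (Ψu t' / u t' + sq0 t') + (Ψ t' / φ t' + s t') - (s t' - sq0 t')) *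
          ((1 / (2 * Real.sqrt t') : ℝ) : ℂ) - ((1 / (4 * (t' * Real.sqrt t')) : ℝ) : ℂ) := by
      have : (1 : ℂ) = (2 * sq0 t') * ((1 / (2 * Real.sqrt t') : ℝ) : ℂ) := by
        rw [sq0]
        rw [show (2 : ℂ) = ((2 : ℝ) : ℂ) by norm_num, ← Complex.ofReal_mul, ← Complex.ofReal_mul]
        rw [show 2 * Real.sqrt t' * (1 / (2 * Real.sqrt t')) = 1 by field_simp]
        simp
      nth_rewrite 1 [this]
      ring
    rw [a7]
    have a8 : ‖(2 * (g t' : ℂ) + (Ψu t' / u t' + sq0 t') + (Ψ t' / φ t' + s t') - (s t' - sq0 t'))‖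
        ≤ 104 * δ * Real.sqrt t' := by
      calc _ ≤ 2 * |g t'| + ‖Ψu t' / u t' + sq0 t'‖ + ‖Ψ t' / φ t' + s t'‖ + ‖s t' - sq0 t'‖ := by
            refine (norm_sub_le _ _).trans ?_
            gcongr
            refine (norm_add_le _ _).trans ?_
            gcongr
            refine (norm_add_le _ _).trans ?_
            gcongr
            rw [norm_mul]; simp
        _ ≤ 2 * (δ * Real.sqrt t') + 48 * δ * Real.sqrt t' + 48 * δ * (11 / 10 * Real.sqrt t')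
            + δ * Real.sqrt t' := by
            have : 48 * δ * ‖s t'‖ ≤ 48 * δ * (11 / 10 * Real.sqrt t') := by gcongr
            gcongr
            linarith
        _ ≤ 104 * δ * Real.sqrt t' := by
            have : 0 < δ * Real.sqrt t' := by positivity
            nlinarith
    have a9 : 1 / (4 * (t' * Real.sqrt t')) ≤ δ / 4 := by
      have := hGu.h1
      rw [norm_sq0] at this
      have b6 : Real.sqrt t' ^ 3 = t' * Real.sqrt t' := by
        rw [pow_succ, Real.sq_sqrt ht'0.le]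
      rw [b6] at this
      rw [div_le_div_iff₀ (by positivity) (by norm_num)]
      nlinarith
    calc ‖(2 * (g t' : ℂ) + (Ψu t' / u t' + sq0 t') + (Ψ t' / φ t' + s t') - (s t' - sq0 t')) *
          ((1 / (2 * Real.sqrt t') : ℝ) : ℂ) - ((1 / (4 * (t' * Real.sqrt t')) : ℝ) : ℂ)‖
        ≤ 104 * δ * Real.sqrt t' * (1 / (2 * Real.sqrt t')) + 1 / (4 * (t' * Real.sqrt t')) := by
          refine (norm_sub_le _ _).trans ?_
          rw [norm_mul, Complex.norm_real, Complex.norm_real, Real.norm_eq_abs, Real.norm_eq_abs,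
            abs_of_pos (by positivity), abs_of_pos (by positivity)]
          gcongr
      _ = 52 * δ + 1 / (4 * (t' * Real.sqrt t')) := by field_simp; ring
      _ ≤ 52 * δ + δ / 4 := by gcongr
      _ ≤ 60 * δ := by linarith
  · have ht'0 : 0 < t' := ht0.trans_le ht'
    have hw' : 0 < Real.sqrt t' := Real.sqrt_pos.2 ht'0
    have hb := rel_poly hδ hu hv hN (ht.trans ht')
    have b5 : 1 ≤ Real.sqrt t' := by
      rw [Real.one_le_sqrt]
      have : t1 ≤ t' := ht.trans ht'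
      have := hN.pos
      nlinarith
    have e0 : ‖(Ψ t' / φ t' - Ψu t' / u t') + l * ((1 / (2 * Real.sqrt t') : ℝ) : ℂ)‖
        ≤ 4 * Real.sqrt t' := by
      calc _ ≤ 3 * Real.sqrt t' + 1 / (2 * Real.sqrt t') := by
            refine (norm_add_le _ _).trans ?_
            rw [norm_mul, hl, one_mul, Complex.norm_real, Real.norm_eq_abs,
              abs_of_pos (a := 1 / (2 * Real.sqrt t')) (by positivity)]
            gcongr
        _ ≤ 3 * Real.sqrt t' + 1 / 2 := by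
            gcongr 3 * Real.sqrt t' + ?_
            rw [div_le_div_iff₀ (by positivity) (by norm_num)]
            linarith
        _ ≤ 4 * Real.sqrt t' := by linarith
    calc _ ≤ (4 * Real.sqrt t') ^ 2 := by gcongr
      _ = 16 * t' := by
        rw [mul_pow, Real.sq_sqrt ht'0.le]; norm_num
      _ ≤ 16 * (1 + |t'|) := by
        gcongr
        rw [abs_of_pos ht'0]; linarith

end Helper96.Airy
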