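import Pool.Agent.helper96.Airy.LogQ

open Set Filter Topology ComplexConjugate

namespace Helper96.Airy

/-- principal square root -/
noncomputable def csq (z : ℂ) : ℂ := z ^ (2⁻¹ : ℂ)

lemma csq_sq (z : ℂ) : csq z ^ 2 = z := by
  have := Complex.cpow_nat_inv_pow z (n := 2) two_ne_zero
  simpa [csq] using this

lemma norm_csq_sq (z : ℂ) : ‖csq z‖ ^ 2 = ‖z‖ := by
  rw [← norm_pow, csq_sq]

lemma csq_re (z : ℂ) : (csq z).re = Real.sqrt ((‖z‖ + z.re) / 2) := Complex.cpow_inv_two_re z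

lemma csq_re_sq (z : ℂ) : (csq z).re ^ 2 = (‖z‖ + z.re) / 2 := by
  rw [csq_re, Real.sq_sqrt]
  have := Complex.abs_re_le_norm z
  have := (abs_le.1 this).1
  linarith

lemma csq_re_nonneg (z : ℂ) : 0 ≤ (csq z).re := by
  rw [csq_re]; exact Real.sqrt_nonneg _

lemma csq_im_sq (z : ℂ) : (csq z).im ^ 2 = (‖z‖ - z.re) / 2 := by
  have h1 := norm_csq_sq z
  rw [← Complex.normSq_eq_norm_sq, Complex.normSq_apply] at h1
  have h2 := csq_re_sq z
  nlinarith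

lemma two_re_im (z : ℂ) : 2 * (csq z).re * (csq z).im = z.im := by
  have h := congrArg Complex.im (csq_sq z)
  rw [pow_two, Complex.mul_im] at h
  linarith

lemma hasDerivAt_csq {l : ℂ} {t : ℝ} (h : (t : ℂ) + l ∈ Complex.slitPlane) :
    HasDerivAt (fun t : ℝ => csq ((t : ℂ) + l)) (1 / (2 * csq ((t : ℂ) + l))) t := by
  have h1 : HasDerivAt (fun t : ℝ => (t : ℂ) + l) 1 t := (Complex.ofRealCLM.hasDerivAt).add_const l
  have h2 : HasDerivAt (fun z : ℂ => z ^ (2⁻¹ : ℂ))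
      ((2⁻¹ : ℂ) * ((t : ℂ) + l) ^ ((2⁻¹ : ℂ) - 1) * 1) ((t : ℂ) + l) :=
    (hasDerivAt_id _).cpow_const h
  have h3 := h2.comp_of_eq t h1 rfl
  refine h3.congr_deriv ?_
  have hne : (t : ℂ) + l ≠ 0 := Complex.slitPlane_ne_zero h
  have h4 : ((t : ℂ) + l) ^ ((2⁻¹ : ℂ) - 1) = csq ((t : ℂ) + l) / ((t : ℂ) + l) := by
    rw [Complex.cpow_sub _ _ hne, Complex.cpow_one, csq]
  rw [h4]
  have h5 := csq_sq ((t : ℂ) + l)
  have h6 : csq ((t : ℂ) + l) ≠ 0 := by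
    intro h0
    rw [h0] at h5
    exact hne (by rw [← h5]; norm_num)
  nth_rewrite 2 [← h5]
  field_simp

/-- `Good` for `l = 0`. -/
lemma good_zero {δ : ℝ} {g n : ℝ → ℝ} {t : ℝ} (ht : 0 < t) (hg : |g t| ≤ δ * Real.sqrt t)
    (hn : |n t| ≤ δ * t) (h1 : 1 ≤ δ * (t * Real.sqrt t)) : Good δ g n 0 sq0 t := by
  have hw : 0 < Real.sqrt t := Real.sqrt_pos.2 ht
  refine ⟨?_, ?_, ?_, ?_, ?_, ?_⟩
  · rw [sq0, ← Complex.ofReal_pow, Real.sq_sqrt ht.le, add_zero]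
  · refine (hasDerivAt_sqrt' ht).ofReal_comp.congr_deriv ?_
    rw [sq0]; push_cast; rfl
  · rw [norm_sq0]; simp only [sq0, Complex.ofReal_re]; linarith
  · rw [norm_sq0]; exact hg
  · rw [norm_sq0, Real.sq_sqrt ht.le]; exact hn
  · rw [norm_sq0, show Real.sqrt t ^ 3 = t * Real.sqrt t by rw [pow_succ, Real.sq_sqrt ht.le]]
    exact h1

/-- Geometry for `t ≥ 100 |l|`. -/
lemma geom_far {l : ℂ} {t : ℝ} (ht : 0 < t) (hl : 100 * ‖l‖ ≤ t) :
    9 / 10 * Real.sqrt t ≤ (csq ((t : ℂ) + l)).re ∧ ‖csq ((t : ℂ) + l)‖ ≤ 11 / 10 * Real.sqrt t ∧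
    (t : ℂ) + l ∈ Complex.slitPlane := by
  have hw : 0 < Real.sqrt t := Real.sqrt_pos.2 ht
  have hre : -‖l‖ ≤ l.re := (abs_le.1 (Complex.abs_re_le_norm l)).1
  have h1 : ((t : ℂ) + l).re = t + l.re := by simp
  have h2 : t - ‖l‖ ≤ ‖(t : ℂ) + l‖ := by
    have := Complex.re_le_norm ((t : ℂ) + l)
    rw [h1] at this; linarith
  have h3 : ‖(t : ℂ) + l‖ ≤ t + ‖l‖ := by
    refine (norm_add_le _ _).trans ?_
    rw [Complex.norm_real, Real.norm_eq_abs, abs_of_pos ht]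
  refine ⟨?_, ?_, ?_⟩
  · apply le_of_sq_le_sq _ (csq_re_nonneg _)
    rw [csq_re_sq, mul_pow, Real.sq_sqrt ht.le, h1]
    linarith
  · apply le_of_sq_le_sq _ (by positivity)
    rw [norm_csq_sq, mul_pow, Real.sq_sqrt ht.le]
    linarith
  · left
    rw [h1]
    have := norm_nonneg l
    nlinarith

/-- `Good` for `t ≥ 100 |l|`. -/
lemma good_far {δ : ℝ} {g n : ℝ → ℝ} {l : ℂ} {t : ℝ} (hδ : 0 < δ) (ht : 0 < t) (hl : 100 * ‖l‖ ≤ t)
    (hg : |g t| ≤ δ / 2 * Real.sqrt t)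
    (hn : |n t| ≤ δ / 2 * t) (h1 : 1 ≤ δ / 2 * (t * Real.sqrt t)) :
    Good δ g n l (fun t => csq ((t : ℂ) + l)) t := by
  obtain ⟨a1, a2, a3⟩ := geom_far ht hl
  have hw : 0 < Real.sqrt t := Real.sqrt_pos.2 ht
  have a4 : 9 / 10 * Real.sqrt t ≤ ‖csq ((t : ℂ) + l)‖ := a1.trans (Complex.re_le_norm _)
  refine ⟨csq_sq _, hasDerivAt_csq a3, ?_, ?_, ?_, ?_⟩
  · linarith
  · refine hg.trans ?_
    have : δ * (9 / 10 * Real.sqrt t) ≤ δ * ‖csq ((t : ℂ) + l)‖ := by gcongr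
    have : 0 < δ * Real.sqrt t := by positivity
    linarith
  · refine hn.trans ?_
    have h2 : δ * (9 / 10 * Real.sqrt t) ^ 2 ≤ δ * ‖csq ((t : ℂ) + l)‖ ^ 2 := by gcongr
    rw [mul_pow, Real.sq_sqrt ht.le] at h2
    have : 0 < δ * t := by positivity
    linarith
  · refine h1.trans ?_
    have h2 : δ * (9 / 10 * Real.sqrt t) ^ 3 ≤ δ * ‖csq ((t : ℂ) + l)‖ ^ 3 := by gcongr
    rw [mul_pow, show Real.sqrt t ^ 3 = t * Real.sqrt t by rw [pow_succ, Real.sq_sqrt ht.le]] at h2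
    have : 0 < δ * (t * Real.sqrt t) := by positivity
    linarith

lemma near_far {l : ℂ} {t1 : ℝ} (ht : 0 < t1) (hl : 100 * ‖l‖ ≤ t1) :
    Near (fun t : ℝ => csq ((t : ℂ) + l)) t1 :=
  ⟨ht, fun t h => (geom_far (ht.trans_le h) (hl.trans h)).1,
    fun t h => (geom_far (ht.trans_le h) (hl.trans h)).2.1⟩

/-- modulus of `t + i r` -/
lemma norm_ir {t r : ℝ} (hr : 0 ≤ r) : r ≤ ‖(t : ℂ) + (r : ℂ) * Complex.I‖ ∧
    |t| ≤ ‖(t : ℂ) + (r : ℂ) * Complex.I‖ ∧ ‖(t : ℂ) + (r : ℂ) * Complex.I‖ ≤ |t| + r := by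
  have h1 := Complex.abs_re_le_norm ((t : ℂ) + (r : ℂ) * Complex.I)
  have h2 := Complex.abs_im_le_norm ((t : ℂ) + (r : ℂ) * Complex.I)
  simp at h1 h2
  refine ⟨(le_abs_self r).trans h2, h1, ?_⟩
  refine (norm_add_le _ _).trans ?_
  simp [abs_of_nonneg hr]

/-- `Good` on the imaginary axis -/
lemma good_im {δ : ℝ} {g n : ℝ → ℝ} {r t : ℝ} (hr : 1 ≤ r)
    (hδr : 1 ≤ δ * r) (ht : -(r / 2) ≤ t)
    (hg : |g t| ≤ δ * Real.sqrt r ∨ (0 ≤ t ∧ |g t| ≤ δ * Real.sqrt t))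
    (hn : |n t| ≤ δ * r ∨ |n t| ≤ δ * |t|) :
    Good δ g n ((r : ℂ) * Complex.I) (fun t => csq ((t : ℂ) + (r : ℂ) * Complex.I)) t := by
  have hr0 : 0 < r := by linarith
  have hδ : 0 < δ := by
    by_contra h
    push Not at h
    nlinarith
  obtain ⟨a1, a2, a3⟩ := norm_ir (t := t) hr0.le
  have hsl : (t : ℂ) + (r : ℂ) * Complex.I ∈ Complex.slitPlane := by
    right; simp; exact hr0.ne'
  set z := (t : ℂ) + (r : ℂ) * Complex.I with hz
  have hzre : z.re = t := by simp [hz]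
  have hns : ‖csq z‖ ^ 2 = ‖z‖ := norm_csq_sq z
  have hns' : ‖csq z‖ = Real.sqrt ‖z‖ := by rw [← hns, Real.sqrt_sq (norm_nonneg _)]
  refine ⟨csq_sq _, hasDerivAt_csq hsl, ?_, ?_, ?_, ?_⟩
  · apply le_of_sq_le_sq _ (by have := csq_re_nonneg z; positivity)
    rw [mul_pow, csq_re_sq, hns, hzre]
    rcases le_total 0 t with h | h
    · linarith
    · have : |t| = -t := abs_of_nonpos h
      linarith
  · change |g t| ≤ δ * ‖csq z‖
    rw [hns']
    rcases hg with h | ⟨h0, h⟩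
    · refine h.trans ?_
      gcongr
    · refine h.trans ?_
      have : t ≤ ‖z‖ := (le_abs_self t).trans a2
      gcongr
  · change |n t| ≤ δ * ‖csq z‖ ^ 2
    rw [hns]
    rcases hn with h | h
    · refine h.trans ?_
      gcongr
    · refine h.trans ?_
      gcongr
  · change 1 ≤ δ * ‖csq z‖ ^ 3
    have h1 : 1 ≤ ‖csq z‖ := by
      rw [hns', Real.one_le_sqrt]; linarith
    have h2 : ‖csq z‖ ^ 3 = ‖csq z‖ ^ 2 * ‖csq z‖ := by ring
    rw [h2, hns]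
    have h3 : r * 1 ≤ ‖z‖ * ‖csq z‖ := by gcongr
    nlinarith

/-- real part of the cube of the root -/
lemma csq_cube_re (z : ℂ) : (csq z ^ 3).re = (csq z).re * z.re - z.im * (csq z).im := by
  have h1 : csq z ^ 3 = csq z * z := by
    rw [pow_succ, csq_sq, mul_comm]
  rw [h1, Complex.mul_re]
  ring

/-- lower bound of the real part of the cube at a far time -/
lemma cube_far {r T : ℝ} (hr : 0 < r) (hT : r ≤ T) :
    T * Real.sqrt T - r ^ 2 / (2 * Real.sqrt T) ≤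
      (csq ((T : ℂ) + (r : ℂ) * Complex.I) ^ 3).re := by
  have hT0 : 0 < T := by linarith
  have hw : 0 < Real.sqrt T := Real.sqrt_pos.2 hT0
  rw [csq_cube_re]
  have hre : ((T : ℂ) + (r : ℂ) * Complex.I).re = T := by simp
  have him : ((T : ℂ) + (r : ℂ) * Complex.I).im = r := by simp
  have h1 := two_re_im ((T : ℂ) + (r : ℂ) * Complex.I)
  have h2 := csq_re_sq ((T : ℂ) + (r : ℂ) * Complex.I)
  have h3 := csq_re_nonneg ((T : ℂ) + (r : ℂ) * Complex.I)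
  have h4 := (norm_ir (t := T) hr.le).2.1
  rw [abs_of_pos hT0] at h4
  rw [hre, him] at *
  set x := (csq ((T : ℂ) + (r : ℂ) * Complex.I)).re
  set y := (csq ((T : ℂ) + (r : ℂ) * Complex.I)).im
  have hx : Real.sqrt T ≤ x := by
    apply le_of_sq_le_sq _ h3
    rw [Real.sq_sqrt hT0.le, h2]; linarith
  have hx0 : 0 < x := hw.trans_le hx
  have hy : y = r / (2 * x) := by field_simp; linarith
  rw [hy]
  have h5 : r * (r / (2 * x)) = r ^ 2 / (2 * x) := by ring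
  rw [h5]
  have h6 : r ^ 2 / (2 * x) ≤ r ^ 2 / (2 * Real.sqrt T) := by gcongr
  have h7 : Real.sqrt T * T ≤ x * T := by gcongr
  linarith

/-- the gain at a fixed time -/
lemma cube_near {r τ : ℝ} (hr : 0 < r) (hτ : 4 * |τ| ≤ r) :
    (csq ((τ : ℂ) + (r : ℂ) * Complex.I) ^ 3).re ≤ -(r * Real.sqrt r / 4) := by
  rw [csq_cube_re]
  have hw : 0 < Real.sqrt r := Real.sqrt_pos.2 hr
  have hre : ((τ : ℂ) + (r : ℂ) * Complex.I).re = τ := by simp
  have him : ((τ : ℂ) + (r : ℂ) * Complex.I).im = r := by simp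
  have h1 := two_re_im ((τ : ℂ) + (r : ℂ) * Complex.I)
  have h2 := csq_re_sq ((τ : ℂ) + (r : ℂ) * Complex.I)
  have h2' := csq_im_sq ((τ : ℂ) + (r : ℂ) * Complex.I)
  have h3 := csq_re_nonneg ((τ : ℂ) + (r : ℂ) * Complex.I)
  obtain ⟨a1, a2, a3⟩ := norm_ir (t := τ) hr.le
  rw [hre, him] at *
  set x := (csq ((τ : ℂ) + (r : ℂ) * Complex.I)).re
  set y := (csq ((τ : ℂ) + (r : ℂ) * Complex.I)).im
  have b1 := le_abs_self τ
  have b2 := neg_abs_le τ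
  have b3 := abs_nonneg τ
  have hx0 : 0 < x := by
    rcases h3.eq_or_lt with h | h
    · rw [← h] at h1; simp at h1; linarith
    · exact h
  have hy0 : 0 < y := by
    by_contra hcon
    push Not at hcon
    have : 2 * x * y ≤ 0 := by
      have : 0 ≤ 2 * x := by linarith
      exact mul_nonpos_of_nonneg_of_nonpos this hcon
    linarith
  have hy : Real.sqrt r / 2 ≤ y := by
    apply le_of_sq_le_sq _ hy0.le
    rw [div_pow, Real.sq_sqrt hr.le, h2']; linarith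
  have hx : x ≤ Real.sqrt r := by
    apply le_of_sq_le_sq _ hw.le
    rw [Real.sq_sqrt hr.le, h2]; linarith
  have c1 : x * τ ≤ Real.sqrt r * (r / 4) := by
    calc x * τ ≤ x * |τ| := by gcongr
      _ ≤ Real.sqrt r * (r / 4) := by
        have : |τ| ≤ r / 4 := by linarith
        gcongr
  have c2 : r * (Real.sqrt r / 2) ≤ r * y := by gcongr
  linarith

end Helper96.Airy
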