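import Pool.Agent.helper96.Airy.Upper

open Set Filter Topology ComplexConjugate MeasureTheory intervalIntegral

namespace Helper96.Airy

/-- The kernel `U_l(t,u) = (t²-u²)/2 + b(t) - b(u) + l (t-u)`. -/
noncomputable def kerU (b : ℝ → ℝ) (l : ℂ) (t u : ℝ) : ℂ :=
  (((t ^ 2 - u ^ 2) / 2 + b t - b u : ℝ) : ℂ) + l * ((t - u : ℝ) : ℂ)

/-- Pathwise solutions of the stochastic Airy equation. -/
def IsSol (b : ℝ → ℝ) (l : ℂ) (φ : ℝ → ℂ) : Prop :=
  ∃ Φ : ℝ → ℂ, (∀ x y : ℝ, IntervalIntegrable Φ volume x y) ∧ ∃ (T : ℝ) (c₁ c₂ : ℂ), ∀ t : ℝ,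
    Φ t = c₂ + (∫ u in T..t, kerU b l t u * Φ u) + c₁ * kerU b l t T ∧
    φ t = c₁ + ∫ u in T..t, Φ u

noncomputable def mav (b : ℝ → ℝ) (t : ℝ) : ℝ := ∫ u in t..(t + 1), b u

noncomputable def gg (b : ℝ → ℝ) (t : ℝ) : ℝ := b t - mav b t

noncomputable def nn (b : ℝ → ℝ) (t : ℝ) : ℝ := b (t + 1) - b t

lemma hasDerivAt_mav {b : ℝ → ℝ} (hb : Continuous b) (t : ℝ) : HasDerivAt (mav b) (nn b t) t := by
  have h1 : mav b = fun t => (∫ u in (0:ℝ)..(t + 1), b u) - ∫ u in (0:ℝ)..t, b u := by
    funext t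
    rw [mav, intervalIntegral.integral_interval_sub_left] <;> exact hb.intervalIntegrable _ _
  rw [h1]
  have h2 : HasDerivAt (fun t => ∫ u in (0:ℝ)..t, b u) (b t) t :=
    intervalIntegral.integral_hasDerivAt_right (hb.intervalIntegrable _ _)
      (hb.stronglyMeasurableAtFilter _ _) hb.continuousAt
  have h3 : HasDerivAt (fun t => ∫ u in (0:ℝ)..t, b u) (b (t + 1)) (t + 1) :=
    intervalIntegral.integral_hasDerivAt_right (hb.intervalIntegrable _ _)
      (hb.stronglyMeasurableAtFilter _ _) hb.continuousAt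
  have h4 : HasDerivAt (fun t => ∫ u in (0:ℝ)..(t + 1), b u) (b (t + 1)) t := by
    have := h3.comp_add_const t 1
    exact this
  exact h4.sub h2

/-- From the integral equation to the first-order system. -/
theorem sys_of_isSol {b : ℝ → ℝ} (hb : Continuous b) {l : ℂ} {φ : ℝ → ℂ} (h : IsSol b l φ) :
    ∃ Ψ : ℝ → ℂ, Sys (gg b) (nn b) l φ Ψ := by
  obtain ⟨Φ, hint, T, c₁, c₂, hsol⟩ := h
  set V : ℝ → ℂ := fun t => ((t ^ 2 / 2 + b t : ℝ) : ℂ) + l * (t : ℂ) with hV
  have hVc : Continuous V := by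
    rw [hV]
    fun_prop
  have hker : ∀ t u, kerU b l t u = V t - V u := by
    intro t u
    rw [kerU, hV]; push_cast; ring
  have hVΦ : ∀ x y : ℝ, IntervalIntegrable (fun u => V u * Φ u) volume x y := by
    intro x y
    exact (hint x y).continuousOn_mul hVc.continuousOn
  have hφ : ∀ t, φ t = c₁ + ∫ u in T..t, Φ u := fun t => (hsol t).2
  have hφc : Continuous φ := by
    have : φ = fun t => c₁ + ∫ u in T..t, Φ u := funext hφ
    rw [this]
    exact continuous_const.add (intervalIntegral.continuous_primitive hint T)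
  have hΦ : ∀ t, Φ t = c₂ - c₁ * V T + V t * φ t - ∫ u in T..t, V u * Φ u := by
    intro t
    have h1 : (∫ u in T..t, kerU b l t u * Φ u) = V t * (∫ u in T..t, Φ u) - ∫ u in T..t, V u * Φ u := by
      rw [← intervalIntegral.integral_const_mul, ← intervalIntegral.integral_sub]
      · apply intervalIntegral.integral_congr
        intro u _
        simp only [hker]; ring
      · exact (hint T t).const_mul _
      · exact hVΦ T t
    rw [(hsol t).1, h1, hφ t, hker]
    ring
  have hΦc : Continuous Φ := by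
    have : Φ = fun t => c₂ - c₁ * V T + V t * φ t - ∫ u in T..t, V u * Φ u := funext hΦ
    rw [this]
    exact (continuous_const.add (hVc.mul hφc)).sub (intervalIntegral.continuous_primitive hVΦ T)
  have hVΦc : Continuous (fun u => V u * Φ u) := hVc.mul hΦc
  have hdφ : ∀ t, HasDerivAt φ (Φ t) t := by
    intro t
    have : φ = fun t => c₁ + ∫ u in T..t, Φ u := funext hφ
    rw [this]
    exact (intervalIntegral.integral_hasDerivAt_right (hint _ _)
      (hΦc.stronglyMeasurableAtFilter _ _) hΦc.continuousAt).const_add c₁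
  have hdI : ∀ t, HasDerivAt (fun t => ∫ u in T..t, V u * Φ u) (V t * Φ t) t := by
    intro t
    exact (intervalIntegral.integral_hasDerivAt_right (hVΦ _ _)
      (hVΦc.stronglyMeasurableAtFilter _ _) hVΦc.continuousAt)
  refine ⟨fun t => Φ t - (gg b t : ℂ) * φ t, ?_, ?_⟩
  · intro t
    refine (hdφ t).congr_deriv ?_
    ring
  · intro t
    have h1 : (fun t => Φ t - (gg b t : ℂ) * φ t) = fun t => (c₂ - c₁ * V T - ∫ u in T..t, V u * Φ u) +
        (((t ^ 2 / 2 : ℝ) : ℂ) + l * (t : ℂ) + (mav b t : ℂ)) * φ t := by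
      funext t
      rw [hΦ t, gg, hV]
      push_cast
      ring
    rw [h1]
    have h2 : HasDerivAt (fun t : ℝ => ((t ^ 2 / 2 : ℝ) : ℂ)) (t : ℂ) t := by
      have : HasDerivAt (fun t : ℝ => t ^ 2 / 2) t t := by
        have := ((hasDerivAt_id t).pow 2).div_const 2
        refine this.congr_deriv ?_
        simp
      exact this.ofReal_comp
    have h3 : HasDerivAt (fun t : ℝ => l * (t : ℂ)) l t := by
      have := (Complex.ofRealCLM.hasDerivAt (x := t)).const_mul l
      simpa using this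
    have h4 := (hasDerivAt_mav hb t).ofReal_comp
    have h5 := ((hdI t).const_sub (c₂ - c₁ * V T)).add (((h2.add h3).add h4).mul (hdφ t))
    refine h5.congr_deriv ?_
    have hVt : V t = ((t ^ 2 / 2 : ℝ) : ℂ) + l * (t : ℂ) + (b t : ℂ) := by
      rw [hV]; push_cast; ring
    rw [hVt, gg]
    simp only [Pi.add_apply]
    push_cast
    ring

/-- increments on unit intervals are `o(√t)` -/
def SmallOsc (b : ℝ → ℝ) : Prop :=
  ∀ ε : ℝ, 0 < ε → ∃ T : ℝ, ∀ t, T ≤ t → ∀ s ∈ Icc (0:ℝ) 1, |b (t + s) - b t| ≤ ε * Real.sqrt t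

theorem pathData_of_smallOsc {b : ℝ → ℝ} (hb : Continuous b) (h : SmallOsc b) :
    PathData (gg b) (nn b) := by
  refine ⟨fun ε hε => ?_, fun x y => ?_⟩
  · obtain ⟨T, hT⟩ := h ε hε
    refine ⟨T, fun t ht => ⟨?_, ?_⟩⟩
    · have h1 : gg b t = ∫ u in t..(t + 1), (b t - b u) := by
        rw [intervalIntegral.integral_sub (by simp) (hb.intervalIntegrable _ _)]
        simp [gg, mav]
      rw [h1]
      have h2 := intervalIntegral.norm_integral_le_of_norm_le_const (a := t) (b := t + 1)
        (f := fun u => b t - b u) (C := ε * Real.sqrt t) (fun u hu => by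
          rw [uIoc_of_le (by linarith)] at hu
          rw [Real.norm_eq_abs, abs_sub_comm]
          have := hT t ht (u - t) ⟨by linarith [hu.1], by linarith [hu.2]⟩
          rwa [add_sub_cancel] at this)
      rw [Real.norm_eq_abs] at h2
      simpa using h2
    · exact hT t ht 1 ⟨zero_le_one, le_rfl⟩
  · have hm : Continuous (mav b) := continuous_iff_continuousAt.2
      fun t => (hasDerivAt_mav hb t).continuousAt
    have hgc : Continuous (gg b) := hb.sub hm
    have hnc : Continuous (nn b) := (hb.comp (continuous_id.add continuous_const)).sub hb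
    obtain ⟨M1, hM1⟩ := (isCompact_Icc (a := x) (b := y)).exists_bound_of_continuousOn hgc.continuousOn
    obtain ⟨M2, hM2⟩ := (isCompact_Icc (a := x) (b := y)).exists_bound_of_continuousOn hnc.continuousOn
    refine ⟨max M1 M2, fun t ht => ⟨?_, ?_⟩⟩
    · exact (hM1 t ht).trans (le_max_left _ _)
    · exact (hM2 t ht).trans (le_max_right _ _)

end Helper96.Airy
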