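import Pool.Agent.helper96.Airy.Fam

open Set Filter Topology ComplexConjugate

namespace Helper96.Airy

variable {δ : ℝ} {g n : ℝ → ℝ} {Λ : Set ℂ} {F Ψ : ℂ → ℝ → ℂ}

/-- backward Gronwall inequality -/
lemma back_gronwall {y y' : ℝ → ℝ} {a b c : ℝ} (hab : a ≤ b)
    (hd : ∀ t, a ≤ t → t ≤ b → HasDerivAt y (y' t) t)
    (hc : ∀ t, a ≤ t → t ≤ b → -(c * y t) ≤ y' t) :
    y a ≤ y b * Real.exp (c * (b - a)) := by
  have h1 := mono_of_deriv_Icc (f := fun t => y t * Real.exp (c * (t - a)))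
    (f' := fun t => (y' t + c * y t) * Real.exp (c * (t - a))) (a := a) (b := b)
    (fun t h1 h2 => by
      have hE : HasDerivAt (fun s => Real.exp (c * (s - a))) (Real.exp (c * (t - a)) * c) t := by
        have : HasDerivAt (fun s => c * (s - a)) c t := by
          have := ((hasDerivAt_id t).sub_const a).const_mul c
          simpa using this
        exact this.exp
      refine ((hd t h1 h2).mul hE).congr_deriv ?_
      ring)
    (fun t h1 h2 => mul_nonneg (by linarith [hc t h1 h2]) (Real.exp_pos _).le) hab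
  simpa using h1

/-- energy derivative estimate -/
lemma energy_deriv {l : ℂ} {φ ψ : ℝ → ℂ} (hS : Sys g n l φ ψ) {ρ w t : ℝ} (hw : 1 ≤ w)
    (hρ : ρ = w * w) (hl : ‖l‖ = ρ)
    (hg : |g t| ≤ 100 * w) (hn : |n t| ≤ 100 * w) (ht : |t| ≤ 10 ^ 4 * ρ) :
    ∃ y' : ℝ, HasDerivAt (fun t => ρ * ‖φ t‖ ^ 2 + ‖ψ t‖ ^ 2) y' t ∧
      -(40000 * w * (ρ * ‖φ t‖ ^ 2 + ‖ψ t‖ ^ 2)) ≤ y' := by
  refine ⟨_, ((hasDerivAt_nsq (hS.d1 t)).const_mul ρ).add (hasDerivAt_nsq (hS.d2 t)), ?_⟩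
  have hρ0 : 0 < ρ := by rw [hρ]; positivity
  have hw0 : 0 < w := by linarith
  set x := ‖φ t‖ with hx
  set z := ‖ψ t‖ with hz
  have hx0 : 0 ≤ x := norm_nonneg _
  have hz0 : 0 ≤ z := norm_nonneg _
  have h1 : (conj (φ t) * ((g t : ℂ) * φ t + ψ t)).re = g t * x ^ 2 + (conj (φ t) * ψ t).re := by
    have : conj (φ t) * ((g t : ℂ) * φ t + ψ t) = (g t : ℂ) * (φ t * conj (φ t)) + conj (φ t) * ψ t := by
      ring
    rw [this, Complex.add_re, Complex.mul_conj, Complex.normSq_eq_norm_sq, Complex.re_ofReal_mul,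
      Complex.ofReal_re]
  have h2 : (conj (ψ t) * (((t : ℂ) + l + (n t : ℂ) - (g t : ℂ) ^ 2) * φ t - (g t : ℂ) * ψ t)).re =
      (((t : ℂ) + l + (n t : ℂ) - (g t : ℂ) ^ 2) * (conj (ψ t) * φ t)).re - g t * z ^ 2 := by
    have : conj (ψ t) * (((t : ℂ) + l + (n t : ℂ) - (g t : ℂ) ^ 2) * φ t - (g t : ℂ) * ψ t) =
      ((t : ℂ) + l + (n t : ℂ) - (g t : ℂ) ^ 2) * (conj (ψ t) * φ t) - (g t : ℂ) * (ψ t * conj (ψ t)) := by
      ring
    rw [this, Complex.sub_re, Complex.mul_conj, Complex.normSq_eq_norm_sq, Complex.re_ofReal_mul,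
      Complex.ofReal_re]
  rw [h1, h2]
  have h3 : -(x * z) ≤ (conj (φ t) * ψ t).re := by
    have h := Complex.abs_re_le_norm (conj (φ t) * ψ t)
    rw [norm_mul, Complex.norm_conj] at h
    exact (abs_le.1 h).1
  have h4 : ‖(t : ℂ) + l + (n t : ℂ) - (g t : ℂ) ^ 2‖ ≤ 30000 * ρ := by
    have hg2 : |g t| ^ 2 ≤ (100 * w) ^ 2 := by gcongr
    calc ‖(t : ℂ) + l + (n t : ℂ) - (g t : ℂ) ^ 2‖ ≤ |t| + ‖l‖ + |n t| + |g t| ^ 2 := by
          refine (norm_sub_le _ _).trans ?_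
          rw [norm_pow, Complex.norm_real, Real.norm_eq_abs]
          gcongr
          refine (norm_add_le _ _).trans ?_
          rw [Complex.norm_real, Real.norm_eq_abs]
          gcongr
          refine (norm_add_le _ _).trans ?_
          rw [Complex.norm_real, Real.norm_eq_abs]
      _ ≤ 10 ^ 4 * ρ + ρ + 100 * w + (100 * w) ^ 2 := by rw [hl]; gcongr
      _ ≤ 30000 * ρ := by
          rw [hρ]
          nlinarith
  have h5 : -(30000 * ρ * (z * x)) ≤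
      (((t : ℂ) + l + (n t : ℂ) - (g t : ℂ) ^ 2) * (conj (ψ t) * φ t)).re := by
    have h := Complex.abs_re_le_norm (((t : ℂ) + l + (n t : ℂ) - (g t : ℂ) ^ 2) * (conj (ψ t) * φ t))
    rw [norm_mul, norm_mul, Complex.norm_conj] at h
    have h6 : ‖(t : ℂ) + l + (n t : ℂ) - (g t : ℂ) ^ 2‖ * (‖ψ t‖ * ‖φ t‖) ≤ 30000 * ρ * (z * x) := by
      gcongr
    have := (abs_le.1 h).1
    linarith
  have h6 : -(100 * w * x ^ 2) ≤ g t * x ^ 2 := by
    have := (abs_le.1 hg).1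
    have h7 : 0 ≤ x ^ 2 := by positivity
    nlinarith
  have h7 : g t * z ^ 2 ≤ 100 * w * z ^ 2 := by
    have := (abs_le.1 hg).2
    gcongr
  -- 2 w x z ≤ ρ x² + z²
  have h8 : 2 * w * (x * z) ≤ ρ * x ^ 2 + z ^ 2 := by
    rw [hρ]
    nlinarith [sq_nonneg (w * x - z)]
  have h9 : ρ * (x * z) * 60002 ≤ 30001 * w * (ρ * x ^ 2 + z ^ 2) := by
    have : 30001 * w * (2 * w * (x * z)) ≤ 30001 * w * (ρ * x ^ 2 + z ^ 2) := by gcongr
    rw [hρ] at *
    nlinarith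
  have h10 : ρ * (2 * (g t * x ^ 2 + (conj (φ t) * ψ t).re)) ≥ ρ * (2 * (-(100 * w * x ^ 2) - x * z)) := by
    have : -(100 * w * x ^ 2) - x * z ≤ g t * x ^ 2 + (conj (φ t) * ψ t).re := by linarith
    have h11 : 0 ≤ ρ := hρ0.le
    nlinarith
  have h12 : 0 ≤ w * (ρ * x ^ 2) := by positivity
  have h13 : 0 ≤ w * z ^ 2 := by positivity
  nlinarith

/-- Upper bound. -/
theorem upper_bound (hP : PathData g n) (hF : SolFam g n Λ F Ψ) (τ : ℝ) :
    ∃ R : ℝ, ∀ l ∈ Λ, R ≤ ‖l‖ → ‖F l τ‖ ≤ Real.exp (10 ^ 10 * (‖l‖ * Real.sqrt ‖l‖)) := by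
  obtain ⟨δ, hδdef⟩ : ∃ δ : ℝ, δ = 1 / 10 ^ 10 := ⟨_, rfl⟩
  have hδ0 : 0 < δ := by rw [hδdef]; positivity
  have hδ : δ ≤ 1 / 1000 := by rw [hδdef]; norm_num
  obtain ⟨T0, hB⟩ := exists_base hP hδ0
  obtain ⟨C, hC0, hC⟩ := fam_lq hF hB hδ0 hδ
  obtain ⟨M, hM⟩ := hP.bdd τ T0
  have hT100 := hB.T100
  set L := |Real.log ‖F 0 T0‖| with hL
  refine ⟨max (max 1 T0) (max |τ| (max ((C + L) ^ 2) (M ^ 2))), ?_⟩
  intro l hl hr
  set r := ‖l‖ with hrdef
  have r1 : 1 ≤ r := ((le_max_left _ _).trans (le_max_left _ _)).trans hr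
  have r2 : T0 ≤ r := ((le_max_right _ _).trans (le_max_left _ _)).trans hr
  have r3 : |τ| ≤ r := ((le_max_left _ _).trans (le_max_right _ _)).trans hr
  have r4 : (C + L) ^ 2 ≤ r :=
    (((le_max_left _ _).trans (le_max_right _ _)).trans (le_max_right _ _)).trans hr
  have r5 : M ^ 2 ≤ r :=
    (((le_max_right _ _).trans (le_max_right _ _)).trans (le_max_right _ _)).trans hr
  have hr0 : 0 < r := by linarith
  have hL0 : 0 ≤ L := abs_nonneg _
  set w := Real.sqrt r with hw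
  have hw0 : 0 < w := Real.sqrt_pos.2 hr0
  have hww : r = w * w := (Real.mul_self_sqrt hr0.le).symm
  have hw1 : 1 ≤ w := by rw [hw, Real.one_le_sqrt]; exact r1
  have hwC : C + L ≤ w := Real.le_sqrt_of_sq_le r4
  have hwM : M ≤ w := Real.le_sqrt_of_sq_le r5
  set T := 10 ^ 4 * r with hTdef
  have hTr : r ≤ T := by rw [hTdef]; linarith
  have hsT : Real.sqrt T = 100 * w := by
    rw [hTdef, Real.sqrt_mul (by norm_num)]
    congr 1
    rw [show (10:ℝ) ^ 4 = 100 ^ 2 by norm_num, Real.sqrt_sq (by norm_num)]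
  have hτT : τ ≤ T := by
    have := le_abs_self τ
    linarith
  have h100 : 100 * ‖l‖ ≤ T := by rw [← hrdef, hTdef]; linarith
  have htame := tame_far hF hB hδ0 hδ hl (r2.trans hTr) h100
  have hnear := near_far (l := l) (by linarith) h100
  have q1 := hC _ hl r1 T (r2.trans hTr) h100
  rw [← hrdef, hsT] at q1
  have q2 := (abs_le.1 q1).2
  have q3 := (base_log hF hB hδ0 hδ (r2.trans hTr)).1
  rw [lq, hsT] at q2
  have hLb := le_abs_self (Real.log ‖F 0 T0‖)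
  rw [← hL] at hLb
  set X := r * w with hX
  have hX0 : 0 < X := by positivity
  have hX1 : 1 ≤ X := by rw [hX]; nlinarith
  have e1 : 2 * r ^ 2 / (100 * w) = X / 50 := by
    rw [hX]
    have : r ^ 2 = r * (w * w) := by rw [← hww]; ring
    rw [this]; field_simp; norm_num
  have e4 : r * (C + 160 * δ * (100 * w)) = r * C + 16000 * δ * X := by rw [hX]; ring
  rw [e1, e4] at q2
  have e5 : r * C + L ≤ X := by
    have h1 : r * (C + L) ≤ r * w := by gcongr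
    have h2 : L ≤ r * L := by nlinarith
    rw [hX]; linarith
  have e7 : 16000 * δ * X ≤ X := by
    have : 16000 * δ ≤ 1 := by rw [hδdef]; norm_num
    nlinarith
  have e8 : -(100 * X) ≤ l.re * (100 * w) := by
    have : -r ≤ l.re := (abs_le.1 (Complex.abs_re_le_norm l)).1
    have : -r * (100 * w) ≤ l.re * (100 * w) := by gcongr
    rw [hX]; linarith
  have q5 : Real.log ‖F l T‖ ≤ 103 * X := by linarith
  have hpos : 0 < ‖F l T‖ := norm_pos_iff.2 (htame.ne T le_rfl)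
  have q6 : ‖F l T‖ ≤ Real.exp (103 * X) := by
    rwa [Real.log_le_iff_le_exp hpos] at q5
  have q7 : ‖Ψ l T‖ ≤ 200 * w * ‖F l T‖ := by
    have s1 := htame.slope T le_rfl
    have s2 := hnear.norm T le_rfl
    rw [hsT] at s2
    have s3 : ‖Ψ l T‖ ≤ ‖Ψ l T + csq ((T : ℂ) + l) * F l T‖ + ‖csq ((T : ℂ) + l)‖ * ‖F l T‖ := by
      rw [← norm_mul]
      have : Ψ l T = (Ψ l T + csq ((T : ℂ) + l) * F l T) - csq ((T : ℂ) + l) * F l T := by ring
      nth_rewrite 1 [this]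
      exact norm_sub_le _ _
    have s4 : 48 * δ * ‖csq ((T : ℂ) + l)‖ * ‖F l T‖ ≤ 48 * (1 / 1000) * (11 / 10 * (100 * w)) * ‖F l T‖ := by
      gcongr
    have s5 : ‖csq ((T : ℂ) + l)‖ * ‖F l T‖ ≤ (11 / 10 * (100 * w)) * ‖F l T‖ := by gcongr
    have s6 : 0 ≤ w * ‖F l T‖ := by positivity
    nlinarith
  -- backward Gronwall
  have hgn : ∀ t, τ ≤ t → t ≤ T → |g t| ≤ 100 * w ∧ |n t| ≤ 100 * w := by
    intro t h1 h2
    rcases le_total t T0 with h | h
    · obtain ⟨a, b⟩ := hM t ⟨h1, h⟩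
      constructor <;> linarith
    · have hs : Real.sqrt t ≤ 100 * w := by rw [← hsT]; exact Real.sqrt_le_sqrt h2
      have hs0 : 0 ≤ Real.sqrt t := Real.sqrt_nonneg t
      have a := hB.hg t h
      have b := hB.hn' t h
      have c : δ / 2 * Real.sqrt t ≤ 1 * Real.sqrt t := by
        gcongr; linarith
      constructor <;> linarith
  have hch : ∀ t : ℝ, ∃ y' : ℝ, τ ≤ t → t ≤ T → (HasDerivAt
      (fun t => r * ‖F l t‖ ^ 2 + ‖Ψ l t‖ ^ 2) y' t ∧
      -(40000 * w * (r * ‖F l t‖ ^ 2 + ‖Ψ l t‖ ^ 2)) ≤ y') := by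
    intro t
    by_cases h1 : τ ≤ t
    · by_cases h2 : t ≤ T
      · obtain ⟨y', hy⟩ := energy_deriv (hF.sys l hl) (t := t) hw1 hww hrdef.symm (hgn t h1 h2).1
          (hgn t h1 h2).2 (by
            rw [abs_le]
            have := neg_abs_le τ
            constructor <;> linarith)
        exact ⟨y', fun _ _ => hy⟩
      · exact ⟨0, fun _ h => absurd h h2⟩
    · exact ⟨0, fun h _ => absurd h h1⟩
  choose y' hy' using hch
  have q8 := back_gronwall (y := fun t => r * ‖F l t‖ ^ 2 + ‖Ψ l t‖ ^ 2) (y' := y') (c := 40000 * w)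
    hτT (fun t h1 h2 => (hy' t h1 h2).1) (fun t h1 h2 => (hy' t h1 h2).2)
  have q9 : r * ‖F l T‖ ^ 2 + ‖Ψ l T‖ ^ 2 ≤ 40001 * r * Real.exp (103 * X) ^ 2 := by
    have s1 : ‖Ψ l T‖ ^ 2 ≤ (200 * w * ‖F l T‖) ^ 2 := by gcongr
    have s2 : (200 * w * ‖F l T‖) ^ 2 = 40000 * r * ‖F l T‖ ^ 2 := by
      rw [hww]; ring
    have s3 : ‖F l T‖ ^ 2 ≤ Real.exp (103 * X) ^ 2 := by gcongr
    have s4 : 40001 * r * ‖F l T‖ ^ 2 ≤ 40001 * r * Real.exp (103 * X) ^ 2 := by gcongr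
    linarith
  have q10 : r * ‖F l τ‖ ^ 2 ≤ r * (40001 * Real.exp (103 * X) ^ 2 * Real.exp (40000 * w * (T - τ))) := by
    have s1 : 0 ≤ ‖Ψ l τ‖ ^ 2 := by positivity
    have s2 : (r * ‖F l T‖ ^ 2 + ‖Ψ l T‖ ^ 2) * Real.exp (40000 * w * (T - τ)) ≤
        40001 * r * Real.exp (103 * X) ^ 2 * Real.exp (40000 * w * (T - τ)) := by gcongr
    linarith
  have q11 : ‖F l τ‖ ^ 2 ≤ 40001 * Real.exp (103 * X) ^ 2 * Real.exp (40000 * w * (T - τ)) :=
    le_of_mul_le_mul_left q10 hr0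
  have q12 : (40001 : ℝ) ≤ Real.exp (40001 * X) := by
    have := Real.add_one_le_exp (40001 * X)
    linarith
  have q13 : 40000 * w * (T - τ) ≤ 40000 * 10001 * X := by
    have : -τ ≤ r := by have := neg_abs_le τ; linarith
    have : T - τ ≤ 10001 * r := by rw [hTdef]; linarith
    calc 40000 * w * (T - τ) ≤ 40000 * w * (10001 * r) := by gcongr
      _ = _ := by rw [hX]; ring
  have q14 : ‖F l τ‖ ^ 2 ≤ Real.exp (10 ^ 10 * X) ^ 2 := by
    calc ‖F l τ‖ ^ 2 ≤ 40001 * Real.exp (103 * X) ^ 2 * Real.exp (40000 * w * (T - τ)) := q11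
      _ ≤ Real.exp (40001 * X) * Real.exp (103 * X) ^ 2 * Real.exp (40000 * 10001 * X) := by gcongr
      _ = Real.exp (40001 * X + 2 * (103 * X) + 40000 * 10001 * X) := by
          rw [Real.exp_add, Real.exp_add, two_mul (103 * X), Real.exp_add (103 * X)]; ring
      _ ≤ Real.exp (2 * (10 ^ 10 * X)) := by
          apply Real.exp_le_exp.2
          linarith
      _ = _ := by rw [two_mul, Real.exp_add]; ring
  exact le_of_sq_le_sq q14 (Real.exp_pos _).le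

end Helper96.Airy
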